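import Mathlib

set_option autoImplicit false

open Filter Topology

namespace Pool.Agent.Work.MP_877ce7_an

/-- Euclidean inner product on the plane -/
def dot (z w : ℂ) : ℝ := z.re * w.re + z.im * w.im
/-- cross product on the plane -/
def crs (z w : ℂ) : ℝ := z.re * w.im - z.im * w.re

lemma dot_self_nonneg (z : ℂ) : 0 ≤ dot z z := by
  unfold dot; nlinarith [sq_nonneg z.re, sq_nonneg z.im]

lemma dot_self (z : ℂ) : dot z z = ‖z‖ ^ 2 := by
  rw [← Complex.normSq_eq_norm_sq, Complex.normSq_apply]; rfl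

lemma norm_eq (z : ℂ) : ‖z‖ = Real.sqrt (dot z z) := by
  rw [dot_self, Real.sqrt_sq (norm_nonneg z)]

lemma dot_comm (z w : ℂ) : dot z w = dot w z := by unfold dot; ring

lemma dot_add_left (z w u : ℂ) : dot (z + w) u = dot z u + dot w u := by
  unfold dot; simp only [Complex.add_re, Complex.add_im]; ring
lemma dot_sub_left (z w u : ℂ) : dot (z - w) u = dot z u - dot w u := by
  unfold dot; simp only [Complex.sub_re, Complex.sub_im]; ring
lemma dot_add_right (z w u : ℂ) : dot u (z + w) = dot u z + dot u w := by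
  unfold dot; simp only [Complex.add_re, Complex.add_im]; ring
lemma dot_sub_right (z w u : ℂ) : dot u (z - w) = dot u z - dot u w := by
  unfold dot; simp only [Complex.sub_re, Complex.sub_im]; ring
lemma dot_smul_left (c : ℝ) (z w : ℂ) : dot (c • z) w = c * dot z w := by
  unfold dot; simp only [Complex.real_smul, Complex.mul_re, Complex.mul_im, Complex.ofReal_re,
    Complex.ofReal_im]; ring
lemma dot_smul_right (c : ℝ) (z w : ℂ) : dot z (c • w) = c * dot z w := by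
  unfold dot; simp only [Complex.real_smul, Complex.mul_re, Complex.mul_im, Complex.ofReal_re,
    Complex.ofReal_im]; ring

lemma crs_add_left (z w u : ℂ) : crs (z + w) u = crs z u + crs w u := by
  unfold crs; simp only [Complex.add_re, Complex.add_im]; ring
lemma crs_smul_left (c : ℝ) (z w : ℂ) : crs (c • z) w = c * crs z w := by
  unfold crs; simp only [Complex.real_smul, Complex.mul_re, Complex.mul_im, Complex.ofReal_re,
    Complex.ofReal_im]; ring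
lemma crs_smul_right (c : ℝ) (z w : ℂ) : crs z (c • w) = c * crs z w := by
  unfold crs; simp only [Complex.real_smul, Complex.mul_re, Complex.mul_im, Complex.ofReal_re,
    Complex.ofReal_im]; ring
lemma crs_self (z : ℂ) : crs z z = 0 := by unfold crs; ring

lemma dot_sq_add_crs_sq (z w : ℂ) : dot z w ^ 2 + crs z w ^ 2 = dot z z * dot w w := by
  unfold dot crs; ring

lemma abs_dot_le (z w : ℂ) : |dot z w| ≤ ‖z‖ * ‖w‖ := by
  apply abs_le_of_sq_le_sq _ (by positivity)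
  have := dot_sq_add_crs_sq z w
  rw [dot_self, dot_self] at this
  nlinarith [sq_nonneg (crs z w)]

lemma abs_crs_le (z w : ℂ) : |crs z w| ≤ ‖z‖ * ‖w‖ := by
  apply abs_le_of_sq_le_sq _ (by positivity)
  have := dot_sq_add_crs_sq z w
  rw [dot_self, dot_self] at this
  nlinarith [sq_nonneg (dot z w)]

lemma hasDerivAt_re {f : ℝ → ℂ} {f' : ℂ} {t : ℝ} (hf : HasDerivAt f f' t) :
    HasDerivAt (fun t => (f t).re) f'.re t := by
  exact Complex.reCLM.hasFDerivAt.comp_hasDerivAt t hf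

lemma hasDerivAt_im {f : ℝ → ℂ} {f' : ℂ} {t : ℝ} (hf : HasDerivAt f f' t) :
    HasDerivAt (fun t => (f t).im) f'.im t := by
  exact Complex.imCLM.hasFDerivAt.comp_hasDerivAt t hf

lemma hasDerivAt_dot {f g : ℝ → ℂ} {f' g' : ℂ} {t : ℝ} (hf : HasDerivAt f f' t)
    (hg : HasDerivAt g g' t) :
    HasDerivAt (fun t => dot (f t) (g t)) (dot f' (g t) + dot (f t) g') t := by
  have h := ((hasDerivAt_re hf).mul (hasDerivAt_re hg)).add
    ((hasDerivAt_im hf).mul (hasDerivAt_im hg))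
  refine h.congr_deriv ?_
  unfold dot; ring

lemma hasDerivAt_crs {f g : ℝ → ℂ} {f' g' : ℂ} {t : ℝ} (hf : HasDerivAt f f' t)
    (hg : HasDerivAt g g' t) :
    HasDerivAt (fun t => crs (f t) (g t)) (crs f' (g t) + crs (f t) g') t := by
  have h := ((hasDerivAt_re hf).mul (hasDerivAt_im hg)).sub
    ((hasDerivAt_im hf).mul (hasDerivAt_re hg))
  refine h.congr_deriv ?_
  unfold crs; ring

lemma hasDerivAt_norm {f : ℝ → ℂ} {f' : ℂ} {t : ℝ} (hf : HasDerivAt f f' t) (h0 : f t ≠ 0) :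
    HasDerivAt (fun t => ‖f t‖) (dot (f t) f' / ‖f t‖) t := by
  have h1 := hasDerivAt_dot hf hf
  have hpos : dot (f t) (f t) ≠ 0 := by
    rw [dot_self]; exact pow_ne_zero _ (norm_ne_zero_iff.2 h0)
  have h2 := h1.sqrt hpos
  have e : (fun t => ‖f t‖) = fun t => Real.sqrt (dot (f t) (f t)) := by
    ext t; exact norm_eq _
  rw [e]
  refine h2.congr_deriv ?_
  rw [← norm_eq, dot_comm f' (f t)]
  have : ‖f t‖ ≠ 0 := norm_ne_zero_iff.2 h0
  field_simp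
  ring

lemma hasDerivAt_inv_norm {f : ℝ → ℂ} {f' : ℂ} {t : ℝ} (hf : HasDerivAt f f' t) (h0 : f t ≠ 0) :
    HasDerivAt (fun t => 1 / ‖f t‖) (-(dot (f t) f') / ‖f t‖ ^ 3) t := by
  have hn : ‖f t‖ ≠ 0 := norm_ne_zero_iff.2 h0
  have h := (hasDerivAt_norm hf h0).inv hn
  have e : (fun t => 1 / ‖f t‖) = (fun t => ‖f t‖)⁻¹ := by ext t; simp
  rw [e]
  refine h.congr_deriv ?_
  field_simp

lemma hasDerivAt_inv_norm_cube {f : ℝ → ℂ} {f' : ℂ} {t : ℝ} (hf : HasDerivAt f f' t)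
    (h0 : f t ≠ 0) :
    HasDerivAt (fun t => 1 / ‖f t‖ ^ 3) (-(3 * dot (f t) f') / ‖f t‖ ^ 5) t := by
  have hn : ‖f t‖ ≠ 0 := norm_ne_zero_iff.2 h0
  have h := (hasDerivAt_inv_norm hf h0).pow 3
  have e : (fun t => 1 / ‖f t‖ ^ 3) = (fun t => 1 / ‖f t‖) ^ 3 := by ext t; simp
  rw [e]
  refine h.congr_deriv ?_
  simp only [Nat.cast_ofNat, Nat.add_one_sub_one]
  field_simp

/-- A collision-free solution of the planar three-body problem on the whole line, with center of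
mass at the origin. -/
structure Sol (m₁ m₂ m₃ : ℝ) (q₁ q₂ q₃ v₁ v₂ v₃ : ℝ → ℂ) : Prop where
  m1 : 0 < m₁
  m2 : 0 < m₂
  m3 : 0 < m₃
  com : ∀ t, m₁ • q₁ t + m₂ • q₂ t + m₃ • q₃ t = 0
  n12 : ∀ t, q₁ t ≠ q₂ t
  n13 : ∀ t, q₁ t ≠ q₃ t
  n23 : ∀ t, q₂ t ≠ q₃ t
  dq1 : ∀ t, HasDerivAt q₁ (v₁ t) t
  dq2 : ∀ t, HasDerivAt q₂ (v₂ t) t
  dq3 : ∀ t, HasDerivAt q₃ (v₃ t) t
  dv1 : ∀ t, HasDerivAt v₁ ((m₂ / ‖q₂ t - q₁ t‖ ^ 3) • (q₂ t - q₁ t) +
    (m₃ / ‖q₃ t - q₁ t‖ ^ 3) • (q₃ t - q₁ t)) t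
  dv2 : ∀ t, HasDerivAt v₂ ((m₃ / ‖q₃ t - q₂ t‖ ^ 3) • (q₃ t - q₂ t) +
    (m₁ / ‖q₁ t - q₂ t‖ ^ 3) • (q₁ t - q₂ t)) t
  dv3 : ∀ t, HasDerivAt v₃ ((m₁ / ‖q₁ t - q₃ t‖ ^ 3) • (q₁ t - q₃ t) +
    (m₂ / ‖q₂ t - q₃ t‖ ^ 3) • (q₂ t - q₃ t)) t

variable {m₁ m₂ m₃ : ℝ} {q₁ q₂ q₃ v₁ v₂ v₃ : ℝ → ℂ}

/-- cyclic permutation -/
lemma Sol.rot (h : Sol m₁ m₂ m₃ q₁ q₂ q₃ v₁ v₂ v₃) : Sol m₂ m₃ m₁ q₂ q₃ q₁ v₂ v₃ v₁ where
  m1 := h.m2
  m2 := h.m3
  m3 := h.m1
  com t := by rw [← h.com t]; abel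
  n12 := h.n23
  n13 t := (h.n12 t).symm
  n23 t := (h.n13 t).symm
  dq1 := h.dq2
  dq2 := h.dq3
  dq3 := h.dq1
  dv1 := h.dv2
  dv2 := h.dv3
  dv3 := h.dv1

/-- transposition of the first two bodies -/
lemma Sol.swap (h : Sol m₁ m₂ m₃ q₁ q₂ q₃ v₁ v₂ v₃) : Sol m₂ m₁ m₃ q₂ q₁ q₃ v₂ v₁ v₃ where
  m1 := h.m2
  m2 := h.m1
  m3 := h.m3
  com t := by rw [← h.com t]; abel
  n12 t := (h.n12 t).symm
  n13 := h.n23
  n23 := h.n13
  dq1 := h.dq2
  dq2 := h.dq1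
  dq3 := h.dq3
  dv1 t := by have := h.dv2 t; rwa [add_comm] at this
  dv2 t := by have := h.dv1 t; rwa [add_comm] at this
  dv3 t := by have := h.dv3 t; rwa [add_comm] at this

/-- time reversal -/
lemma Sol.rev (h : Sol m₁ m₂ m₃ q₁ q₂ q₃ v₁ v₂ v₃) :
    Sol m₁ m₂ m₃ (fun t => q₁ (-t)) (fun t => q₂ (-t)) (fun t => q₃ (-t))
      (fun t => -v₁ (-t)) (fun t => -v₂ (-t)) (fun t => -v₃ (-t)) := by
  have key1 : ∀ (q v : ℝ → ℂ), (∀ t, HasDerivAt q (v t) t) →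
      ∀ t, HasDerivAt (fun t => q (-t)) (-v (-t)) t := by
    intro q v hq t
    have := HasDerivAt.scomp t (hq (-t)) (hasDerivAt_neg t)
    exact this.congr_deriv (by simp)
  have key2 : ∀ (q v : ℝ → ℂ), (∀ t, HasDerivAt q (v t) t) →
      ∀ t, HasDerivAt (fun t => -q (-t)) (v (-t)) t := by
    intro q v hq t
    have := (key1 q v hq t).neg
    exact this.congr_deriv (by simp)
  exact
  { m1 := h.m1
    m2 := h.m2
    m3 := h.m3
    com := fun t => h.com (-t)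
    n12 := fun t => h.n12 (-t)
    n13 := fun t => h.n13 (-t)
    n23 := fun t => h.n23 (-t)
    dq1 := key1 _ _ h.dq1
    dq2 := key1 _ _ h.dq2
    dq3 := key1 _ _ h.dq3
    dv1 := key2 _ _ h.dv1
    dv2 := key2 _ _ h.dv2
    dv3 := key2 _ _ h.dv3 }

end Pool.Agent.Work.MP_877ce7_an
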