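import Mathlib
import Pool.Agent.Work.MP_877ce7_an.B1

set_option autoImplicit false

open Filter Topology

namespace Pool.Agent.Work.MP_877ce7_an

/-- bundled solutions -/
structure Traj (m₁ m₂ m₃ : ℝ) where
  q₁ : ℝ → ℂ
  q₂ : ℝ → ℂ
  q₃ : ℝ → ℂ
  v₁ : ℝ → ℂ
  v₂ : ℝ → ℂ
  v₃ : ℝ → ℂ
  sol : Sol m₁ m₂ m₃ q₁ q₂ q₃ v₁ v₂ v₃

namespace Traj

variable {m₁ m₂ m₃ : ℝ} (S : Traj m₁ m₂ m₃)

def rot : Traj m₂ m₃ m₁ := ⟨S.q₂, S.q₃, S.q₁, S.v₂, S.v₃, S.v₁, S.sol.rot⟩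
def swap : Traj m₂ m₁ m₃ := ⟨S.q₂, S.q₁, S.q₃, S.v₂, S.v₁, S.v₃, S.sol.swap⟩
def rev : Traj m₁ m₂ m₃ := ⟨fun t => S.q₁ (-t), fun t => S.q₂ (-t), fun t => S.q₃ (-t),
  fun t => -S.v₁ (-t), fun t => -S.v₂ (-t), fun t => -S.v₃ (-t), S.sol.rev⟩

/-- moment of inertia -/
noncomputable def I (t : ℝ) : ℝ :=
  m₁ * dot (S.q₁ t) (S.q₁ t) + m₂ * dot (S.q₂ t) (S.q₂ t) + m₃ * dot (S.q₃ t) (S.q₃ t)
noncomputable def J (t : ℝ) : ℝ :=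
  m₁ * dot (S.q₁ t) (S.v₁ t) + m₂ * dot (S.q₂ t) (S.v₂ t) + m₃ * dot (S.q₃ t) (S.v₃ t)
/-- twice the kinetic energy -/
noncomputable def T (t : ℝ) : ℝ :=
  m₁ * dot (S.v₁ t) (S.v₁ t) + m₂ * dot (S.v₂ t) (S.v₂ t) + m₃ * dot (S.v₃ t) (S.v₃ t)
/-- potential function -/
noncomputable def U (t : ℝ) : ℝ :=
  m₁ * m₂ * (1 / ‖S.q₂ t - S.q₁ t‖) + m₂ * m₃ * (1 / ‖S.q₃ t - S.q₂ t‖) +
    m₃ * m₁ * (1 / ‖S.q₁ t - S.q₃ t‖)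

noncomputable def a₁ (t : ℝ) : ℂ := (m₂ / ‖S.q₂ t - S.q₁ t‖ ^ 3) • (S.q₂ t - S.q₁ t) +
    (m₃ / ‖S.q₃ t - S.q₁ t‖ ^ 3) • (S.q₃ t - S.q₁ t)
noncomputable def a₂ (t : ℝ) : ℂ := (m₃ / ‖S.q₃ t - S.q₂ t‖ ^ 3) • (S.q₃ t - S.q₂ t) +
    (m₁ / ‖S.q₁ t - S.q₂ t‖ ^ 3) • (S.q₁ t - S.q₂ t)
noncomputable def a₃ (t : ℝ) : ℂ := (m₁ / ‖S.q₁ t - S.q₃ t‖ ^ 3) • (S.q₁ t - S.q₃ t) +
    (m₂ / ‖S.q₂ t - S.q₃ t‖ ^ 3) • (S.q₂ t - S.q₃ t)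

/-- time derivative of the potential function -/
noncomputable def Ud (t : ℝ) : ℝ :=
  m₁ * m₂ * (-(dot (S.q₂ t - S.q₁ t) (S.v₂ t - S.v₁ t)) / ‖S.q₂ t - S.q₁ t‖ ^ 3) +
  m₂ * m₃ * (-(dot (S.q₃ t - S.q₂ t) (S.v₃ t - S.v₂ t)) / ‖S.q₃ t - S.q₂ t‖ ^ 3) +
  m₃ * m₁ * (-(dot (S.q₁ t - S.q₃ t) (S.v₁ t - S.v₃ t)) / ‖S.q₁ t - S.q₃ t‖ ^ 3)

/-- squared mass norm of the gradient -/
noncomputable def G2 (t : ℝ) : ℝ :=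
  m₁ * dot (S.a₁ t) (S.a₁ t) + m₂ * dot (S.a₂ t) (S.a₂ t) + m₃ * dot (S.a₃ t) (S.a₃ t)

/-- second derivative of `1/r` in the direction `e` -/
noncomputable def hes (d e : ℂ) : ℝ := 3 * dot d e ^ 2 / ‖d‖ ^ 5 - dot e e / ‖d‖ ^ 3

noncomputable def Hq (t : ℝ) : ℝ :=
  m₁ * m₂ * hes (S.q₂ t - S.q₁ t) (S.v₂ t - S.v₁ t) +
  m₂ * m₃ * hes (S.q₃ t - S.q₂ t) (S.v₃ t - S.v₂ t) +
  m₃ * m₁ * hes (S.q₁ t - S.q₃ t) (S.v₁ t - S.v₃ t)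

include S in
lemma p1 : 0 < m₁ := S.sol.m1
include S in
lemma p2 : 0 < m₂ := S.sol.m2
include S in
lemma p3 : 0 < m₃ := S.sol.m3

lemma d21_ne (t : ℝ) : S.q₂ t - S.q₁ t ≠ 0 := sub_ne_zero.2 (S.sol.n12 t).symm
lemma d32_ne (t : ℝ) : S.q₃ t - S.q₂ t ≠ 0 := sub_ne_zero.2 (S.sol.n23 t).symm
lemma d13_ne (t : ℝ) : S.q₁ t - S.q₃ t ≠ 0 := sub_ne_zero.2 (S.sol.n13 t)

lemma inv_eq (d : ℂ) (h : d ≠ 0) : 1 / ‖d‖ = dot d d * (1 / ‖d‖ ^ 3) := by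
  have : ‖d‖ ≠ 0 := norm_ne_zero_iff.2 h
  rw [dot_self]
  field_simp

lemma hasI (t : ℝ) : HasDerivAt S.I (2 * S.J t) t := by
  have h1 := (hasDerivAt_dot (S.sol.dq1 t) (S.sol.dq1 t)).const_mul m₁
  have h2 := (hasDerivAt_dot (S.sol.dq2 t) (S.sol.dq2 t)).const_mul m₂
  have h3 := (hasDerivAt_dot (S.sol.dq3 t) (S.sol.dq3 t)).const_mul m₃
  refine ((h1.add h2).add h3).congr_deriv ?_
  unfold J
  rw [dot_comm (S.v₁ t), dot_comm (S.v₂ t), dot_comm (S.v₃ t)]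
  ring

lemma hasJ (t : ℝ) : HasDerivAt S.J (S.T t - S.U t) t := by
  have h1 := (hasDerivAt_dot (S.sol.dq1 t) (S.sol.dv1 t)).const_mul m₁
  have h2 := (hasDerivAt_dot (S.sol.dq2 t) (S.sol.dv2 t)).const_mul m₂
  have h3 := (hasDerivAt_dot (S.sol.dq3 t) (S.sol.dv3 t)).const_mul m₃
  refine ((h1.add h2).add h3).congr_deriv ?_
  unfold T U
  rw [inv_eq _ (S.d21_ne t), inv_eq _ (S.d32_ne t), inv_eq _ (S.d13_ne t),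
    norm_sub_rev (S.q₃ t) (S.q₁ t), norm_sub_rev (S.q₁ t) (S.q₂ t), norm_sub_rev (S.q₂ t) (S.q₃ t)]
  simp only [dot_add_right, dot_smul_right, dot_sub_right, dot_sub_left, div_eq_mul_inv, one_mul]
  rw [dot_comm (S.q₂ t) (S.q₁ t), dot_comm (S.q₃ t) (S.q₁ t), dot_comm (S.q₃ t) (S.q₂ t)]
  ring

lemma hasU (t : ℝ) : HasDerivAt S.U (S.Ud t) t := by
  have h1 := (hasDerivAt_inv_norm ((S.sol.dq2 t).sub (S.sol.dq1 t)) (S.d21_ne t)).const_mul (m₁ * m₂)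
  have h2 := (hasDerivAt_inv_norm ((S.sol.dq3 t).sub (S.sol.dq2 t)) (S.d32_ne t)).const_mul (m₂ * m₃)
  have h3 := (hasDerivAt_inv_norm ((S.sol.dq1 t).sub (S.sol.dq3 t)) (S.d13_ne t)).const_mul (m₃ * m₁)
  exact (h1.add h2).add h3

lemma hasT (t : ℝ) : HasDerivAt S.T (2 * S.Ud t) t := by
  have h1 := (hasDerivAt_dot (S.sol.dv1 t) (S.sol.dv1 t)).const_mul m₁
  have h2 := (hasDerivAt_dot (S.sol.dv2 t) (S.sol.dv2 t)).const_mul m₂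
  have h3 := (hasDerivAt_dot (S.sol.dv3 t) (S.sol.dv3 t)).const_mul m₃
  refine ((h1.add h2).add h3).congr_deriv ?_
  unfold Ud
  rw [norm_sub_rev (S.q₃ t) (S.q₁ t), norm_sub_rev (S.q₁ t) (S.q₂ t), norm_sub_rev (S.q₂ t) (S.q₃ t)]
  simp only [dot_add_right, dot_smul_right, dot_sub_right, dot_sub_left, div_eq_mul_inv,
    dot_add_left, dot_smul_left]
  rw [dot_comm (S.v₁ t) (S.q₂ t), dot_comm (S.v₁ t) (S.q₁ t), dot_comm (S.v₁ t) (S.q₃ t),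
    dot_comm (S.v₂ t) (S.q₂ t), dot_comm (S.v₂ t) (S.q₁ t), dot_comm (S.v₂ t) (S.q₃ t),
    dot_comm (S.v₃ t) (S.q₂ t), dot_comm (S.v₃ t) (S.q₁ t), dot_comm (S.v₃ t) (S.q₃ t)]
  ring

lemma hasUdpair {d e : ℝ → ℂ} {f : ℂ} {t : ℝ} (hd : HasDerivAt d (e t) t) (he : HasDerivAt e f t)
    (h0 : d t ≠ 0) : HasDerivAt (fun t => -(dot (d t) (e t)) / ‖d t‖ ^ 3)
      (hes (d t) (e t) - dot (d t) f * (1 / ‖d t‖ ^ 3)) t := by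
  have hn : ‖d t‖ ≠ 0 := norm_ne_zero_iff.2 h0
  have h := ((hasDerivAt_dot hd he).neg).mul (hasDerivAt_inv_norm_cube hd h0)
  have e1 : (fun t => -(dot (d t) (e t)) / ‖d t‖ ^ 3) =
      (-fun t => dot (d t) (e t)) * fun t => 1 / ‖d t‖ ^ 3 := by
    ext t
    simp [div_eq_mul_inv]
  rw [e1]
  refine h.congr_deriv ?_
  unfold hes
  simp only [Pi.neg_apply]
  field_simp
  ring

lemma hasUd (t : ℝ) : HasDerivAt S.Ud (S.G2 t + S.Hq t) t := by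
  have h1 := (hasUdpair ((S.sol.dq2 t).sub (S.sol.dq1 t)) ((S.sol.dv2 t).sub (S.sol.dv1 t))
    (S.d21_ne t)).const_mul (m₁ * m₂)
  have h2 := (hasUdpair ((S.sol.dq3 t).sub (S.sol.dq2 t)) ((S.sol.dv3 t).sub (S.sol.dv2 t))
    (S.d32_ne t)).const_mul (m₂ * m₃)
  have h3 := (hasUdpair ((S.sol.dq1 t).sub (S.sol.dq3 t)) ((S.sol.dv1 t).sub (S.sol.dv3 t))
    (S.d13_ne t)).const_mul (m₃ * m₁)
  refine ((h1.add h2).add h3).congr_deriv ?_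
  unfold G2 Hq a₁ a₂ a₃
  rw [norm_sub_rev (S.q₃ t) (S.q₁ t), norm_sub_rev (S.q₁ t) (S.q₂ t), norm_sub_rev (S.q₂ t) (S.q₃ t)]
  simp only [Pi.sub_apply]
  generalize hes (S.q₂ t - S.q₁ t) (S.v₂ t - S.v₁ t) = X1
  generalize hes (S.q₃ t - S.q₂ t) (S.v₃ t - S.v₂ t) = X2
  generalize hes (S.q₁ t - S.q₃ t) (S.v₁ t - S.v₃ t) = X3
  simp only [div_eq_mul_inv, one_mul]
  generalize (‖S.q₂ t - S.q₁ t‖ ^ 3)⁻¹ = k3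
  generalize (‖S.q₃ t - S.q₂ t‖ ^ 3)⁻¹ = k1
  generalize (‖S.q₁ t - S.q₃ t‖ ^ 3)⁻¹ = k2
  unfold dot
  simp only [Complex.add_re, Complex.add_im, Complex.sub_re, Complex.sub_im, Complex.real_smul,
    Complex.mul_re, Complex.mul_im, Complex.ofReal_re, Complex.ofReal_im]
  ring

/-- the energy -/
noncomputable def E : ℝ := 1 / 2 * S.T 0 - S.U 0

lemma energy (t : ℝ) : S.T t = 2 * (S.E + S.U t) := by
  have h : ∀ t, HasDerivAt (fun t => 1 / 2 * S.T t - S.U t) 0 t := by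
    intro t
    refine (((S.hasT t).const_mul (1 / 2 : ℝ)).sub (S.hasU t)).congr_deriv ?_
    ring
  have h2 := is_const_of_deriv_eq_zero (fun t => (h t).differentiableAt) (fun t => (h t).deriv) t 0
  unfold E
  linarith

end Traj

end Pool.Agent.Work.MP_877ce7_an
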