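import Mathlib
import Pool.Agent.Work.MP_877ce7_an.B2

set_option autoImplicit false

open Filter Topology

namespace Pool.Agent.Work.MP_877ce7_an

namespace Traj

variable {m₁ m₂ m₃ : ℝ} (S : Traj m₁ m₂ m₃)

lemma I_pos (t : ℝ) : 0 < S.I t := by
  have h1 := S.p1
  have h2 := S.p2
  have h3 := S.p3
  have hne := S.sol.n12 t
  have a1 := dot_self_nonneg (S.q₁ t)
  have a2 := dot_self_nonneg (S.q₂ t)
  have a3 := dot_self_nonneg (S.q₃ t)
  unfold I
  by_cases h : S.q₁ t = 0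
  · have h' : S.q₂ t ≠ 0 := by
      intro h''
      rw [h, h''] at hne
      exact hne rfl
    have : 0 < dot (S.q₂ t) (S.q₂ t) := by
      rw [dot_self]
      have := norm_pos_iff.2 h'
      positivity
    positivity
  · have : 0 < dot (S.q₁ t) (S.q₁ t) := by
      rw [dot_self]
      have := norm_pos_iff.2 h
      positivity
    positivity

/-- square root of the mass norm -/
noncomputable def s (t : ℝ) : ℝ := Real.sqrt (Real.sqrt (S.I t))

lemma s_pos (t : ℝ) : 0 < S.s t := Real.sqrt_pos.2 (Real.sqrt_pos.2 (S.I_pos t))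

lemma s_sq (t : ℝ) : S.s t ^ 2 = Real.sqrt (S.I t) := Real.sq_sqrt (Real.sqrt_nonneg _)

lemma s_pow (t : ℝ) : S.s t ^ 4 = S.I t := by
  have : S.s t ^ 4 = (S.s t ^ 2) ^ 2 := by ring
  rw [this, s_sq, Real.sq_sqrt (S.I_pos t).le]

lemma hasS (t : ℝ) : HasDerivAt S.s (S.J t / (2 * S.s t ^ 3)) t := by
  have h1 := (S.hasI t).sqrt (S.I_pos t).ne'
  have h2 := h1.sqrt (Real.sqrt_pos.2 (S.I_pos t)).ne'
  refine h2.congr_deriv ?_
  have hs := S.s_pos t
  have e1 : Real.sqrt (S.I t) = S.s t ^ 2 := (S.s_sq t).symm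
  have e2 : Real.sqrt (S.s t ^ 2) = S.s t := Real.sqrt_sq hs.le
  rw [e1, e2]
  field_simp

/-- Hubble rate -/
noncomputable def lam (t : ℝ) : ℝ := S.J t / S.I t

noncomputable def u₁ (t : ℝ) : ℂ := S.v₁ t - S.lam t • S.q₁ t
noncomputable def u₂ (t : ℝ) : ℂ := S.v₂ t - S.lam t • S.q₂ t
noncomputable def u₃ (t : ℝ) : ℂ := S.v₃ t - S.lam t • S.q₃ t

/-- squared mass norm of the velocity component orthogonal to the position -/
noncomputable def A (t : ℝ) : ℝ := S.T t - S.J t ^ 2 / S.I t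

lemma A_eq (t : ℝ) : S.A t = m₁ * dot (S.u₁ t) (S.u₁ t) + m₂ * dot (S.u₂ t) (S.u₂ t) +
    m₃ * dot (S.u₃ t) (S.u₃ t) := by
  have hI := (S.I_pos t).ne'
  have h : S.J t ^ 2 / S.I t = 2 * S.lam t * S.J t - S.lam t ^ 2 * S.I t := by
    unfold lam; field_simp; ring
  unfold A
  rw [h]
  unfold u₁ u₂ u₃
  generalize S.lam t = l
  unfold T J I dot
  simp only [Complex.sub_re, Complex.sub_im, Complex.real_smul,
    Complex.mul_re, Complex.mul_im, Complex.ofReal_re, Complex.ofReal_im]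
  ring

lemma A_nonneg (t : ℝ) : 0 ≤ S.A t := by
  rw [A_eq]
  have h1 := S.p1
  have h2 := S.p2
  have h3 := S.p3
  have a1 := dot_self_nonneg (S.u₁ t)
  have a2 := dot_self_nonneg (S.u₂ t)
  have a3 := dot_self_nonneg (S.u₃ t)
  positivity

noncomputable def V (t : ℝ) : ℝ := S.J t / S.s t

lemma J_eq (t : ℝ) : S.J t = S.V t * S.s t := by
  unfold V
  have := (S.s_pos t).ne'
  field_simp

lemma T_eq (t : ℝ) : S.T t = S.A t + S.V t ^ 2 / S.s t ^ 2 := by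
  unfold A
  rw [J_eq, ← s_pow]
  have := (S.s_pos t).ne'
  field_simp
  ring

lemma hasV (t : ℝ) : HasDerivAt S.V ((S.E + 1 / 2 * S.A t) / S.s t) t := by
  have hs := (S.s_pos t).ne'
  have h := (S.hasJ t).div (S.hasS t) hs
  refine h.congr_deriv ?_
  have h2 := S.energy t
  have h3 := S.T_eq t
  have h4 := S.J_eq t
  have h5 : S.U t = 1 / 2 * S.T t - S.E := by linarith
  rw [h5, h4, h3]
  field_simp
  ring

/-- `N = 2Eρ + 2C - v²` -/
noncomputable def N (C t : ℝ) : ℝ := 2 * S.E * S.s t ^ 2 + 2 * C - S.V t ^ 2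

lemma hasN (C t : ℝ) : HasDerivAt (S.N C) (-(S.V t * S.A t) / S.s t) t := by
  have hs := (S.s_pos t).ne'
  have h1 := ((S.hasS t).pow 2).const_mul (2 * S.E)
  have h2 := (S.hasV t).pow 2
  have h3 := (h1.add_const (2 * C)).sub h2
  refine h3.congr_deriv ?_
  rw [J_eq]
  simp only [Nat.cast_ofNat, Nat.add_one_sub_one, pow_one]
  field_simp
  ring

noncomputable def M (C t : ℝ) : ℝ := Real.sqrt (2 * S.E * S.s t ^ 2 + 2 * C)

noncomputable def phi (C t : ℝ) : ℝ := Real.arctan (S.V t / Real.sqrt (S.N C t))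

/-- derivative of `phi` -/
noncomputable def phid (C t : ℝ) : ℝ :=
  (S.E * S.s t ^ 2 * Real.sqrt (S.N C t) / (S.N C t + S.V t ^ 2) +
    1 / 2 * (S.s t ^ 2 * S.A t) / Real.sqrt (S.N C t)) / S.s t ^ 3

lemma hasPhi (C t : ℝ) (hN : 0 < S.N C t) : HasDerivAt (S.phi C) (S.phid C t) t := by
  have hs := (S.s_pos t).ne'
  set n := Real.sqrt (S.N C t) with hn
  have hnpos : 0 < n := Real.sqrt_pos.2 hN
  have hn2 : n ^ 2 = S.N C t := Real.sq_sqrt hN.le
  have h1 := (S.hasN C t).sqrt hN.ne'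
  have h2 := ((S.hasV t).div h1 hnpos.ne').arctan
  refine h2.congr_deriv ?_
  unfold phid
  simp only [Pi.div_apply]
  rw [← hn, ← hn2]
  have hM : n ^ 2 + S.V t ^ 2 ≠ 0 := by positivity
  have hM2 : 1 + (S.V t / n) ^ 2 ≠ 0 := by positivity
  field_simp
  ring

lemma N_add (C t : ℝ) : S.N C t + S.V t ^ 2 = 2 * S.E * S.s t ^ 2 + 2 * C := by
  unfold N; ring

/-- `W = ρ^{3/2} (d/dt)(ρ U)` -/
noncomputable def W (t : ℝ) : ℝ := S.s t * S.J t * S.U t + S.s t ^ 5 * S.Ud t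

/-- measures the distance to central configurations -/
noncomputable def hh (t : ℝ) : ℝ := S.s t ^ 8 * S.G2 t - S.s t ^ 4 * S.U t ^ 2

noncomputable def Hu (t : ℝ) : ℝ := S.Hq t + 2 * S.lam t ^ 2 * S.U t + 4 * S.lam t * S.Ud t

noncomputable def Wd (t : ℝ) : ℝ :=
  (S.hh t + S.s t ^ 4 * S.U t * S.A t - 1 / 2 * S.V t * S.W t + S.s t ^ 8 * S.Hu t) / S.s t ^ 3

lemma hasW (t : ℝ) : HasDerivAt S.W (S.Wd t) t := by
  have hs := (S.s_pos t).ne'
  have h1 := ((S.hasS t).mul (S.hasJ t)).mul (S.hasU t)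
  have h2 := ((S.hasS t).pow 5).mul (S.hasUd t)
  refine (h1.add h2).congr_deriv ?_
  have e1 : S.A t = S.T t - S.J t ^ 2 / S.s t ^ 4 := by unfold A; rw [s_pow]
  have e2 : S.lam t = S.J t / S.s t ^ 4 := by unfold lam; rw [s_pow]
  unfold Wd hh Hu W
  rw [e1, e2]
  have e3 : S.V t = S.J t / S.s t := rfl
  rw [e3]
  simp only [Nat.cast_ofNat, Nat.add_one_sub_one, Pi.mul_apply, Pi.pow_apply]
  field_simp
  ring

/-- `f = ρ U` -/
noncomputable def f (t : ℝ) : ℝ := S.s t ^ 2 * S.U t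

lemma hasF (t : ℝ) : HasDerivAt S.f (S.W t / S.s t ^ 3) t := by
  have hs := (S.s_pos t).ne'
  have h := ((S.hasS t).pow 2).mul (S.hasU t)
  refine h.congr_deriv ?_
  unfold W
  simp only [Nat.cast_ofNat, Nat.add_one_sub_one, Pi.pow_apply, pow_one]
  field_simp

lemma hasM (C t : ℝ) (hC : 0 < 2 * S.E * S.s t ^ 2 + 2 * C) :
    HasDerivAt (S.M C) (S.E * S.V t / (S.s t * S.M C t)) t := by
  have hs := (S.s_pos t).ne'
  have h1 := (((S.hasS t).pow 2).const_mul (2 * S.E)).add_const (2 * C)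
  have h2 := h1.sqrt hC.ne'
  refine h2.congr_deriv ?_
  have e : Real.sqrt (2 * S.E * S.s t ^ 2 + 2 * C) = S.M C t := rfl
  simp only [Pi.pow_apply]
  rw [e, J_eq]
  have hM : S.M C t ≠ 0 := (Real.sqrt_pos.2 hC).ne'
  simp only [Nat.cast_ofNat, Nat.add_one_sub_one, pow_one]
  field_simp

noncomputable def Z (C t : ℝ) : ℝ := S.W t / S.M C t ^ 3

noncomputable def Zd (C t : ℝ) : ℝ :=
  S.Wd t / S.M C t ^ 3 - 3 * S.W t * S.E * S.V t / (S.s t * S.M C t ^ 5)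

lemma hasZ (C t : ℝ) (hC : 0 < 2 * S.E * S.s t ^ 2 + 2 * C) :
    HasDerivAt (S.Z C) (S.Zd C t) t := by
  have hs := (S.s_pos t).ne'
  have hM : S.M C t ≠ 0 := (Real.sqrt_pos.2 hC).ne'
  have h := (S.hasW t).div ((S.hasM C t hC).pow 3) (pow_ne_zero 3 hM)
  refine h.congr_deriv ?_
  unfold Zd
  simp only [Nat.cast_ofNat, Nat.add_one_sub_one, Pi.pow_apply]
  field_simp

end Traj

end Pool.Agent.Work.MP_877ce7_an
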