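import Mathlib
import Pool.Agent.Work.MP_877ce7_an.B3

set_option autoImplicit false

open Filter Topology

namespace Pool.Agent.Work.MP_877ce7_an

/-- algebraic core of the cost estimate -/
lemma alg1 (n M V w e C g0 G1 K2 h Wv R Hh : ℝ) (hn : 0 < n) (hM : 0 < M)
    (hM2 : M ^ 2 = n ^ 2 + V ^ 2) (hM3 : M ^ 2 = 2 * e + 2 * C) (he : 0 ≤ e) (hC : 0 < C)
    (hg : 0 < g0) (hG1 : 0 ≤ G1) (hK2 : 0 ≤ K2) (hh : g0 ≤ h) (hW : |Wv| ≤ G1 * w) (hw : 0 ≤ w)
    (hR : 0 ≤ R) (hHh : -(K2 * w ^ 2) ≤ Hh) :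
    g0 / (2 * M ^ 3) - (4 * G1 ^ 2 / g0 + K2 / C) * (e * n / M ^ 2 + 1 / 2 * w ^ 2 / n) ≤
      (h + R - 1 / 2 * V * Wv + Hh) / M ^ 3 - 3 * Wv * e * V / M ^ 5 := by
  set X := e * n / M ^ 2 + 1 / 2 * w ^ 2 / n with hX
  have hVM : |V| ≤ M := by
    apply abs_le_of_sq_le_sq _ hM.le
    nlinarith [sq_nonneg n]
  have hnM : n ≤ M := by
    apply le_of_sq_le_sq' _ hM.le
    nlinarith [sq_nonneg V]
  have h1 : |V * Wv| ≤ M * (G1 * w) := by
    rw [abs_mul]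
    exact mul_le_mul hVM hW (abs_nonneg _) hM.le
  have h1' := abs_le.1 h1
  -- the third term
  have h2 : 3 * Wv * e * V / M ^ 5 ≤ (3 / 2 * M * (G1 * w)) / M ^ 3 := by
    rw [div_le_div_iff₀ (by positivity) (by positivity)]
    have h3 : 3 * Wv * e * V ≤ 3 * e * (M * (G1 * w)) := by
      have := mul_le_mul_of_nonneg_left h1'.2 (show 0 ≤ 3 * e by positivity)
      linarith
    have h4 : e ≤ M ^ 2 / 2 := by linarith
    have hGw : 0 ≤ M * (G1 * w) := by positivity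
    have h5 : 3 * e * (M * (G1 * w)) ≤ 3 * (M ^ 2 / 2) * (M * (G1 * w)) := by
      apply mul_le_mul_of_nonneg_right _ hGw
      linarith
    calc 3 * Wv * e * V * M ^ 3 ≤ 3 * (M ^ 2 / 2) * (M * (G1 * w)) * M ^ 3 := by
          apply mul_le_mul_of_nonneg_right (h3.trans h5) (by positivity)
      _ = 3 / 2 * M * (G1 * w) * M ^ 5 := by ring
  have h3 : (g0 - 1 / 2 * M * (G1 * w) - K2 * w ^ 2) / M ^ 3 ≤
      (h + R - 1 / 2 * V * Wv + Hh) / M ^ 3 := by
    apply div_le_div_of_nonneg_right _ (by positivity)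
    linarith
  have h4 : (g0 / 2 - 2 * G1 ^ 2 / g0 * M ^ 2 * w ^ 2 - K2 * w ^ 2) / M ^ 3 ≤
      (g0 - 1 / 2 * M * (G1 * w) - K2 * w ^ 2) / M ^ 3 - (3 / 2 * M * (G1 * w)) / M ^ 3 := by
    rw [← sub_div]
    apply div_le_div_of_nonneg_right _ (by positivity)
    have h5 : 0 ≤ (g0 - 2 * G1 * M * w) ^ 2 / (2 * g0) := by positivity
    have h6 : (g0 - 2 * G1 * M * w) ^ 2 / (2 * g0) =
        g0 / 2 - 2 * G1 * M * w + 2 * G1 ^ 2 / g0 * M ^ 2 * w ^ 2 := by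
      field_simp
      ring
    linarith
  have h5 : w ^ 2 ≤ 2 * M * X := by
    have e1 : w ^ 2 = 2 * n * (1 / 2 * w ^ 2 / n) := by field_simp
    have e2 : 1 / 2 * w ^ 2 / n ≤ X := by
      rw [hX]
      have : 0 ≤ e * n / M ^ 2 := by positivity
      linarith
    have e3 : 0 ≤ 1 / 2 * w ^ 2 / n := by positivity
    calc w ^ 2 = 2 * n * (1 / 2 * w ^ 2 / n) := e1
      _ ≤ 2 * M * (1 / 2 * w ^ 2 / n) := by
          apply mul_le_mul_of_nonneg_right _ e3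
          linarith
      _ ≤ 2 * M * X := by
          apply mul_le_mul_of_nonneg_left e2 (by positivity)
  have hX0 : 0 ≤ X := by rw [hX]; positivity
  have h6 : g0 / (2 * M ^ 3) - (4 * G1 ^ 2 / g0 + K2 / C) * X ≤
      (g0 / 2 - 2 * G1 ^ 2 / g0 * M ^ 2 * w ^ 2 - K2 * w ^ 2) / M ^ 3 := by
    have e1 : (g0 / 2 - 2 * G1 ^ 2 / g0 * M ^ 2 * w ^ 2 - K2 * w ^ 2) / M ^ 3 =
        g0 / (2 * M ^ 3) - (2 * G1 ^ 2 / g0 * (w ^ 2 / M)) - K2 * (w ^ 2 / M) / M ^ 2 := by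
      field_simp
    rw [e1]
    have e2 : w ^ 2 / M ≤ 2 * X := by
      rw [div_le_iff₀ hM]
      linarith
    have e3 : 2 * G1 ^ 2 / g0 * (w ^ 2 / M) ≤ 2 * G1 ^ 2 / g0 * (2 * X) :=
      mul_le_mul_of_nonneg_left e2 (by positivity)
    have e4 : K2 * (w ^ 2 / M) / M ^ 2 ≤ K2 / C * X := by
      rw [div_mul_eq_mul_div, div_le_div_iff₀ (by positivity) hC]
      have e5 : K2 * (w ^ 2 / M) * C ≤ K2 * (2 * X) * C := by
        apply mul_le_mul_of_nonneg_right _ hC.le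
        exact mul_le_mul_of_nonneg_left e2 hK2
      have e6 : K2 * X * (2 * C) ≤ K2 * X * M ^ 2 := by
        apply mul_le_mul_of_nonneg_left _ (by positivity)
        linarith
      linarith
    have e7 : (4 * G1 ^ 2 / g0 + K2 / C) * X = 2 * G1 ^ 2 / g0 * (2 * X) + K2 / C * X := by ring
    rw [e7]
    linarith
  linarith
where
  le_of_sq_le_sq' {a b : ℝ} (h : a ^ 2 ≤ b ^ 2) (hb : 0 ≤ b) : a ≤ b := abs_le_of_sq_le_sq' h hb |>.2

/-- second algebraic step -/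
lemma alg2 (n M V w e C g0 C' η X Y : ℝ) (hn : 0 < n) (hM : 0 < M)
    (hM2 : M ^ 2 = n ^ 2 + V ^ 2) (hM3 : M ^ 2 = 2 * e + 2 * C) (he : 0 ≤ e) (hC : 0 < C)
    (hg : 0 < g0) (hη : 0 < η)
    (hX : X = e * n / M ^ 2 + 1 / 2 * w ^ 2 / n)
    (hY : g0 / (2 * M ^ 3) - C' * X ≤ Y) :
    w ≤ (2 + 2 * Real.sqrt C / η + η * (8 * Real.sqrt C ^ 3 / g0) * C') * X +
      η * (8 * Real.sqrt C ^ 3 / g0) * Y := by
  set sC := Real.sqrt C with hsC
  have hsC0 : 0 < sC := Real.sqrt_pos.2 hC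
  have hsC2 : sC ^ 2 = C := Real.sq_sqrt hC.le
  have hX0 : 0 ≤ X := by rw [hX]; positivity
  have hnM : n ≤ M := by
    have : n ^ 2 ≤ M ^ 2 := by nlinarith [sq_nonneg V]
    exact (abs_le_of_sq_le_sq' this hM.le).2
  have hB : 0 < 8 * sC ^ 3 / g0 := by positivity
  have hYX : 0 ≤ Y + C' * X := by
    have : 0 < g0 / (2 * M ^ 3) := by positivity
    linarith
  have hrw : (2 + 2 * sC / η + η * (8 * sC ^ 3 / g0) * C') * X +
      η * (8 * sC ^ 3 / g0) * Y = 2 * X + 2 * sC / η * X + η * (8 * sC ^ 3 / g0) * (Y + C' * X) := by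
    ring
  rw [hrw]
  rcases le_or_gt C e with hce | hce
  · -- large energy regime
    have h1 : w ≤ 2 * X := by
      rw [hX]
      have h2 : 1 / 4 * n ≤ e * n / M ^ 2 := by
        rw [le_div_iff₀ (by positivity)]
        have : M ^ 2 ≤ 4 * e := by linarith
        nlinarith
      have h3 : w ≤ 1 / 2 * n + 1 / 2 * w ^ 2 / n * 2 := by
        have h4 : 0 ≤ (n - w) ^ 2 / n := by positivity
        have h5 : (n - w) ^ 2 / n = n - 2 * w + w ^ 2 / n := by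
          field_simp
          ring
        have h6 : 1 / 2 * w ^ 2 / n * 2 = w ^ 2 / n := by ring
        rw [h6]
        have h7 : 0 ≤ w ^ 2 / n := by positivity
        nlinarith
      linarith
    have h2 : 0 ≤ 2 * sC / η * X := by positivity
    have h3 : 0 ≤ η * (8 * sC ^ 3 / g0) * (Y + C' * X) := by positivity
    linarith
  · -- small energy regime
    have hM4 : M ≤ 2 * sC := by
      have : M ^ 2 ≤ (2 * sC) ^ 2 := by nlinarith
      exact (abs_le_of_sq_le_sq' this (by positivity)).2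
    have h1 : w ^ 2 ≤ 2 * M * X := by
      have e1 : w ^ 2 = 2 * n * (1 / 2 * w ^ 2 / n) := by field_simp
      have e2 : 1 / 2 * w ^ 2 / n ≤ X := by
        rw [hX]
        have : 0 ≤ e * n / M ^ 2 := by positivity
        linarith
      have e3 : 0 ≤ 1 / 2 * w ^ 2 / n := by positivity
      calc w ^ 2 = 2 * n * (1 / 2 * w ^ 2 / n) := e1
        _ ≤ 2 * M * (1 / 2 * w ^ 2 / n) := by
            apply mul_le_mul_of_nonneg_right _ e3
            linarith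
        _ ≤ 2 * M * X := by
            apply mul_le_mul_of_nonneg_left e2 (by positivity)
    have h2 : w ^ 2 ≤ 4 * sC * X := by
      have : 2 * M * X ≤ 2 * (2 * sC) * X := by
        apply mul_le_mul_of_nonneg_right _ hX0
        linarith
      linarith
    have h3 : w ≤ 1 / 2 * η + w ^ 2 / (2 * η) := by
      have h4 : 0 ≤ (η - w) ^ 2 / (2 * η) := by positivity
      have h5 : (η - w) ^ 2 / (2 * η) = 1 / 2 * η - w + w ^ 2 / (2 * η) := by
        field_simp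
        ring
      linarith
    have h4 : w ^ 2 / (2 * η) ≤ 2 * sC / η * X := by
      rw [div_le_iff₀ (by positivity)]
      have : 2 * sC / η * X * (2 * η) = 4 * sC * X := by field_simp; ring
      linarith
    have h5 : 1 / 2 * η ≤ η * (8 * sC ^ 3 / g0) * (Y + C' * X) := by
      have h6 : g0 / (2 * M ^ 3) ≤ Y + C' * X := by linarith
      have h7 : g0 / (2 * (2 * sC) ^ 3) ≤ g0 / (2 * M ^ 3) := by
        apply div_le_div_of_nonneg_left hg.le (by positivity)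
        apply mul_le_mul_of_nonneg_left _ (by norm_num)
        exact pow_le_pow_left₀ hM.le hM4 3
      have h8 : 1 / 2 * η = η * (8 * sC ^ 3 / g0) * (g0 / (2 * (2 * sC) ^ 3)) := by
        field_simp
        norm_num
      rw [h8]
      exact mul_le_mul_of_nonneg_left (h7.trans h6) (by positivity)
    have h6 : 0 ≤ 2 * X := by positivity
    linarith

namespace Traj

variable {m₁ m₂ m₃ : ℝ} (S : Traj m₁ m₂ m₃)

/-- A time at which the cost estimate applies. -/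
structure Tame (C2 g0 G1 K2 t : ℝ) : Prop where
  f_le : S.f t ≤ C2
  hh_ge : g0 ≤ S.hh t
  W_le : |S.W t| ≤ G1 * (S.s t * Real.sqrt (S.A t))
  Hu_ge : -(K2 * (S.s t * Real.sqrt (S.A t)) ^ 2) ≤ S.s t ^ 8 * S.Hu t

lemma U_nonneg (t : ℝ) : 0 ≤ S.U t := by
  have h1 := S.p1
  have h2 := S.p2
  have h3 := S.p3
  unfold U
  positivity

lemma sum_eq (t : ℝ) : S.V t ^ 2 + (S.s t * Real.sqrt (S.A t)) ^ 2 =
    2 * S.E * S.s t ^ 2 + 2 * S.f t := by
  have hs := (S.s_pos t).ne'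
  rw [mul_pow, Real.sq_sqrt (S.A_nonneg t)]
  have h1 := S.T_eq t
  have h2 := S.energy t
  unfold f
  rw [h2] at h1
  field_simp at h1
  linarith

lemma N_pos (C t : ℝ) (h : S.f t < C) : 0 < S.N C t := by
  have h1 := S.sum_eq t
  unfold N
  nlinarith [sq_nonneg (S.s t * Real.sqrt (S.A t))]

lemma cost_pointwise (C C2 g0 G1 K2 η t : ℝ) (hE : 0 < S.E) (hC : 0 < C) (hC2 : C2 < C)
    (hg : 0 < g0) (hG1 : 0 ≤ G1) (hK2 : 0 ≤ K2) (hη : 0 < η) (ht : S.Tame C2 g0 G1 K2 t) :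
    Real.sqrt (S.A t) / S.s t ^ 2 ≤
      (2 + 2 * Real.sqrt C / η + η * (8 * Real.sqrt C ^ 3 / g0) * (4 * G1 ^ 2 / g0 + K2 / C)) *
        S.phid C t + η * (8 * Real.sqrt C ^ 3 / g0) * S.Zd C t := by
  have hs := S.s_pos t
  have hN := S.N_pos C t (ht.f_le.trans_lt hC2)
  set n := Real.sqrt (S.N C t) with hn
  have hnpos : 0 < n := Real.sqrt_pos.2 hN
  have hn2 : n ^ 2 = S.N C t := Real.sq_sqrt hN.le
  have hM0 : 0 < 2 * S.E * S.s t ^ 2 + 2 * C := by positivity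
  have hM : 0 < S.M C t := Real.sqrt_pos.2 hM0
  have hM2 : S.M C t ^ 2 = 2 * (S.E * S.s t ^ 2) + 2 * C := by
    unfold M
    rw [Real.sq_sqrt hM0.le]
    ring
  have hM3 : S.M C t ^ 2 = n ^ 2 + S.V t ^ 2 := by
    rw [hn2, hM2, N_add]
    ring
  set w := S.s t * Real.sqrt (S.A t) with hw
  have hw0 : 0 ≤ w := by positivity
  have hw2 : w ^ 2 = S.s t ^ 2 * S.A t := by
    rw [hw, mul_pow, Real.sq_sqrt (S.A_nonneg t)]
  have h1 := alg1 n (S.M C t) (S.V t) w (S.E * S.s t ^ 2) C g0 G1 K2 (S.hh t) (S.W t)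
    (S.s t ^ 4 * S.U t * S.A t) (S.s t ^ 8 * S.Hu t) hnpos hM hM3 hM2 (by positivity) hC hg hG1
    hK2 ht.hh_ge ht.W_le hw0 (by
      have := S.U_nonneg t
      have := S.A_nonneg t
      positivity) ht.Hu_ge
  have h2 := alg2 n (S.M C t) (S.V t) w (S.E * S.s t ^ 2) C g0 (4 * G1 ^ 2 / g0 + K2 / C) η _ _
    hnpos hM hM3 hM2 (by positivity) hC hg hη rfl h1
  have e1 : Real.sqrt (S.A t) / S.s t ^ 2 = w / S.s t ^ 3 := by
    rw [hw]; field_simp
  have e2 : S.phid C t = (S.E * S.s t ^ 2 * n / S.M C t ^ 2 + 1 / 2 * w ^ 2 / n) / S.s t ^ 3 := by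
    unfold phid
    rw [← hn, hM3, hn2, hw2]
  have e3 : S.Zd C t = ((S.hh t + S.s t ^ 4 * S.U t * S.A t - 1 / 2 * S.V t * S.W t +
      S.s t ^ 8 * S.Hu t) / S.M C t ^ 3 - 3 * S.W t * (S.E * S.s t ^ 2) * S.V t / S.M C t ^ 5) /
      S.s t ^ 3 := by
    unfold Zd Wd
    field_simp
  rw [e1, e2, e3]
  refine (div_le_div_of_nonneg_right h2 (show 0 ≤ S.s t ^ 3 by positivity)).trans (le_of_eq ?_)
  ring

lemma phid_nonneg (C t : ℝ) (hE : 0 < S.E) (hN : 0 < S.N C t) : 0 ≤ S.phid C t := by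
  have hs := S.s_pos t
  have hA := S.A_nonneg t
  have hn : 0 < Real.sqrt (S.N C t) := Real.sqrt_pos.2 hN
  unfold phid
  positivity

end Traj

end Pool.Agent.Work.MP_877ce7_an
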