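import Mathlib
import Pool.Agent.Work.MP_877ce7_an.B4

set_option autoImplicit false

open Filter Topology

namespace Pool.Agent.Work.MP_877ce7_an

lemma le_of_deriv {f f' : ℝ → ℝ} {a b : ℝ} (hab : a ≤ b)
    (hf : ∀ t ∈ Set.Icc a b, HasDerivAt f (f' t) t) (h0 : ∀ t ∈ Set.Icc a b, 0 ≤ f' t) :
    f a ≤ f b := by
  have h := monotoneOn_of_deriv_nonneg (convex_Icc a b) (f := f)
    (fun t ht => (hf t ht).continuousAt.continuousWithinAt)
    (fun t ht => (hf t (interior_subset ht)).differentiableAt.differentiableWithinAt)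
    (fun t ht => by rw [(hf t (interior_subset ht)).deriv]; exact h0 t (interior_subset ht))
  exact h (Set.left_mem_Icc.2 hab) (Set.right_mem_Icc.2 hab) hab

namespace Traj

variable {m₁ m₂ m₃ : ℝ} (S : Traj m₁ m₂ m₃)

lemma Z_le (C C2 g0 G1 K2 t : ℝ) (hE : 0 < S.E) (hC : 0 < C) (hC2 : C2 < C)
    (hG1 : 0 ≤ G1) (ht : S.Tame C2 g0 G1 K2 t) : |S.Z C t| ≤ G1 / (2 * C) := by
  have hs := S.s_pos t
  have hM0 : 0 < 2 * S.E * S.s t ^ 2 + 2 * C := by positivity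
  have hM : 0 < S.M C t := Real.sqrt_pos.2 hM0
  have hM2 : S.M C t ^ 2 = 2 * (S.E * S.s t ^ 2) + 2 * C := by
    unfold M
    rw [Real.sq_sqrt hM0.le]
    ring
  set w := S.s t * Real.sqrt (S.A t) with hw
  have hw0 : 0 ≤ w := by positivity
  have hwM : w ≤ S.M C t := by
    have h1 := S.sum_eq t
    rw [← hw] at h1
    have h2 := ht.f_le
    have h3 : w ^ 2 ≤ S.M C t ^ 2 := by nlinarith [sq_nonneg (S.V t)]
    exact (abs_le_of_sq_le_sq' h3 hM.le).2
  unfold Z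
  rw [abs_div, abs_of_pos (show 0 < S.M C t ^ 3 by positivity)]
  rw [div_le_div_iff₀ (by positivity) (by positivity)]
  have h1 := ht.W_le
  calc |S.W t| * (2 * C) ≤ (G1 * S.M C t) * (S.M C t ^ 2) := by
        apply mul_le_mul
        · exact h1.trans (mul_le_mul_of_nonneg_left hwM hG1)
        · rw [hM2]
          have : 0 ≤ S.E * S.s t ^ 2 := by positivity
          linarith
        · positivity
        · positivity
    _ = G1 * S.M C t ^ 3 := by ring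

lemma cost (C C2 g0 G1 K2 η : ℝ) (hE : 0 < S.E) (hC : 0 < C) (hC2 : C2 < C)
    (hg : 0 < g0) (hG1 : 0 ≤ G1) (hK2 : 0 ≤ K2) (hη : 0 < η) {α β : ℝ} (hαβ : α ≤ β)
    (ht : ∀ t ∈ Set.Icc α β, S.Tame C2 g0 G1 K2 t) (F Fd : ℝ → ℝ) (L : ℝ) (hL : 0 < L)
    (hF : ∀ t ∈ Set.Icc α β, HasDerivAt F (Fd t) t)
    (hFd : ∀ t ∈ Set.Icc α β, |Fd t| ≤ L * (Real.sqrt (S.A t) / S.s t ^ 2)) :
    |F β - F α| ≤ L * ((2 + 2 * Real.sqrt C / η +
      η * (8 * Real.sqrt C ^ 3 / g0) * (4 * G1 ^ 2 / g0 + K2 / C)) * (S.phi C β - S.phi C α) +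
        η * (8 * Real.sqrt C ^ 3 / g0) * (G1 / C)) := by
  set Ae := 2 + 2 * Real.sqrt C / η + η * (8 * Real.sqrt C ^ 3 / g0) * (4 * G1 ^ 2 / g0 + K2 / C)
    with hAe
  set B := η * (8 * Real.sqrt C ^ 3 / g0) with hB
  have hBpos : 0 ≤ B := by positivity
  have hPsi : ∀ t ∈ Set.Icc α β, HasDerivAt (fun t => L * (Ae * S.phi C t + B * S.Z C t))
      (L * (Ae * S.phid C t + B * S.Zd C t)) t := by
    intro t htt
    have h1 := S.hasPhi C t (S.N_pos C t ((ht t htt).f_le.trans_lt hC2))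
    have hs := S.s_pos t
    have h2 := S.hasZ C t (by positivity)
    exact ((h1.const_mul Ae).add (h2.const_mul B)).const_mul L
  have hpt : ∀ t ∈ Set.Icc α β, |Fd t| ≤ L * (Ae * S.phid C t + B * S.Zd C t) := by
    intro t htt
    exact (hFd t htt).trans (mul_le_mul_of_nonneg_left
      (S.cost_pointwise C C2 g0 G1 K2 η t hE hC hC2 hg hG1 hK2 hη (ht t htt)) hL.le)
  have h1 := le_of_deriv hαβ (f := fun t => L * (Ae * S.phi C t + B * S.Z C t) - F t)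
    (fun t htt => (hPsi t htt).sub (hF t htt))
    (fun t htt => by have := (abs_le.1 (hpt t htt)).2; linarith)
  have h2 := le_of_deriv hαβ (f := fun t => L * (Ae * S.phi C t + B * S.Z C t) + F t)
    (fun t htt => (hPsi t htt).add (hF t htt))
    (fun t htt => by have := (abs_le.1 (hpt t htt)).1; linarith)
  have hZ : S.Z C β - S.Z C α ≤ G1 / C := by
    have h3 := S.Z_le C C2 g0 G1 K2 α hE hC hC2 hG1 (ht α (Set.left_mem_Icc.2 hαβ))
    have h4 := S.Z_le C C2 g0 G1 K2 β hE hC hC2 hG1 (ht β (Set.right_mem_Icc.2 hαβ))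
    have h5 : G1 / C = G1 / (2 * C) + G1 / (2 * C) := by field_simp; norm_num
    rw [h5]
    linarith [(abs_le.1 h3).1, (abs_le.1 h4).2]
  have h6 : B * (S.Z C β - S.Z C α) ≤ B * (G1 / C) := mul_le_mul_of_nonneg_left hZ hBpos
  have h7 : L * (Ae * (S.phi C β - S.phi C α) + B * (S.Z C β - S.Z C α)) ≤
      L * (Ae * (S.phi C β - S.phi C α) + B * (G1 / C)) :=
    mul_le_mul_of_nonneg_left (by linarith) hL.le
  rw [abs_le]
  constructor
  · linarith
  · linarith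

end Traj

/-- Uniform cost. -/
theorem cost_exists (C C2 g0 G1 K2 L D : ℝ) (hC : 0 < C) (hC2 : C2 < C)
    (hg : 0 < g0) (hG1 : 0 ≤ G1) (hK2 : 0 ≤ K2) (hL : 0 < L) (hD : 0 < D) :
    ∃ ε > 0, ∀ (m₁ m₂ m₃ : ℝ) (S : Traj m₁ m₂ m₃), 0 < S.E → ∀ α β : ℝ, α ≤ β →
      (∀ t ∈ Set.Icc α β, S.Tame C2 g0 G1 K2 t) → ∀ (F Fd : ℝ → ℝ),
      (∀ t ∈ Set.Icc α β, HasDerivAt F (Fd t) t) →
      (∀ t ∈ Set.Icc α β, |Fd t| ≤ L * (Real.sqrt (S.A t) / S.s t ^ 2)) →
      D ≤ |F β - F α| → ε ≤ S.phi C β - S.phi C α := by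
  set B0 := 8 * Real.sqrt C ^ 3 / g0 with hB0
  have hsC : 0 < Real.sqrt C := Real.sqrt_pos.2 hC
  have hB0pos : 0 < B0 := by positivity
  set X := L * (B0 * (G1 / C)) with hX
  have hX0 : 0 ≤ X := by positivity
  set η := D / (2 * X + 1) with hη
  have hηpos : 0 < η := by positivity
  set Ae := 2 + 2 * Real.sqrt C / η + η * B0 * (4 * G1 ^ 2 / g0 + K2 / C) with hAe
  have hAepos : 0 < Ae := by positivity
  refine ⟨D / (2 * L * Ae), by positivity, ?_⟩
  intro m₁ m₂ m₃ S hE α β hαβ ht F Fd hF hFd hDF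
  have h1 := S.cost C C2 g0 G1 K2 η hE hC hC2 hg hG1 hK2 hηpos hαβ ht F Fd L hL hF hFd
  rw [← hB0, ← hAe] at h1
  have h2 : L * (η * B0 * (G1 / C)) ≤ D / 2 := by
    have e : L * (η * B0 * (G1 / C)) = η * X := by rw [hX]; ring
    rw [e, hη, div_mul_eq_mul_div, div_le_div_iff₀ (by positivity) (by norm_num)]
    nlinarith
  have h3 : D / 2 ≤ L * Ae * (S.phi C β - S.phi C α) := by
    have : L * (Ae * (S.phi C β - S.phi C α) + η * B0 * (G1 / C)) =
        L * Ae * (S.phi C β - S.phi C α) + L * (η * B0 * (G1 / C)) := by ring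
    linarith
  rw [div_le_iff₀ (by positivity)]
  linarith

end Pool.Agent.Work.MP_877ce7_an
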