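import Mathlib
import Pool.Agent.Work.MP_877ce7_an.B5

set_option autoImplicit false

open Filter Topology

namespace Pool.Agent.Work.MP_877ce7_an

namespace Traj

variable {m₁ m₂ m₃ : ℝ} (S : Traj m₁ m₂ m₃)

/-- `κ₁² = 1/m₁ + 1/m₂ + 1/m₃` -/
noncomputable def kap (m₁ m₂ m₃ : ℝ) : ℝ := Real.sqrt (1 / m₁ + 1 / m₂ + 1 / m₃)

include S in
lemma kap_sq : kap m₁ m₂ m₃ ^ 2 = 1 / m₁ + 1 / m₂ + 1 / m₃ := by
  have h1 := S.p1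
  have h2 := S.p2
  have h3 := S.p3
  unfold kap
  rw [Real.sq_sqrt (by positivity)]

include S in
lemma kap_pos : 0 < kap m₁ m₂ m₃ := by
  have h1 := S.p1
  have h2 := S.p2
  have h3 := S.p3
  unfold kap
  positivity

/-- a component of a vector is controlled by its mass norm -/
lemma comp_le {x₁ x₂ x₃ : ℂ} {Q : ℝ} (S : Traj m₁ m₂ m₃)
    (h : m₁ * dot x₁ x₁ + m₂ * dot x₂ x₂ + m₃ * dot x₃ x₃ = Q) :
    ‖x₁‖ ≤ kap m₁ m₂ m₃ * Real.sqrt Q ∧ ‖x₂‖ ≤ kap m₁ m₂ m₃ * Real.sqrt Q ∧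
      ‖x₃‖ ≤ kap m₁ m₂ m₃ * Real.sqrt Q := by
  have h1 := S.p1
  have h2 := S.p2
  have h3 := S.p3
  have hk := S.kap_pos
  have hk2 := S.kap_sq
  have a1 := dot_self_nonneg x₁
  have a2 := dot_self_nonneg x₂
  have a3 := dot_self_nonneg x₃
  have hQ : 0 ≤ Q := by rw [← h]; positivity
  have key : ∀ (m : ℝ) (x : ℂ), 0 < m → m * dot x x ≤ Q → 1 / m ≤ kap m₁ m₂ m₃ ^ 2 →
      ‖x‖ ≤ kap m₁ m₂ m₃ * Real.sqrt Q := by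
    intro m x hm hx hkm
    have e1 : ‖x‖ ^ 2 ≤ (kap m₁ m₂ m₃ * Real.sqrt Q) ^ 2 := by
      rw [mul_pow, Real.sq_sqrt hQ, ← dot_self]
      have e2 : dot x x ≤ 1 / m * Q := by
        rw [one_div, inv_mul_eq_div, le_div_iff₀ hm]
        linarith
      exact e2.trans (mul_le_mul_of_nonneg_right hkm hQ)
    exact (abs_le_of_sq_le_sq' e1 (by positivity)).2
  have i1 : 0 < 1 / m₁ := by positivity
  have i2 : 0 < 1 / m₂ := by positivity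
  have i3 : 0 < 1 / m₃ := by positivity
  have b1 : 0 ≤ m₁ * dot x₁ x₁ := by positivity
  have b2 : 0 ≤ m₂ * dot x₂ x₂ := by positivity
  have b3 : 0 ≤ m₃ * dot x₃ x₃ := by positivity
  refine ⟨key m₁ x₁ h1 (by linarith) (by rw [hk2]; linarith),
    key m₂ x₂ h2 (by linarith) (by rw [hk2]; linarith),
    key m₃ x₃ h3 (by linarith) (by rw [hk2]; linarith)⟩

/-- separation of the bodies relative to the size -/
structure Sep (c t : ℝ) : Prop where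
  s21 : c * S.s t ^ 2 ≤ ‖S.q₂ t - S.q₁ t‖
  s32 : c * S.s t ^ 2 ≤ ‖S.q₃ t - S.q₂ t‖
  s13 : c * S.s t ^ 2 ≤ ‖S.q₁ t - S.q₃ t‖

lemma sep_of_f {C2 t : ℝ} (hC2 : 0 < C2) (h : S.f t ≤ C2) :
    S.Sep (min (m₁ * m₂) (min (m₂ * m₃) (m₃ * m₁)) / C2) t := by
  have h1 := S.p1
  have h2 := S.p2
  have h3 := S.p3
  have hs := S.s_pos t
  have r1 := norm_pos_iff.2 (S.d21_ne t)
  have r2 := norm_pos_iff.2 (S.d32_ne t)
  have r3 := norm_pos_iff.2 (S.d13_ne t)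
  unfold f U at h
  have b1 : 0 < m₁ * m₂ * (1 / ‖S.q₂ t - S.q₁ t‖) := by positivity
  have b2 : 0 < m₂ * m₃ * (1 / ‖S.q₃ t - S.q₂ t‖) := by positivity
  have b3 : 0 < m₃ * m₁ * (1 / ‖S.q₁ t - S.q₃ t‖) := by positivity
  have key : ∀ (mm r : ℝ), 0 < r → min (m₁ * m₂) (min (m₂ * m₃) (m₃ * m₁)) ≤ mm →
      S.s t ^ 2 * (mm * (1 / r)) ≤ C2 →
      min (m₁ * m₂) (min (m₂ * m₃) (m₃ * m₁)) / C2 * S.s t ^ 2 ≤ r := by
    intro mm r hr hmm hle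
    rw [div_mul_eq_mul_div, div_le_iff₀ hC2]
    have e1 : S.s t ^ 2 * (mm * (1 / r)) * r ≤ C2 * r := mul_le_mul_of_nonneg_right hle hr.le
    have e2 : S.s t ^ 2 * (mm * (1 / r)) * r = S.s t ^ 2 * mm := by field_simp
    have e3 : min (m₁ * m₂) (min (m₂ * m₃) (m₃ * m₁)) * S.s t ^ 2 ≤ mm * S.s t ^ 2 :=
      mul_le_mul_of_nonneg_right hmm (by positivity)
    linarith
  have hs2 : 0 < S.s t ^ 2 := by positivity
  refine ⟨key _ _ r1 (min_le_left _ _) ?_, key _ _ r2 ((min_le_right _ _).trans (min_le_left _ _)) ?_,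
    key _ _ r3 ((min_le_right _ _).trans (min_le_right _ _)) ?_⟩
  · nlinarith
  · nlinarith
  · nlinarith

lemma hes_ge (d u : ℂ) : -(dot u u / ‖d‖ ^ 3) ≤ hes d u := by
  unfold hes
  have : 0 ≤ 3 * dot d u ^ 2 / ‖d‖ ^ 5 := by positivity
  linarith

lemma hes_sub (d e : ℂ) (l : ℝ) (hd : d ≠ 0) :
    hes d (e - l • d) = hes d e + 2 * l ^ 2 * (1 / ‖d‖) + 4 * l * (-(dot d e) / ‖d‖ ^ 3) := by
  have hr : ‖d‖ ≠ 0 := norm_ne_zero_iff.2 hd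
  unfold hes
  rw [dot_sub_right, dot_smul_right, dot_self d, dot_sub_left, dot_sub_right, dot_sub_right,
    dot_smul_left, dot_smul_right, dot_smul_left, dot_smul_right, dot_self d, dot_comm e d]
  field_simp
  ring

lemma Hu_eq (t : ℝ) : S.Hu t = m₁ * m₂ * hes (S.q₂ t - S.q₁ t) (S.u₂ t - S.u₁ t) +
    m₂ * m₃ * hes (S.q₃ t - S.q₂ t) (S.u₃ t - S.u₂ t) +
    m₃ * m₁ * hes (S.q₁ t - S.q₃ t) (S.u₁ t - S.u₃ t) := by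
  have e1 : S.u₂ t - S.u₁ t = (S.v₂ t - S.v₁ t) - S.lam t • (S.q₂ t - S.q₁ t) := by
    unfold u₂ u₁; rw [smul_sub]; abel
  have e2 : S.u₃ t - S.u₂ t = (S.v₃ t - S.v₂ t) - S.lam t • (S.q₃ t - S.q₂ t) := by
    unfold u₃ u₂; rw [smul_sub]; abel
  have e3 : S.u₁ t - S.u₃ t = (S.v₁ t - S.v₃ t) - S.lam t • (S.q₁ t - S.q₃ t) := by
    unfold u₁ u₃; rw [smul_sub]; abel
  rw [e1, e2, e3, hes_sub _ _ _ (S.d21_ne t), hes_sub _ _ _ (S.d32_ne t),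
    hes_sub _ _ _ (S.d13_ne t)]
  unfold Hu Hq U Ud
  ring

lemma W_eq (t : ℝ) : S.W t = -(S.s t ^ 5 * (
    m₁ * m₂ * (dot (S.q₂ t - S.q₁ t) (S.u₂ t - S.u₁ t) / ‖S.q₂ t - S.q₁ t‖ ^ 3) +
    m₂ * m₃ * (dot (S.q₃ t - S.q₂ t) (S.u₃ t - S.u₂ t) / ‖S.q₃ t - S.q₂ t‖ ^ 3) +
    m₃ * m₁ * (dot (S.q₁ t - S.q₃ t) (S.u₁ t - S.u₃ t) / ‖S.q₁ t - S.q₃ t‖ ^ 3))) := by
  have e1 : S.u₂ t - S.u₁ t = (S.v₂ t - S.v₁ t) - S.lam t • (S.q₂ t - S.q₁ t) := by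
    unfold u₂ u₁; rw [smul_sub]; abel
  have e2 : S.u₃ t - S.u₂ t = (S.v₃ t - S.v₂ t) - S.lam t • (S.q₃ t - S.q₂ t) := by
    unfold u₃ u₂; rw [smul_sub]; abel
  have e3 : S.u₁ t - S.u₃ t = (S.v₁ t - S.v₃ t) - S.lam t • (S.q₁ t - S.q₃ t) := by
    unfold u₁ u₃; rw [smul_sub]; abel
  rw [e1, e2, e3]
  simp only [dot_sub_right (S.v₂ t - S.v₁ t), dot_sub_right (S.v₃ t - S.v₂ t),
    dot_sub_right (S.v₁ t - S.v₃ t), dot_smul_right]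
  have r1 := norm_ne_zero_iff.2 (S.d21_ne t)
  have r2 := norm_ne_zero_iff.2 (S.d32_ne t)
  have r3 := norm_ne_zero_iff.2 (S.d13_ne t)
  have hs := (S.s_pos t).ne'
  have e4 : S.lam t = S.J t / S.s t ^ 4 := by unfold lam; rw [s_pow]
  rw [dot_self, dot_self, dot_self, e4]
  unfold W U Ud
  field_simp
  ring

/-- Bounds valid at all times with a bound on `f = ρ U`. -/
lemma bounds_of_sep {c t : ℝ} (hc : 0 < c) (h : S.Sep c t) :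
    |S.W t| ≤ (2 * kap m₁ m₂ m₃ * (m₁ * m₂ + m₂ * m₃ + m₃ * m₁) / c ^ 2) *
      (S.s t * Real.sqrt (S.A t)) ∧
    -(((2 * kap m₁ m₂ m₃) ^ 2 * (m₁ * m₂ + m₂ * m₃ + m₃ * m₁) / c ^ 3) *
      (S.s t * Real.sqrt (S.A t)) ^ 2) ≤ S.s t ^ 8 * S.Hu t := by
  have h1 := S.p1
  have h2 := S.p2
  have h3 := S.p3
  have hs := S.s_pos t
  have hk := S.kap_pos
  have hA := S.A_nonneg t
  obtain ⟨c1, c2, c3⟩ := S.comp_le (S.A_eq t).symm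
  set sA := Real.sqrt (S.A t) with hsA
  have hsA0 : 0 ≤ sA := Real.sqrt_nonneg _
  have n1 : ‖S.u₂ t - S.u₁ t‖ ≤ 2 * kap m₁ m₂ m₃ * sA := (norm_sub_le _ _).trans (by linarith)
  have n2 : ‖S.u₃ t - S.u₂ t‖ ≤ 2 * kap m₁ m₂ m₃ * sA := (norm_sub_le _ _).trans (by linarith)
  have n3 : ‖S.u₁ t - S.u₃ t‖ ≤ 2 * kap m₁ m₂ m₃ * sA := (norm_sub_le _ _).trans (by linarith)
  have key1 : ∀ (d u : ℂ), d ≠ 0 → c * S.s t ^ 2 ≤ ‖d‖ → ‖u‖ ≤ 2 * kap m₁ m₂ m₃ * sA →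
      |dot d u / ‖d‖ ^ 3| ≤ 2 * kap m₁ m₂ m₃ * sA / (c ^ 2 * S.s t ^ 4) := by
    intro d u hd hcd hu
    have hr := norm_pos_iff.2 hd
    rw [abs_div, abs_of_pos (show 0 < ‖d‖ ^ 3 by positivity), div_le_div_iff₀ (by positivity)
      (by positivity)]
    have e1 : |dot d u| ≤ ‖d‖ * (2 * kap m₁ m₂ m₃ * sA) :=
      (abs_dot_le d u).trans (mul_le_mul_of_nonneg_left hu hr.le)
    have e2 : c ^ 2 * S.s t ^ 4 ≤ ‖d‖ ^ 2 := by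
      have : (c * S.s t ^ 2) ^ 2 ≤ ‖d‖ ^ 2 := pow_le_pow_left₀ (by positivity) hcd 2
      calc c ^ 2 * S.s t ^ 4 = (c * S.s t ^ 2) ^ 2 := by ring
        _ ≤ _ := this
    calc |dot d u| * (c ^ 2 * S.s t ^ 4) ≤ (‖d‖ * (2 * kap m₁ m₂ m₃ * sA)) * ‖d‖ ^ 2 :=
          mul_le_mul e1 e2 (by positivity) (by positivity)
      _ = _ := by ring
  have key2 : ∀ (d u : ℂ), d ≠ 0 → c * S.s t ^ 2 ≤ ‖d‖ → ‖u‖ ≤ 2 * kap m₁ m₂ m₃ * sA →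
      -((2 * kap m₁ m₂ m₃ * sA) ^ 2 / (c ^ 3 * S.s t ^ 6)) ≤ hes d u := by
    intro d u hd hcd hu
    have hr := norm_pos_iff.2 hd
    refine le_trans ?_ (hes_ge d u)
    apply neg_le_neg
    rw [dot_self, div_le_div_iff₀ (by positivity) (by positivity)]
    have e1 : ‖u‖ ^ 2 ≤ (2 * kap m₁ m₂ m₃ * sA) ^ 2 := pow_le_pow_left₀ (norm_nonneg _) hu 2
    have e2 : c ^ 3 * S.s t ^ 6 ≤ ‖d‖ ^ 3 := by
      have : (c * S.s t ^ 2) ^ 3 ≤ ‖d‖ ^ 3 := pow_le_pow_left₀ (by positivity) hcd 3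
      calc c ^ 3 * S.s t ^ 6 = (c * S.s t ^ 2) ^ 3 := by ring
        _ ≤ _ := this
    exact mul_le_mul e1 e2 (by positivity) (by positivity)
  constructor
  · rw [W_eq, abs_neg, abs_mul, abs_of_pos (show 0 < S.s t ^ 5 by positivity)]
    have k1 := key1 _ _ (S.d21_ne t) h.s21 n1
    have k2 := key1 _ _ (S.d32_ne t) h.s32 n2
    have k3 := key1 _ _ (S.d13_ne t) h.s13 n3
    set B := 2 * kap m₁ m₂ m₃ * sA / (c ^ 2 * S.s t ^ 4) with hB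
    set x1 := dot (S.q₂ t - S.q₁ t) (S.u₂ t - S.u₁ t) / ‖S.q₂ t - S.q₁ t‖ ^ 3
    set x2 := dot (S.q₃ t - S.q₂ t) (S.u₃ t - S.u₂ t) / ‖S.q₃ t - S.q₂ t‖ ^ 3
    set x3 := dot (S.q₁ t - S.q₃ t) (S.u₁ t - S.u₃ t) / ‖S.q₁ t - S.q₃ t‖ ^ 3
    have e1 : |m₁ * m₂ * x1 + m₂ * m₃ * x2 + m₃ * m₁ * x3| ≤
        (m₁ * m₂ + m₂ * m₃ + m₃ * m₁) * B := by
      calc |m₁ * m₂ * x1 + m₂ * m₃ * x2 + m₃ * m₁ * x3| ≤
          |m₁ * m₂ * x1| + |m₂ * m₃ * x2| + |m₃ * m₁ * x3| := abs_add_three _ _ _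
        _ = m₁ * m₂ * |x1| + m₂ * m₃ * |x2| + m₃ * m₁ * |x3| := by
            rw [abs_mul (m₁ * m₂) x1, abs_mul (m₂ * m₃) x2, abs_mul (m₃ * m₁) x3,
              abs_of_pos (show 0 < m₁ * m₂ by positivity),
              abs_of_pos (show 0 < m₂ * m₃ by positivity),
              abs_of_pos (show 0 < m₃ * m₁ by positivity)]
        _ ≤ m₁ * m₂ * B + m₂ * m₃ * B + m₃ * m₁ * B := by gcongr
        _ = _ := by ring
    calc S.s t ^ 5 * |m₁ * m₂ * x1 + m₂ * m₃ * x2 + m₃ * m₁ * x3| ≤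
        S.s t ^ 5 * ((m₁ * m₂ + m₂ * m₃ + m₃ * m₁) * B) :=
          mul_le_mul_of_nonneg_left e1 (by positivity)
      _ = _ := by
          rw [hB]
          field_simp
  · rw [Hu_eq]
    have k1 := key2 _ _ (S.d21_ne t) h.s21 n1
    have k2 := key2 _ _ (S.d32_ne t) h.s32 n2
    have k3 := key2 _ _ (S.d13_ne t) h.s13 n3
    set B := (2 * kap m₁ m₂ m₃ * sA) ^ 2 / (c ^ 3 * S.s t ^ 6) with hB
    have e1 : (m₁ * m₂ + m₂ * m₃ + m₃ * m₁) * (-B) ≤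
        m₁ * m₂ * hes (S.q₂ t - S.q₁ t) (S.u₂ t - S.u₁ t) +
        m₂ * m₃ * hes (S.q₃ t - S.q₂ t) (S.u₃ t - S.u₂ t) +
        m₃ * m₁ * hes (S.q₁ t - S.q₃ t) (S.u₁ t - S.u₃ t) := by
      calc (m₁ * m₂ + m₂ * m₃ + m₃ * m₁) * (-B) =
          m₁ * m₂ * (-B) + m₂ * m₃ * (-B) + m₃ * m₁ * (-B) := by ring
        _ ≤ _ := by gcongr
    calc -(((2 * kap m₁ m₂ m₃) ^ 2 * (m₁ * m₂ + m₂ * m₃ + m₃ * m₁) / c ^ 3) *
        (S.s t * sA) ^ 2) = S.s t ^ 8 * ((m₁ * m₂ + m₂ * m₃ + m₃ * m₁) * (-B)) := by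
          rw [hB]
          field_simp
      _ ≤ _ := mul_le_mul_of_nonneg_left e1 (by positivity)

end Traj

end Pool.Agent.Work.MP_877ce7_an
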