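import Mathlib
import Pool.Agent.Work.MP_877ce7_an.B6

set_option autoImplicit false

open Filter Topology

namespace Pool.Agent.Work.MP_877ce7_an

namespace Traj

variable {m₁ m₂ m₃ : ℝ} (S : Traj m₁ m₂ m₃)

lemma rot_I : S.rot.I = S.I := by
  funext t; simp only [I, rot]; ring
lemma rot_J : S.rot.J = S.J := by
  funext t; simp only [J, rot]; ring
lemma rot_T : S.rot.T = S.T := by
  funext t; simp only [T, rot]; ring
lemma rot_U : S.rot.U = S.U := by
  funext t; simp only [U, rot]; ring
lemma rot_Ud : S.rot.Ud = S.Ud := by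
  funext t; simp only [Ud, rot]; ring
lemma rot_a₁ : S.rot.a₁ = S.a₂ := rfl
lemma rot_a₂ : S.rot.a₂ = S.a₃ := rfl
lemma rot_a₃ : S.rot.a₃ = S.a₁ := rfl
lemma rot_G2 : S.rot.G2 = S.G2 := by
  funext t; simp only [G2, rot_a₁, rot_a₂, rot_a₃]; ring
lemma rot_E : S.rot.E = S.E := by
  simp only [E, rot_T, rot_U]
lemma rot_s : S.rot.s = S.s := by
  funext t; simp only [s, rot_I]
lemma rot_lam : S.rot.lam = S.lam := by
  funext t; simp only [lam, rot_I, rot_J]
lemma rot_A : S.rot.A = S.A := by
  funext t; simp only [A, rot_I, rot_J, rot_T]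
lemma rot_V : S.rot.V = S.V := by
  funext t; simp only [V, rot_J, rot_s]
lemma rot_N : S.rot.N = S.N := by
  funext C t; simp only [N, rot_V, rot_s, rot_E]
lemma rot_phi : S.rot.phi = S.phi := by
  funext C t; simp only [phi, rot_V, rot_N]
lemma rot_W : S.rot.W = S.W := by
  funext t; simp only [W, rot_s, rot_J, rot_U, rot_Ud]
lemma rot_f : S.rot.f = S.f := by
  funext t; simp only [f, rot_s, rot_U]
lemma rot_hh : S.rot.hh = S.hh := by
  funext t; simp only [hh, rot_s, rot_U, rot_G2]

lemma rot_rot_rot : S.rot.rot.rot = S := rfl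

lemma rev_I (t : ℝ) : S.rev.I t = S.I (-t) := rfl
lemma rev_s (t : ℝ) : S.rev.s t = S.s (-t) := rfl
lemma rev_T (t : ℝ) : S.rev.T t = S.T (-t) := by
  simp only [T, rev, dot, Complex.neg_re, Complex.neg_im]; ring
lemma rev_U (t : ℝ) : S.rev.U t = S.U (-t) := rfl
lemma rev_E : S.rev.E = S.E := by
  simp only [E, rev_T, rev_U, neg_zero]

/-- `N > 0` between two times at which `N > 0`. -/
lemma N_pos_between (C : ℝ) (hE : 0 < S.E) {x y t : ℝ} (hx : 0 < S.N C x) (hy : 0 < S.N C y)
    (hxt : x ≤ t) (hty : t ≤ y) : 0 < S.N C t := by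
  have hV : Monotone S.V := by
    apply monotone_of_deriv_nonneg (fun t => (S.hasV t).differentiableAt)
    intro t
    rw [(S.hasV t).deriv]
    have := S.s_pos t
    have := S.A_nonneg t
    positivity
  by_contra hcon
  push Not at hcon
  rcases le_or_gt 0 (S.V t) with h | h
  · have h1 := le_of_deriv hty (f := fun t => - S.N C t) (fun τ _ => (S.hasN C τ).neg)
      (fun τ hτ => by
        have h2 : 0 ≤ S.V τ := h.trans (hV hτ.1)
        have := S.s_pos τ
        have := S.A_nonneg τ
        rw [neg_div, neg_neg]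
        positivity)
    linarith
  · have h1 := le_of_deriv hxt (f := fun t => S.N C t) (fun τ _ => (S.hasN C τ))
      (fun τ hτ => by
        have h2 : S.V τ ≤ 0 := (hV hτ.2).trans h.le
        have := S.s_pos τ
        have := S.A_nonneg τ
        have h3 : 0 ≤ -(S.V τ * S.A τ) := by nlinarith
        positivity)
    linarith

lemma phi_mono (C : ℝ) (hE : 0 < S.E) {x y : ℝ} (hx : S.f x < C) (hy : S.f y < C)
    (hxy : x ≤ y) : S.phi C x ≤ S.phi C y := by
  have hx' := S.N_pos C x hx
  have hy' := S.N_pos C y hy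
  refine le_of_deriv hxy (fun t ht => S.hasPhi C t (S.N_pos_between C hE hx' hy' ht.1 ht.2))
    (fun t ht => S.phid_nonneg C t hE (S.N_pos_between C hE hx' hy' ht.1 ht.2))

lemma phi_lt (C x y : ℝ) : S.phi C y - S.phi C x < Real.pi := by
  have h1 := Real.arctan_lt_pi_div_two (S.V y / Real.sqrt (S.N C y))
  have h2 := Real.neg_pi_div_two_lt_arctan (S.V x / Real.sqrt (S.N C x))
  unfold phi
  linarith

end Traj

end Pool.Agent.Work.MP_877ce7_an
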