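import Mathlib
import Pool.Agent.Work.MP_877ce7_an.B7

set_option autoImplicit false

open Filter Topology

namespace Pool.Agent.Work.MP_877ce7_an

namespace Traj

variable {m₁ m₂ m₃ : ℝ} (S : Traj m₁ m₂ m₃)

lemma sum_dot_qa (t : ℝ) : m₁ * dot (S.q₁ t) (S.a₁ t) + m₂ * dot (S.q₂ t) (S.a₂ t) +
    m₃ * dot (S.q₃ t) (S.a₃ t) = -S.U t := by
  unfold U a₁ a₂ a₃
  rw [inv_eq _ (S.d21_ne t), inv_eq _ (S.d32_ne t), inv_eq _ (S.d13_ne t),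
    norm_sub_rev (S.q₃ t) (S.q₁ t), norm_sub_rev (S.q₁ t) (S.q₂ t), norm_sub_rev (S.q₂ t) (S.q₃ t)]
  simp only [dot_add_right, dot_smul_right, dot_sub_right, dot_sub_left, div_eq_mul_inv, one_mul]
  rw [dot_comm (S.q₂ t) (S.q₁ t), dot_comm (S.q₃ t) (S.q₁ t), dot_comm (S.q₃ t) (S.q₂ t)]
  ring

noncomputable def z₁ (t : ℝ) : ℂ := S.a₁ t + (S.U t / S.s t ^ 4) • S.q₁ t
noncomputable def z₂ (t : ℝ) : ℂ := S.a₂ t + (S.U t / S.s t ^ 4) • S.q₂ t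
noncomputable def z₃ (t : ℝ) : ℂ := S.a₃ t + (S.U t / S.s t ^ 4) • S.q₃ t

lemma hh_eq (t : ℝ) : S.hh t = S.s t ^ 8 * (m₁ * dot (S.z₁ t) (S.z₁ t) +
    m₂ * dot (S.z₂ t) (S.z₂ t) + m₃ * dot (S.z₃ t) (S.z₃ t)) := by
  have h1 := S.sum_dot_qa t
  have hs := (S.s_pos t).ne'
  have h2 : S.I t = S.s t ^ 4 := (S.s_pow t).symm
  have e : m₁ * dot (S.z₁ t) (S.z₁ t) +
    m₂ * dot (S.z₂ t) (S.z₂ t) + m₃ * dot (S.z₃ t) (S.z₃ t) = S.G2 t +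
      2 * (S.U t / S.s t ^ 4) * (m₁ * dot (S.q₁ t) (S.a₁ t) + m₂ * dot (S.q₂ t) (S.a₂ t) +
    m₃ * dot (S.q₃ t) (S.a₃ t)) + (S.U t / S.s t ^ 4) ^ 2 * S.I t := by
    unfold z₁ z₂ z₃ G2 I
    simp only [dot_add_left, dot_add_right, dot_smul_left, dot_smul_right]
    rw [dot_comm (S.a₁ t) (S.q₁ t), dot_comm (S.a₂ t) (S.q₂ t), dot_comm (S.a₃ t) (S.q₃ t)]
    ring
  rw [e, h1, h2]
  unfold hh
  field_simp
  ring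

/-- center of mass relation in components -/
lemma com_re (t : ℝ) : m₁ * (S.q₁ t).re + m₂ * (S.q₂ t).re + m₃ * (S.q₃ t).re = 0 := by
  have := congrArg Complex.re (S.sol.com t)
  simpa using this
lemma com_im (t : ℝ) : m₁ * (S.q₁ t).im + m₂ * (S.q₂ t).im + m₃ * (S.q₃ t).im = 0 := by
  have := congrArg Complex.im (S.sol.com t)
  simpa using this

lemma q1_eq (t : ℝ) : (m₁ + m₂ + m₃) • S.q₁ t =
    -(m₂ • (S.q₂ t - S.q₁ t) + m₃ • (S.q₃ t - S.q₁ t)) := by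
  have h1 := S.com_re t
  have h2 := S.com_im t
  apply Complex.ext
  · simp only [Complex.real_smul, Complex.mul_re, Complex.ofReal_re, Complex.ofReal_im,
      Complex.neg_re, Complex.add_re, Complex.sub_re, Complex.sub_im]
    linear_combination h1
  · simp only [Complex.real_smul, Complex.mul_im, Complex.ofReal_re, Complex.ofReal_im,
      Complex.neg_im, Complex.add_im, Complex.sub_re, Complex.sub_im]
    linear_combination h2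

/-- Lagrange identity -/
lemma lagrange (t : ℝ) : (m₁ + m₂ + m₃) * S.I t =
    m₁ * m₂ * ‖S.q₂ t - S.q₁ t‖ ^ 2 + m₂ * m₃ * ‖S.q₃ t - S.q₂ t‖ ^ 2 +
      m₃ * m₁ * ‖S.q₁ t - S.q₃ t‖ ^ 2 := by
  have h1 := S.com_re t
  have h2 := S.com_im t
  rw [← dot_self, ← dot_self, ← dot_self]
  unfold I dot
  simp only [Complex.sub_re, Complex.sub_im]
  linear_combination (m₁ * (S.q₁ t).re + m₂ * (S.q₂ t).re + m₃ * (S.q₃ t).re) * h1 +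
    (m₁ * (S.q₁ t).im + m₂ * (S.q₂ t).im + m₃ * (S.q₃ t).im) * h2

/-- the area -/
noncomputable def X (t : ℝ) : ℝ := crs (S.q₂ t - S.q₁ t) (S.q₃ t - S.q₁ t)
/-- the cosine at the first vertex -/
noncomputable def D (t : ℝ) : ℝ := dot (S.q₂ t - S.q₁ t) (S.q₃ t - S.q₁ t)

lemma rot_X : S.rot.X = S.X := by
  funext t
  simp only [X, rot, crs, Complex.sub_re, Complex.sub_im]
  ring

noncomputable def k₃ (t : ℝ) : ℝ := 1 / ‖S.q₂ t - S.q₁ t‖ ^ 3 - S.U t / S.s t ^ 4 / (m₁ + m₂ + m₃)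
noncomputable def k₁ (t : ℝ) : ℝ := 1 / ‖S.q₃ t - S.q₂ t‖ ^ 3 - S.U t / S.s t ^ 4 / (m₁ + m₂ + m₃)
noncomputable def k₂ (t : ℝ) : ℝ := 1 / ‖S.q₁ t - S.q₃ t‖ ^ 3 - S.U t / S.s t ^ 4 / (m₁ + m₂ + m₃)

lemma z1_eq (t : ℝ) : S.z₁ t = (m₂ * S.k₃ t) • (S.q₂ t - S.q₁ t) +
    (m₃ * S.k₂ t) • (S.q₃ t - S.q₁ t) := by
  have hM : m₁ + m₂ + m₃ ≠ 0 := by
    have := S.p1
    have := S.p2
    have := S.p3
    positivity
  have h := S.q1_eq t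
  have h' : S.q₁ t = (1 / (m₁ + m₂ + m₃)) • -(m₂ • (S.q₂ t - S.q₁ t) + m₃ • (S.q₃ t - S.q₁ t)) := by
    rw [← h, smul_smul, one_div, inv_mul_cancel₀ hM, one_smul]
  have e1 : S.z₁ t = S.a₁ t + (S.U t / S.s t ^ 4) • ((1 / (m₁ + m₂ + m₃)) •
      -(m₂ • (S.q₂ t - S.q₁ t) + m₃ • (S.q₃ t - S.q₁ t))) := by
    rw [← h']; rfl
  rw [e1]
  unfold a₁ k₃ k₂
  rw [norm_sub_rev (S.q₃ t) (S.q₁ t)]
  generalize S.q₂ t - S.q₁ t = x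
  generalize S.q₃ t - S.q₁ t = y
  generalize ‖S.q₁ t - S.q₃ t‖ = r
  generalize ‖x‖ = r'
  simp only [smul_neg, smul_add, smul_smul, mul_sub, sub_smul]
  have e2 : S.U t / S.s t ^ 4 * (1 / (m₁ + m₂ + m₃) * m₂) =
    m₂ * (S.U t / S.s t ^ 4 / (m₁ + m₂ + m₃)) := by ring
  have e3 : S.U t / S.s t ^ 4 * (1 / (m₁ + m₂ + m₃) * m₃) =
    m₃ * (S.U t / S.s t ^ 4 / (m₁ + m₂ + m₃)) := by ring
  rw [e2, e3, mul_one_div, mul_one_div]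
  abel

lemma crs_z1_31 (t : ℝ) : crs (S.z₁ t) (S.q₃ t - S.q₁ t) = m₂ * S.k₃ t * S.X t := by
  rw [z1_eq, crs_add_left, crs_smul_left, crs_smul_left, crs_self]
  unfold X
  ring

lemma crs_z1_21 (t : ℝ) : crs (S.z₁ t) (S.q₂ t - S.q₁ t) = -(m₃ * S.k₂ t * S.X t) := by
  rw [z1_eq, crs_add_left, crs_smul_left, crs_smul_left, crs_self]
  unfold X crs
  ring

lemma crs_z2_21 (t : ℝ) : crs (S.z₂ t) (S.q₁ t - S.q₂ t) = m₃ * S.k₁ t * S.X t := by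
  have h := S.rot.crs_z1_31 t
  have e1 : S.rot.z₁ t = S.z₂ t := by
    unfold z₁ z₂
    rw [rot_s, rot_U]
    rfl
  have e2 : S.rot.k₃ t = S.k₁ t := by
    unfold k₃ k₁
    rw [rot_s, rot_U, show m₂ + m₃ + m₁ = m₁ + m₂ + m₃ by ring]
    rfl
  rw [e1, e2, rot_X] at h
  exact h

lemma r_le (t : ℝ) : ‖S.q₂ t - S.q₁ t‖ ≤ 2 * kap m₁ m₂ m₃ * S.s t ^ 2 ∧
    ‖S.q₃ t - S.q₂ t‖ ≤ 2 * kap m₁ m₂ m₃ * S.s t ^ 2 ∧
    ‖S.q₁ t - S.q₃ t‖ ≤ 2 * kap m₁ m₂ m₃ * S.s t ^ 2 := by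
  obtain ⟨c1, c2, c3⟩ := comp_le S (show m₁ * dot (S.q₁ t) (S.q₁ t) +
    m₂ * dot (S.q₂ t) (S.q₂ t) + m₃ * dot (S.q₃ t) (S.q₃ t) = S.I t from rfl)
  rw [← s_sq] at c1 c2 c3
  exact ⟨(norm_sub_le _ _).trans (by linarith), (norm_sub_le _ _).trans (by linarith),
    (norm_sub_le _ _).trans (by linarith)⟩

lemma r32_sq (t : ℝ) : ‖S.q₃ t - S.q₂ t‖ ^ 2 = ‖S.q₂ t - S.q₁ t‖ ^ 2 + ‖S.q₁ t - S.q₃ t‖ ^ 2 -
    2 * S.D t := by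
  rw [← dot_self, ← dot_self, ← dot_self]
  unfold D dot
  simp only [Complex.sub_re, Complex.sub_im]
  ring

/-- distance from central configurations in the obtuse band -/
lemma hh_obtuse {c t : ℝ} (hc : 0 < c) (hD : S.D t ≤ 0) (hX : 1 / 2 * c ^ 2 * S.s t ^ 4 ≤ |S.X t|) :
    min m₁ (min m₂ m₃) ^ 3 * (c ^ 2 / (128 * kap m₁ m₂ m₃ ^ 4)) ^ 2 ≤ S.hh t := by
  have h1 := S.p1
  have h2 := S.p2
  have h3 := S.p3
  have hs := S.s_pos t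
  have hk := S.kap_pos
  obtain ⟨b1, b2, b3⟩ := S.r_le t
  have r1 := norm_pos_iff.2 (S.d21_ne t)
  have r2 := norm_pos_iff.2 (S.d32_ne t)
  have r3 := norm_pos_iff.2 (S.d13_ne t)
  set mm := min m₁ (min m₂ m₃) with hmm
  have hm0 : 0 < mm := lt_min h1 (lt_min h2 h3)
  have hm1 : mm ≤ m₁ := min_le_left _ _
  have hm2 : mm ≤ m₂ := (min_le_right _ _).trans (min_le_left _ _)
  have hm3 : mm ≤ m₃ := (min_le_right _ _).trans (min_le_right _ _)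
  set B := 2 * kap m₁ m₂ m₃ * S.s t ^ 2 with hB
  have hB0 : 0 < B := by positivity
  have key : ∀ (mi mj k : ℝ) (Z d : ℂ), mm ≤ mi → mm ≤ mj → 1 / (4 * B ^ 3) ≤ |k| →
      |crs Z d| = mj * |k| * |S.X t| → ‖d‖ ≤ B →
      mm ^ 3 * (c ^ 2 / (128 * kap m₁ m₂ m₃ ^ 4)) ^ 2 ≤ S.s t ^ 8 * (mi * dot Z Z) := by
    intro mi mj k Z d hmi hmj hk' hcr hd
    have hmi0 : 0 < mi := hm0.trans_le hmi
    have hmj0 : 0 < mj := hm0.trans_le hmj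
    have e1 : mm * (1 / (4 * B ^ 3)) * (1 / 2 * c ^ 2 * S.s t ^ 4) ≤ ‖Z‖ * B := by
      calc mm * (1 / (4 * B ^ 3)) * (1 / 2 * c ^ 2 * S.s t ^ 4) ≤ mj * |k| * |S.X t| := by
            gcongr
        _ = |crs Z d| := hcr.symm
        _ ≤ ‖Z‖ * ‖d‖ := abs_crs_le _ _
        _ ≤ ‖Z‖ * B := by gcongr
    have e2 : mm * (c ^ 2 / (128 * kap m₁ m₂ m₃ ^ 4)) ≤ S.s t ^ 4 * ‖Z‖ := by
      have e3 : mm * (1 / (4 * B ^ 3)) * (1 / 2 * c ^ 2 * S.s t ^ 4) / B ≤ ‖Z‖ := by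
        rw [div_le_iff₀ hB0]; exact e1
      have e4 : mm * (c ^ 2 / (128 * kap m₁ m₂ m₃ ^ 4)) = S.s t ^ 4 *
          (mm * (1 / (4 * B ^ 3)) * (1 / 2 * c ^ 2 * S.s t ^ 4) / B) := by
        rw [hB]
        field_simp
        norm_num
      rw [e4]
      exact mul_le_mul_of_nonneg_left e3 (by positivity)
    rw [dot_self]
    calc mm ^ 3 * (c ^ 2 / (128 * kap m₁ m₂ m₃ ^ 4)) ^ 2 =
          mm * (mm * (c ^ 2 / (128 * kap m₁ m₂ m₃ ^ 4))) ^ 2 := by ring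
      _ ≤ mi * (S.s t ^ 4 * ‖Z‖) ^ 2 := by gcongr
      _ = _ := by ring
  have hcube : ∀ r : ℝ, 0 < r → r ≤ B → ‖S.q₃ t - S.q₂ t‖ ^ 2 ≥ 2 * r ^ 2 →
      1 / (2 * B ^ 3) ≤ 1 / r ^ 3 - 1 / ‖S.q₃ t - S.q₂ t‖ ^ 3 := by
    intro r hr hrB hr2
    have e1 : r ≤ ‖S.q₃ t - S.q₂ t‖ := by
      have : r ^ 2 ≤ ‖S.q₃ t - S.q₂ t‖ ^ 2 := by nlinarith
      exact (abs_le_of_sq_le_sq' this r2.le).2
    have e2 : 2 * r ^ 3 ≤ ‖S.q₃ t - S.q₂ t‖ ^ 3 := by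
      calc 2 * r ^ 3 = (2 * r ^ 2) * r := by ring
        _ ≤ ‖S.q₃ t - S.q₂ t‖ ^ 2 * ‖S.q₃ t - S.q₂ t‖ := by gcongr
        _ = _ := by ring
    have e3 : 1 / ‖S.q₃ t - S.q₂ t‖ ^ 3 ≤ 1 / (2 * r ^ 3) :=
      one_div_le_one_div_of_le (by positivity) e2
    have e4 : 1 / (2 * B ^ 3) ≤ 1 / (2 * r ^ 3) := by
      apply one_div_le_one_div_of_le (by positivity)
      have := pow_le_pow_left₀ hr.le hrB 3
      linarith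
    have e5 : 1 / r ^ 3 = 1 / (2 * r ^ 3) + 1 / (2 * r ^ 3) := by field_simp; norm_num
    linarith
  have a1 := dot_self_nonneg (S.z₁ t)
  have a2 := dot_self_nonneg (S.z₂ t)
  have a3 := dot_self_nonneg (S.z₃ t)
  rw [hh_eq]
  have fin1 : S.s t ^ 8 * (m₁ * dot (S.z₁ t) (S.z₁ t)) ≤ S.s t ^ 8 * (m₁ * dot (S.z₁ t) (S.z₁ t) +
    m₂ * dot (S.z₂ t) (S.z₂ t) + m₃ * dot (S.z₃ t) (S.z₃ t)) := by
    apply mul_le_mul_of_nonneg_left _ (by positivity)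
    have : 0 ≤ m₂ * dot (S.z₂ t) (S.z₂ t) := by positivity
    have : 0 ≤ m₃ * dot (S.z₃ t) (S.z₃ t) := by positivity
    linarith
  have fin2 : S.s t ^ 8 * (m₂ * dot (S.z₂ t) (S.z₂ t)) ≤ S.s t ^ 8 * (m₁ * dot (S.z₁ t) (S.z₁ t) +
    m₂ * dot (S.z₂ t) (S.z₂ t) + m₃ * dot (S.z₃ t) (S.z₃ t)) := by
    apply mul_le_mul_of_nonneg_left _ (by positivity)
    have : 0 ≤ m₁ * dot (S.z₁ t) (S.z₁ t) := by positivity
    have : 0 ≤ m₃ * dot (S.z₃ t) (S.z₃ t) := by positivity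
    linarith
  have hsq := S.r32_sq t
  have habs2 : |S.k₁ t| ≥ 1 / (4 * B ^ 3) → min m₁ (min m₂ m₃) ^ 3 *
      (c ^ 2 / (128 * kap m₁ m₂ m₃ ^ 4)) ^ 2 ≤ S.s t ^ 8 * (m₁ * dot (S.z₁ t) (S.z₁ t) +
    m₂ * dot (S.z₂ t) (S.z₂ t) + m₃ * dot (S.z₃ t) (S.z₃ t)) := by
    intro hk1
    refine (key m₂ m₃ (S.k₁ t) (S.z₂ t) (S.q₁ t - S.q₂ t) hm2 hm3 hk1 ?_ ?_).trans fin2
    · rw [crs_z2_21, abs_mul (m₃ * S.k₁ t), abs_mul, abs_of_pos h3]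
    · rw [norm_sub_rev]; exact b1
  have e8 : 1 / (2 * B ^ 3) = 1 / (4 * B ^ 3) + 1 / (4 * B ^ 3) := by field_simp; norm_num
  rcases le_total ‖S.q₂ t - S.q₁ t‖ ‖S.q₁ t - S.q₃ t‖ with h | h
  · have h4 : ‖S.q₂ t - S.q₁ t‖ ^ 2 ≤ ‖S.q₁ t - S.q₃ t‖ ^ 2 := pow_le_pow_left₀ r1.le h 2
    have h5 := hcube _ r1 b1 (by linarith)
    by_cases h6 : 1 / (4 * B ^ 3) ≤ |S.k₁ t|
    · exact habs2 h6
    · push Not at h6
      have h7 : S.k₃ t - S.k₁ t = 1 / ‖S.q₂ t - S.q₁ t‖ ^ 3 - 1 / ‖S.q₃ t - S.q₂ t‖ ^ 3 := by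
        unfold k₃ k₁; ring
      have h8 : 1 / (4 * B ^ 3) ≤ |S.k₃ t| := by
        have := (abs_lt.1 h6).1
        have := le_abs_self (S.k₃ t)
        linarith
      refine (key m₁ m₂ (S.k₃ t) (S.z₁ t) (S.q₃ t - S.q₁ t) hm1 hm2 h8 ?_ ?_).trans fin1
      · rw [crs_z1_31, abs_mul (m₂ * S.k₃ t), abs_mul, abs_of_pos h2]
      · rw [norm_sub_rev]; exact b3
  · have h4 : ‖S.q₁ t - S.q₃ t‖ ^ 2 ≤ ‖S.q₂ t - S.q₁ t‖ ^ 2 := pow_le_pow_left₀ r3.le h 2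
    have h5 := hcube _ r3 b3 (by linarith)
    by_cases h6 : 1 / (4 * B ^ 3) ≤ |S.k₁ t|
    · exact habs2 h6
    · push Not at h6
      have h7 : S.k₂ t - S.k₁ t = 1 / ‖S.q₁ t - S.q₃ t‖ ^ 3 - 1 / ‖S.q₃ t - S.q₂ t‖ ^ 3 := by
        unfold k₂ k₁; ring
      have h8 : 1 / (4 * B ^ 3) ≤ |S.k₂ t| := by
        have := (abs_lt.1 h6).1
        have := le_abs_self (S.k₂ t)
        linarith
      refine (key m₁ m₃ (S.k₂ t) (S.z₁ t) (S.q₂ t - S.q₁ t) hm1 hm3 h8 ?_ ?_).trans fin1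
      · rw [crs_z1_21, abs_neg, abs_mul (m₃ * S.k₂ t), abs_mul, abs_of_pos h3]
      · exact b1

end Traj

end Pool.Agent.Work.MP_877ce7_an
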