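import Mathlib
import Pool.Agent.Work.MP_877ce7_an.B8

set_option autoImplicit false

open Filter Topology

namespace Pool.Agent.Work.MP_877ce7_an

/-- elementary estimate used in the tight regime -/
lemma tight_arith (m₁ m₂ a b : ℝ) (h1 : 0 < m₁) (h2 : 0 < m₂) (ha : 0 ≤ a) (hb : 0 ≤ b) :
    ∃ x0 : ℝ, 1 ≤ x0 ∧ ∀ x, x0 ≤ x → 0 ≤ m₂ * x ^ 2 - a ∧
      1 ≤ m₁ * (m₂ * x ^ 2 - a) ^ 2 - (m₁ * m₂ * x + b) ^ 2 := by
  refine ⟨1 + 2 * a / m₂ + 4 * ((m₁ * m₂ + b) ^ 2 + 1) / (m₁ * m₂ ^ 2), ?_, ?_⟩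
  · have : 0 ≤ 2 * a / m₂ := by positivity
    have : 0 ≤ 4 * ((m₁ * m₂ + b) ^ 2 + 1) / (m₁ * m₂ ^ 2) := by positivity
    linarith
  · intro x hx
    have e1 : 0 ≤ 2 * a / m₂ := by positivity
    have e2 : 0 ≤ 4 * ((m₁ * m₂ + b) ^ 2 + 1) / (m₁ * m₂ ^ 2) := by positivity
    have hx1 : 1 ≤ x := by linarith
    have hxx : x ≤ x ^ 2 := by nlinarith
    have e3 : 2 * a / m₂ ≤ x ^ 2 := by linarith
    have e4 : 4 * ((m₁ * m₂ + b) ^ 2 + 1) / (m₁ * m₂ ^ 2) ≤ x ^ 2 := by linarith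
    rw [div_le_iff₀ h2] at e3
    rw [div_le_iff₀ (by positivity)] at e4
    have e5 : m₂ / 2 * x ^ 2 ≤ m₂ * x ^ 2 - a := by linarith
    have e6 : m₁ * m₂ * x + b ≤ (m₁ * m₂ + b) * x := by nlinarith
    have e7 : m₁ * (m₂ / 2 * x ^ 2) ^ 2 ≤ m₁ * (m₂ * x ^ 2 - a) ^ 2 := by gcongr
    have e8 : (m₁ * m₂ * x + b) ^ 2 ≤ ((m₁ * m₂ + b) * x) ^ 2 := by gcongr
    refine ⟨le_trans (by positivity) e5, ?_⟩
    have e9 : m₁ * (m₂ / 2 * x ^ 2) ^ 2 - ((m₁ * m₂ + b) * x) ^ 2 =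
        x ^ 2 * (x ^ 2 * (m₁ * m₂ ^ 2) / 4 - (m₁ * m₂ + b) ^ 2) := by ring
    have e10 : 1 ≤ x ^ 2 * (m₁ * m₂ ^ 2) / 4 - (m₁ * m₂ + b) ^ 2 := by linarith
    have e11 : (1 : ℝ) * 1 ≤ x ^ 2 * (x ^ 2 * (m₁ * m₂ ^ 2) / 4 - (m₁ * m₂ + b) ^ 2) := by
      apply mul_le_mul _ e10 (by norm_num) (by positivity)
      linarith
    linarith

namespace Traj

variable {m₁ m₂ m₃ : ℝ} (S : Traj m₁ m₂ m₃)

/-- separation constant -/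
noncomputable def csep (m₁ m₂ m₃ : ℝ) : ℝ :=
  Real.sqrt ((m₁ + m₂ + m₃) / (8 * (m₁ * m₂ + m₂ * m₃ + m₃ * m₁)))

lemma csep_rot (m₁ m₂ m₃ : ℝ) : csep m₂ m₃ m₁ = csep m₁ m₂ m₃ := by
  unfold csep
  rw [show m₂ + m₃ + m₁ = m₁ + m₂ + m₃ by ring,
    show m₂ * m₃ + m₃ * m₁ + m₁ * m₂ = m₁ * m₂ + m₂ * m₃ + m₃ * m₁ by ring]

include S in
lemma csep_pos : 0 < csep m₁ m₂ m₃ := by
  have h1 := S.p1
  have h2 := S.p2
  have h3 := S.p3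
  unfold csep
  positivity

/-- pair `(1,2)` is tight -/
def Tight (δ t : ℝ) : Prop := ‖S.q₂ t - S.q₁ t‖ ≤ δ * S.s t ^ 2

lemma tight_far {δ t : ℝ} (h : S.Tight δ t) (hδ : δ ≤ csep m₁ m₂ m₃) :
    csep m₁ m₂ m₃ * S.s t ^ 2 ≤ ‖S.q₃ t - S.q₂ t‖ ∧
      csep m₁ m₂ m₃ * S.s t ^ 2 ≤ ‖S.q₁ t - S.q₃ t‖ := by
  have h1 := S.p1
  have h2 := S.p2
  have h3 := S.p3
  have hs := S.s_pos t
  have hc := S.csep_pos
  have hL := S.lagrange t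
  rw [← s_pow] at hL
  set c := csep m₁ m₂ m₃ with hcdef
  have hc2 : c ^ 2 * (8 * (m₁ * m₂ + m₂ * m₃ + m₃ * m₁)) = m₁ + m₂ + m₃ := by
    rw [hcdef]
    unfold csep
    rw [Real.sq_sqrt (by positivity)]
    field_simp
  set r := ‖S.q₂ t - S.q₁ t‖ with hr
  set r1 := ‖S.q₃ t - S.q₂ t‖ with hr1
  set r2 := ‖S.q₁ t - S.q₃ t‖ with hr2
  have p := norm_nonneg (S.q₂ t - S.q₁ t)
  have p1 := norm_nonneg (S.q₃ t - S.q₂ t)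
  have p2 := norm_nonneg (S.q₁ t - S.q₃ t)
  rw [← hr] at p
  rw [← hr1] at p1
  rw [← hr2] at p2
  have tri1 : r1 ≤ r + r2 := by
    have : S.q₃ t - S.q₂ t = -((S.q₂ t - S.q₁ t) + (S.q₁ t - S.q₃ t)) := by ring
    rw [hr1, this, norm_neg]
    exact norm_add_le _ _
  have tri2 : r2 ≤ r + r1 := by
    have : S.q₁ t - S.q₃ t = -((S.q₂ t - S.q₁ t) + (S.q₃ t - S.q₂ t)) := by ring
    rw [hr2, this, norm_neg]
    exact norm_add_le _ _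
  have hr' : r ≤ c * S.s t ^ 2 := h.trans (by gcongr)
  set X := c * S.s t ^ 2 with hX
  have hX0 : 0 < X := by positivity
  have hX2 : X ^ 2 * (8 * (m₁ * m₂ + m₂ * m₃ + m₃ * m₁)) = (m₁ + m₂ + m₃) * S.s t ^ 4 := by
    rw [hX, ← hc2]; ring
  have hb : ∀ y : ℝ, 0 ≤ y → y ≤ 2 * X → y ^ 2 ≤ 4 * X ^ 2 := by
    intro y hy hy2
    have := pow_le_pow_left₀ hy hy2 2
    linarith [show (2 * X) ^ 2 = 4 * X ^ 2 by ring]
  have m12 : 0 < m₁ * m₂ := by positivity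
  have m23 : 0 < m₂ * m₃ := by positivity
  have m31 : 0 < m₃ * m₁ := by positivity
  have contra : r1 ≤ 2 * X → r2 ≤ 2 * X → False := by
    intro g1 g2
    have f0 := hb r p (by linarith)
    have f1 := hb r1 p1 g1
    have f2 := hb r2 p2 g2
    have : (m₁ + m₂ + m₃) * S.s t ^ 4 ≤ (m₁ * m₂ + m₂ * m₃ + m₃ * m₁) * (4 * X ^ 2) := by
      rw [hL]
      have := mul_le_mul_of_nonneg_left f0 m12.le
      have := mul_le_mul_of_nonneg_left f1 m23.le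
      have := mul_le_mul_of_nonneg_left f2 m31.le
      linarith
    have hpos : 0 < (m₁ + m₂ + m₃) * S.s t ^ 4 := by positivity
    nlinarith
  constructor
  · by_contra hcon
    push Not at hcon
    exact contra (by linarith) (by linarith)
  · by_contra hcon
    push Not at hcon
    exact contra (by linarith) (by linarith)

/-- in the tight regime we are far from central configurations -/
lemma hh_tight (m₁ m₂ m₃ : ℝ) (h1 : 0 < m₁) (h2 : 0 < m₂) (h3 : 0 < m₃) :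
    ∃ δ0 : ℝ, 0 < δ0 ∧ δ0 ≤ csep m₁ m₂ m₃ ∧ ∀ (S : Traj m₁ m₂ m₃) (t : ℝ), S.Tight δ0 t →
      1 ≤ S.hh t := by
  have hc : 0 < csep m₁ m₂ m₃ := by unfold csep; positivity
  set c := csep m₁ m₂ m₃ with hcdef
  obtain ⟨x0, hx0, hx⟩ := tight_arith m₁ m₂ (m₃ / c ^ 2) ((m₂ * m₃ + m₃ * m₁) / c) h1 h2
    (by positivity) (by positivity)
  have hx00 : 0 < x0 := by linarith
  refine ⟨min (1 / x0) c, by positivity, min_le_right _ _, ?_⟩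
  intro S t hT
  have hs := S.s_pos t
  obtain ⟨f1, f2⟩ := S.tight_far hT (min_le_right _ _)
  rw [← hcdef] at f1 f2
  have r1 := norm_pos_iff.2 (S.d21_ne t)
  have r2 := norm_pos_iff.2 (S.d32_ne t)
  have r3 := norm_pos_iff.2 (S.d13_ne t)
  set r := ‖S.q₂ t - S.q₁ t‖ with hr
  set x := S.s t ^ 2 / r with hxdef
  have hxx0 : x0 ≤ x := by
    have e1 : r ≤ 1 / x0 * S.s t ^ 2 := hT.trans (by gcongr; exact min_le_left _ _)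
    rw [hxdef, le_div_iff₀ r1]
    calc x0 * r ≤ x0 * (1 / x0 * S.s t ^ 2) := by gcongr
      _ = S.s t ^ 2 := by field_simp
  obtain ⟨g1, g2⟩ := hx x hxx0
  refine g2.trans ?_
  have hhdef : S.hh t = S.s t ^ 8 * S.G2 t - (S.s t ^ 2 * S.U t) ^ 2 := by unfold hh; ring
  rw [hhdef]
  -- lower bound for the acceleration
  have e1 : m₂ / r ^ 2 - m₃ / (c ^ 2 * S.s t ^ 4) ≤ ‖S.a₁ t‖ := by
    have e2 : ‖(m₂ / r ^ 3) • (S.q₂ t - S.q₁ t)‖ = m₂ / r ^ 2 := by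
      rw [norm_smul, Real.norm_of_nonneg (by positivity), ← hr]
      field_simp
    have e3 : ‖(m₃ / ‖S.q₃ t - S.q₁ t‖ ^ 3) • (S.q₃ t - S.q₁ t)‖ ≤ m₃ / (c ^ 2 * S.s t ^ 4) := by
      rw [norm_smul, norm_sub_rev (S.q₃ t), Real.norm_of_nonneg (by positivity)]
      have e4 : m₃ / ‖S.q₁ t - S.q₃ t‖ ^ 3 * ‖S.q₁ t - S.q₃ t‖ = m₃ / ‖S.q₁ t - S.q₃ t‖ ^ 2 := by
        field_simp
      rw [e4]
      apply div_le_div_of_nonneg_left h3.le (by positivity)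
      calc c ^ 2 * S.s t ^ 4 = (c * S.s t ^ 2) ^ 2 := by ring
        _ ≤ _ := by gcongr
    have e5 : ‖(m₂ / r ^ 3) • (S.q₂ t - S.q₁ t)‖ ≤ ‖S.a₁ t‖ +
        ‖(m₃ / ‖S.q₃ t - S.q₁ t‖ ^ 3) • (S.q₃ t - S.q₁ t)‖ := by
      have : (m₂ / r ^ 3) • (S.q₂ t - S.q₁ t) =
        S.a₁ t - (m₃ / ‖S.q₃ t - S.q₁ t‖ ^ 3) • (S.q₃ t - S.q₁ t) := by
        unfold a₁; rw [← hr]; abel
      rw [this]
      exact norm_sub_le _ _
    linarith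
  have e6 : m₂ * x ^ 2 - m₃ / c ^ 2 ≤ S.s t ^ 4 * ‖S.a₁ t‖ := by
    have : m₂ * x ^ 2 - m₃ / c ^ 2 = S.s t ^ 4 * (m₂ / r ^ 2 - m₃ / (c ^ 2 * S.s t ^ 4)) := by
      rw [hxdef]; field_simp
    rw [this]
    exact mul_le_mul_of_nonneg_left e1 (by positivity)
  have e7 : m₁ * (m₂ * x ^ 2 - m₃ / c ^ 2) ^ 2 ≤ S.s t ^ 8 * S.G2 t := by
    have e8 : m₁ * (m₂ * x ^ 2 - m₃ / c ^ 2) ^ 2 ≤ m₁ * (S.s t ^ 4 * ‖S.a₁ t‖) ^ 2 := by gcongr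
    have e9 : m₁ * (S.s t ^ 4 * ‖S.a₁ t‖) ^ 2 = S.s t ^ 8 * (m₁ * dot (S.a₁ t) (S.a₁ t)) := by
      rw [dot_self]; ring
    rw [e9] at e8
    refine e8.trans ?_
    apply mul_le_mul_of_nonneg_left _ (by positivity)
    unfold G2
    have a2 := dot_self_nonneg (S.a₂ t)
    have a3 := dot_self_nonneg (S.a₃ t)
    have : 0 ≤ m₂ * dot (S.a₂ t) (S.a₂ t) := by positivity
    have : 0 ≤ m₃ * dot (S.a₃ t) (S.a₃ t) := by positivity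
    linarith
  have e10 : S.s t ^ 2 * S.U t ≤ m₁ * m₂ * x + (m₂ * m₃ + m₃ * m₁) / c := by
    unfold U
    rw [← hr]
    have e11 : 1 / ‖S.q₃ t - S.q₂ t‖ ≤ 1 / (c * S.s t ^ 2) :=
      one_div_le_one_div_of_le (by positivity) f1
    have e12 : 1 / ‖S.q₁ t - S.q₃ t‖ ≤ 1 / (c * S.s t ^ 2) :=
      one_div_le_one_div_of_le (by positivity) f2
    calc S.s t ^ 2 * (m₁ * m₂ * (1 / r) + m₂ * m₃ * (1 / ‖S.q₃ t - S.q₂ t‖) +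
        m₃ * m₁ * (1 / ‖S.q₁ t - S.q₃ t‖)) ≤ S.s t ^ 2 * (m₁ * m₂ * (1 / r) +
          m₂ * m₃ * (1 / (c * S.s t ^ 2)) + m₃ * m₁ * (1 / (c * S.s t ^ 2))) := by gcongr
      _ = _ := by rw [hxdef]; field_simp; ring
  have e13 : 0 ≤ S.s t ^ 2 * S.U t := mul_nonneg (by positivity) (S.U_nonneg t)
  have e14 : (S.s t ^ 2 * S.U t) ^ 2 ≤ (m₁ * m₂ * x + (m₂ * m₃ + m₃ * m₁) / c) ^ 2 := by gcongr
  linarith

/-- large `f` forces one of the pairs to be tight -/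
lemma tight_of_f {δ C1 t : ℝ} (hδ : 0 < δ) (hC1 : (m₁ * m₂ + m₂ * m₃ + m₃ * m₁) / δ ≤ C1)
    (hf : C1 ≤ S.f t) : S.Tight δ t ∨ S.rot.Tight δ t ∨ S.rot.rot.Tight δ t := by
  have h1 := S.p1
  have h2 := S.p2
  have h3 := S.p3
  by_contra hcon
  push Not at hcon
  obtain ⟨c1, c2, c3⟩ := hcon
  have hs := S.s_pos t
  have d1 : δ * S.s t ^ 2 < ‖S.q₂ t - S.q₁ t‖ := not_le.1 c1
  have d2 : δ * S.s t ^ 2 < ‖S.q₃ t - S.q₂ t‖ := by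
    have := not_le.1 c2
    rw [rot_s] at this
    exact this
  have d3 : δ * S.s t ^ 2 < ‖S.q₁ t - S.q₃ t‖ := by
    have := not_le.1 c3
    rw [rot_s, rot_s] at this
    exact this
  have e1 : 1 / ‖S.q₂ t - S.q₁ t‖ < 1 / (δ * S.s t ^ 2) :=
    one_div_lt_one_div_of_lt (by positivity) d1
  have e2 : 1 / ‖S.q₃ t - S.q₂ t‖ < 1 / (δ * S.s t ^ 2) :=
    one_div_lt_one_div_of_lt (by positivity) d2
  have e3 : 1 / ‖S.q₁ t - S.q₃ t‖ < 1 / (δ * S.s t ^ 2) :=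
    one_div_lt_one_div_of_lt (by positivity) d3
  have : S.f t < (m₁ * m₂ + m₂ * m₃ + m₃ * m₁) / δ := by
    unfold f U
    calc S.s t ^ 2 * (m₁ * m₂ * (1 / ‖S.q₂ t - S.q₁ t‖) + m₂ * m₃ * (1 / ‖S.q₃ t - S.q₂ t‖) +
        m₃ * m₁ * (1 / ‖S.q₁ t - S.q₃ t‖)) < S.s t ^ 2 * (m₁ * m₂ * (1 / (δ * S.s t ^ 2)) +
          m₂ * m₃ * (1 / (δ * S.s t ^ 2)) + m₃ * m₁ * (1 / (δ * S.s t ^ 2))) := by gcongr
      _ = _ := by field_simp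
  linarith

end Traj

end Pool.Agent.Work.MP_877ce7_an
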