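import Mathlib
import Pool.Agent.Work.MP_877ce7_an.B9

set_option autoImplicit false

open Filter Topology

namespace Pool.Agent.Work.MP_877ce7_an

/-- upward crossing -/
lemma cross_up {g : ℝ → ℝ} {a b u w : ℝ} (hg : Continuous g) (hab : a ≤ b) (huw : u < w)
    (ha : g a ≤ u) (hb : w ≤ g b) :
    ∃ α β, a ≤ α ∧ α ≤ β ∧ β ≤ b ∧ g α = u ∧ g β = w ∧ ∀ t ∈ Set.Icc α β, u ≤ g t ∧ g t ≤ w := by
  have hT : IsCompact (Set.Icc a b ∩ {t | g t ≤ u}) :=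
    isCompact_Icc.inter_right (isClosed_le hg continuous_const)
  obtain ⟨α, hα⟩ := hT.exists_isGreatest ⟨a, ⟨le_refl _, hab⟩, ha⟩
  have hαu : g α = u := by
    by_contra hne
    have hlt : g α < u := lt_of_le_of_ne hα.1.2 hne
    obtain ⟨t, ht, htu⟩ := intermediate_value_Icc hα.1.1.2 (hg.continuousOn)
      (show u ∈ Set.Icc (g α) (g b) from ⟨hlt.le, (huw.trans_le hb).le⟩)
    have h1 : t ≤ α := hα.2 ⟨⟨hα.1.1.1.trans ht.1, ht.2⟩, le_of_eq htu⟩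
    have h2 : t = α := le_antisymm h1 ht.1
    rw [h2] at htu
    exact hne htu
  have hT2 : IsCompact (Set.Icc α b ∩ {t | w ≤ g t}) :=
    isCompact_Icc.inter_right (isClosed_le continuous_const hg)
  obtain ⟨β, hβ⟩ := hT2.exists_isLeast ⟨b, ⟨hα.1.1.2, le_refl _⟩, hb⟩
  have hβw : g β = w := by
    by_contra hne
    have hlt : w < g β := lt_of_le_of_ne hβ.1.2 (Ne.symm hne)
    obtain ⟨t, ht, htu⟩ := intermediate_value_Icc hβ.1.1.1 (hg.continuousOn)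
      (show w ∈ Set.Icc (g α) (g β) from ⟨by rw [hαu]; exact huw.le, hlt.le⟩)
    have h1 : β ≤ t := hβ.2 ⟨⟨ht.1, ht.2.trans hβ.1.1.2⟩, le_of_eq htu.symm⟩
    have h2 : t = β := le_antisymm ht.2 h1
    rw [h2] at htu
    exact hne htu
  refine ⟨α, β, hα.1.1.1, hβ.1.1.1, hβ.1.1.2, hαu, hβw, ?_⟩
  intro t ht
  constructor
  · by_contra hcon
    push Not at hcon
    have h1 : t ≤ α := hα.2 ⟨⟨hα.1.1.1.trans ht.1, ht.2.trans hβ.1.1.2⟩, hcon.le⟩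
    have h2 : t = α := le_antisymm h1 ht.1
    rw [h2, hαu] at hcon
    exact lt_irrefl _ hcon
  · by_contra hcon
    push Not at hcon
    have h1 : β ≤ t := hβ.2 ⟨⟨ht.1, ht.2.trans hβ.1.1.2⟩, hcon.le⟩
    have h2 : t = β := le_antisymm ht.2 h1
    rw [h2, hβw] at hcon
    exact lt_irrefl _ hcon

/-- downward crossing -/
lemma cross_down {g : ℝ → ℝ} {a b u w : ℝ} (hg : Continuous g) (hab : a ≤ b) (huw : u < w)
    (ha : w ≤ g a) (hb : g b ≤ u) :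
    ∃ α β, a ≤ α ∧ α ≤ β ∧ β ≤ b ∧ g α = w ∧ g β = u ∧ ∀ t ∈ Set.Icc α β, u ≤ g t ∧ g t ≤ w := by
  obtain ⟨α, β, h1, h2, h3, h4, h5, h6⟩ := cross_up (g := fun t => - g t) (a := a) (b := b)
    (u := -w) (w := -u) hg.neg hab (by linarith) (by linarith) (by linarith)
  refine ⟨α, β, h1, h2, h3, by linarith, by linarith, ?_⟩
  intro t ht
  have := h6 t ht
  constructor <;> linarith [this.1, this.2]

namespace Traj

variable {m₁ m₂ m₃ : ℝ} (S : Traj m₁ m₂ m₃)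

noncomputable def F1 (t : ℝ) : ℝ := S.D t / S.s t ^ 4

noncomputable def F1d (t : ℝ) : ℝ := (dot (S.u₂ t - S.u₁ t) (S.q₃ t - S.q₁ t) +
  dot (S.q₂ t - S.q₁ t) (S.u₃ t - S.u₁ t)) / S.s t ^ 4

lemma hasF1 (t : ℝ) : HasDerivAt S.F1 (S.F1d t) t := by
  have hs := (S.s_pos t).ne'
  have h1 := hasDerivAt_dot ((S.sol.dq2 t).sub (S.sol.dq1 t)) ((S.sol.dq3 t).sub (S.sol.dq1 t))
  have h2 := h1.div ((S.hasS t).pow 4) (pow_ne_zero 4 hs)
  refine h2.congr_deriv ?_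
  have e4 : S.lam t = S.J t / S.s t ^ 4 := by unfold lam; rw [s_pow]
  have e1 : S.u₂ t - S.u₁ t = (S.v₂ t - S.v₁ t) - S.lam t • (S.q₂ t - S.q₁ t) := by
    unfold u₂ u₁; rw [smul_sub]; abel
  have e2 : S.u₃ t - S.u₁ t = (S.v₃ t - S.v₁ t) - S.lam t • (S.q₃ t - S.q₁ t) := by
    unfold u₃ u₁; rw [smul_sub]; abel
  unfold F1d
  rw [e1, e2]
  simp only [Pi.sub_apply, Pi.pow_apply, Nat.cast_ofNat, Nat.add_one_sub_one]
  rw [dot_sub_left (S.v₂ t - S.v₁ t) (S.lam t • (S.q₂ t - S.q₁ t)),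
    dot_sub_right (S.v₃ t - S.v₁ t) (S.lam t • (S.q₃ t - S.q₁ t)), dot_smul_left, dot_smul_right,
    e4]
  field_simp
  ring

lemma F1d_le (t : ℝ) : |S.F1d t| ≤ 8 * kap m₁ m₂ m₃ ^ 2 * (Real.sqrt (S.A t) / S.s t ^ 2) := by
  have hs := S.s_pos t
  have hk := S.kap_pos
  obtain ⟨b1, b2, b3⟩ := S.r_le t
  obtain ⟨c1, c2, c3⟩ := S.comp_le (S.A_eq t).symm
  set sA := Real.sqrt (S.A t) with hsA
  have hsA0 : 0 ≤ sA := Real.sqrt_nonneg _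
  have n1 : ‖S.u₂ t - S.u₁ t‖ ≤ 2 * kap m₁ m₂ m₃ * sA := (norm_sub_le _ _).trans (by linarith)
  have n2 : ‖S.u₃ t - S.u₁ t‖ ≤ 2 * kap m₁ m₂ m₃ * sA := (norm_sub_le _ _).trans (by linarith)
  rw [norm_sub_rev] at b3
  unfold F1d
  rw [abs_div, abs_of_pos (show 0 < S.s t ^ 4 by positivity), div_le_iff₀ (by positivity)]
  have e1 : |dot (S.u₂ t - S.u₁ t) (S.q₃ t - S.q₁ t)| ≤ (2 * kap m₁ m₂ m₃ * sA) *
      (2 * kap m₁ m₂ m₃ * S.s t ^ 2) := (abs_dot_le _ _).trans (by gcongr)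
  have e2 : |dot (S.q₂ t - S.q₁ t) (S.u₃ t - S.u₁ t)| ≤ (2 * kap m₁ m₂ m₃ * S.s t ^ 2) *
      (2 * kap m₁ m₂ m₃ * sA) := (abs_dot_le _ _).trans (by gcongr)
  refine (abs_add_le _ _).trans ((add_le_add e1 e2).trans (le_of_eq ?_))
  field_simp
  ring

lemma D_sq (t : ℝ) : S.D t ^ 2 + S.X t ^ 2 =
    (‖S.q₂ t - S.q₁ t‖ * ‖S.q₁ t - S.q₃ t‖) ^ 2 := by
  unfold D X
  rw [dot_sq_add_crs_sq, dot_self, dot_self, norm_sub_rev (S.q₃ t)]
  ring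

lemma continuous_f : Continuous S.f :=
  continuous_iff_continuousAt.2 fun t => (S.hasF t).continuousAt

lemma continuous_F1 : Continuous S.F1 :=
  continuous_iff_continuousAt.2 fun t => (S.hasF1 t).continuousAt

end Traj

/-- A label change at body 1 away from collisions has a cost. -/
theorem outside_cost (m₁ m₂ m₃ C2 C : ℝ) (h1 : 0 < m₁) (h2 : 0 < m₂) (h3 : 0 < m₃)
    (hC2 : 0 < C2) (hC : C2 < C) :
    ∃ ε > 0, ∀ (S : Traj m₁ m₂ m₃), 0 < S.E → ∀ e e' : ℝ, e ≤ e' → S.X e = 0 → S.X e' = 0 →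
      S.D e < 0 → 0 < S.D e' → (∀ t ∈ Set.Icc e e', S.f t ≤ C2) →
      ∃ α β, e ≤ α ∧ α ≤ β ∧ β ≤ e' ∧ ε ≤ S.phi C β - S.phi C α := by
  set c := min (m₁ * m₂) (min (m₂ * m₃) (m₃ * m₁)) / C2 with hc
  have hc0 : 0 < c := by positivity
  have hk0 : 0 < Traj.kap m₁ m₂ m₃ := by unfold Traj.kap; positivity
  obtain ⟨ε, hε, H⟩ := cost_exists C C2
    (min m₁ (min m₂ m₃) ^ 3 * (c ^ 2 / (128 * Traj.kap m₁ m₂ m₃ ^ 4)) ^ 2)
    (2 * Traj.kap m₁ m₂ m₃ * (m₁ * m₂ + m₂ * m₃ + m₃ * m₁) / c ^ 2)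
    ((2 * Traj.kap m₁ m₂ m₃) ^ 2 * (m₁ * m₂ + m₂ * m₃ + m₃ * m₁) / c ^ 3)
    (8 * Traj.kap m₁ m₂ m₃ ^ 2) (1 / 2 * c ^ 2) (by linarith) hC (by positivity) (by positivity)
    (by positivity) (by positivity) (by positivity)
  refine ⟨ε, hε, ?_⟩
  intro S hE e e' hee hXe hXe' hDe hDe' hf
  have hsep : ∀ t ∈ Set.Icc e e', S.Sep c t := fun t ht => S.sep_of_f hC2 (hf t ht)
  have key : ∀ t ∈ Set.Icc e e', c ^ 2 * S.s t ^ 4 ≤
      ‖S.q₂ t - S.q₁ t‖ * ‖S.q₁ t - S.q₃ t‖ := by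
    intro t ht
    have hs := S.s_pos t
    have := mul_le_mul (hsep t ht).s21 (hsep t ht).s13 (by positivity) (norm_nonneg _)
    calc c ^ 2 * S.s t ^ 4 = c * S.s t ^ 2 * (c * S.s t ^ 2) := by ring
      _ ≤ _ := this
  have ha : S.F1 e ≤ -(1 / 2 * c ^ 2) := by
    have hs := S.s_pos e
    have h4 := S.D_sq e
    rw [hXe] at h4
    have h5 : S.D e ≤ -(‖S.q₂ e - S.q₁ e‖ * ‖S.q₁ e - S.q₃ e‖) := by
      have h6 : (‖S.q₂ e - S.q₁ e‖ * ‖S.q₁ e - S.q₃ e‖) ^ 2 ≤ (-S.D e) ^ 2 := by linarith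
      have := (abs_le_of_sq_le_sq' h6 (by linarith)).2
      linarith
    have h7 := key e ⟨le_refl _, hee⟩
    unfold Traj.F1
    rw [div_le_iff₀ (by positivity)]
    have : 0 < c ^ 2 * S.s e ^ 4 := by positivity
    linarith
  have hb : 0 ≤ S.F1 e' := by
    have hs := S.s_pos e'
    unfold Traj.F1
    positivity
  obtain ⟨α, β, h4, h5, h6, h7, h8, h9⟩ := cross_up S.continuous_F1 hee
    (show -(1 / 2 * c ^ 2) < 0 by have : 0 < c ^ 2 := by positivity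
                                  linarith) ha hb
  refine ⟨α, β, h4, h5, h6, ?_⟩
  refine H m₁ m₂ m₃ S hE α β h5 ?_ S.F1 S.F1d (fun t _ => S.hasF1 t) (fun t _ => S.F1d_le t) ?_
  · intro t ht
    have ht' : t ∈ Set.Icc e e' := ⟨h4.trans ht.1, ht.2.trans h6⟩
    have hs := S.s_pos t
    obtain ⟨w1, w2⟩ := S.bounds_of_sep hc0 (hsep t ht')
    refine ⟨hf t ht', ?_, w1, w2⟩
    obtain ⟨g1, g2⟩ := h9 t ht
    have g3 : S.D t ≤ 0 := by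
      unfold Traj.F1 at g2
      by_contra hcon
      push Not at hcon
      have : 0 < S.D t / S.s t ^ 4 := by positivity
      linarith
    refine S.hh_obtuse hc0 g3 ?_
    have g4 : -(1 / 2 * c ^ 2) * S.s t ^ 4 ≤ S.D t := by
      unfold Traj.F1 at g1
      rwa [le_div_iff₀ (by positivity)] at g1
    have g5 : S.D t ^ 2 ≤ (1 / 2 * c ^ 2 * S.s t ^ 4) ^ 2 := by
      apply sq_le_sq'
      · linarith
      · have : 0 < c ^ 2 * S.s t ^ 4 := by positivity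
        linarith
    have g6 := S.D_sq t
    have g7 := pow_le_pow_left₀ (by positivity) (key t ht') 2
    have g8 : (1 / 2 * c ^ 2 * S.s t ^ 4) ^ 2 ≤ |S.X t| ^ 2 := by
      rw [sq_abs]
      have : (1 / 2 * c ^ 2 * S.s t ^ 4) ^ 2 = 1 / 4 * (c ^ 2 * S.s t ^ 4) ^ 2 := by ring
      nlinarith
    exact (abs_le_of_sq_le_sq' g8 (abs_nonneg _)).2
  · rw [h7, h8]
    rw [show (0 : ℝ) - -(1 / 2 * c ^ 2) = 1 / 2 * c ^ 2 by ring]
    exact le_abs_self _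

/-- Leaving or entering the near-collision zone has a cost. -/
theorem zone_cost (m₁ m₂ m₃ : ℝ) (h1 : 0 < m₁) (h2 : 0 < m₂) (h3 : 0 < m₃) :
    ∃ C0 : ℝ, 0 < C0 ∧ ∀ C1 C2 C : ℝ, C0 ≤ C1 → C1 < C2 → C2 < C →
    ∃ ε > 0, ∀ (S : Traj m₁ m₂ m₃), 0 < S.E → ∀ a b : ℝ, a ≤ b →
      (C2 ≤ S.f a ∧ S.f b ≤ C1) → 
      ∃ α β, a ≤ α ∧ α ≤ β ∧ β ≤ b ∧ S.f α ≤ C2 ∧ S.f β ≤ C2 ∧ ε ≤ S.phi C β - S.phi C α := by
  obtain ⟨δ1, p1, q1, H1⟩ := Traj.hh_tight m₁ m₂ m₃ h1 h2 h3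
  obtain ⟨δ2, p2, q2, H2⟩ := Traj.hh_tight m₂ m₃ m₁ h2 h3 h1
  obtain ⟨δ3, p3, q3, H3⟩ := Traj.hh_tight m₃ m₁ m₂ h3 h1 h2
  set δ := min δ1 (min δ2 δ3) with hδ
  have hδ0 : 0 < δ := lt_min p1 (lt_min p2 p3)
  refine ⟨(m₁ * m₂ + m₂ * m₃ + m₃ * m₁) / δ, by positivity, ?_⟩
  intro C1 C2 C hC1 hC12 hC
  have hC10 : 0 < C1 := lt_of_lt_of_le (by positivity) hC1
  have hC20 : 0 < C2 := by linarith
  set c := min (m₁ * m₂) (min (m₂ * m₃) (m₃ * m₁)) / C2 with hc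
  have hc0 : 0 < c := by positivity
  have hk0 : 0 < Traj.kap m₁ m₂ m₃ := by unfold Traj.kap; positivity
  obtain ⟨ε, hε, H⟩ := cost_exists C C2 1
    (2 * Traj.kap m₁ m₂ m₃ * (m₁ * m₂ + m₂ * m₃ + m₃ * m₁) / c ^ 2)
    ((2 * Traj.kap m₁ m₂ m₃) ^ 2 * (m₁ * m₂ + m₂ * m₃ + m₃ * m₁) / c ^ 3)
    (2 * Traj.kap m₁ m₂ m₃ * (m₁ * m₂ + m₂ * m₃ + m₃ * m₁) / c ^ 2) (C2 - C1) (by linarith) hC
    (by positivity) (by positivity)
    (by positivity) (by positivity) (by linarith)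
  refine ⟨ε, hε, ?_⟩
  intro S hE a b hab hfab
  obtain ⟨α, β, h4, h5, h6, h7, h8, h9⟩ := cross_down S.continuous_f hab hC12 hfab.1 hfab.2
  refine ⟨α, β, h4, h5, h6, by linarith, by linarith, ?_⟩
  have htame : ∀ t ∈ Set.Icc α β, S.Tame C2 1
    (2 * Traj.kap m₁ m₂ m₃ * (m₁ * m₂ + m₂ * m₃ + m₃ * m₁) / c ^ 2)
    ((2 * Traj.kap m₁ m₂ m₃) ^ 2 * (m₁ * m₂ + m₂ * m₃ + m₃ * m₁) / c ^ 3) t := by
    intro t ht
    obtain ⟨g1, g2⟩ := h9 t ht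
    obtain ⟨w1, w2⟩ := S.bounds_of_sep hc0 (S.sep_of_f hC20 g2)
    refine ⟨g2, ?_, w1, w2⟩
    have hs := S.s_pos t
    rcases S.tight_of_f hδ0 hC1 g1 with h | h | h
    · exact H1 S t (h.trans (by gcongr; exact min_le_left _ _))
    · have := H2 S.rot t (h.trans (by
        have hs' := S.rot.s_pos t
        gcongr; exact (min_le_right _ _).trans (min_le_left _ _)))
      rwa [Traj.rot_hh] at this
    · have := H3 S.rot.rot t (h.trans (by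
        have hs' := S.rot.rot.s_pos t
        gcongr; exact (min_le_right _ _).trans (min_le_right _ _)))
      rwa [Traj.rot_hh, Traj.rot_hh] at this
  refine H m₁ m₂ m₃ S hE α β h5 htame S.f (fun t => S.W t / S.s t ^ 3) (fun t _ => S.hasF t) ?_ ?_
  · intro t ht
    have hs := S.s_pos t
    have := (htame t ht).W_le
    rw [abs_div, abs_of_pos (show 0 < S.s t ^ 3 by positivity), div_le_iff₀ (by positivity)]
    refine this.trans (le_of_eq ?_)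
    field_simp
  · rw [h7, h8, abs_sub_comm]
    exact le_abs_self _

end Pool.Agent.Work.MP_877ce7_an
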