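import Mathlib
import Pool.Agent.Work.MP_877ce7_an.B10

set_option autoImplicit false

open Filter Topology

namespace Pool.Agent.Work.MP_877ce7_an

/-- continuous induction -/
lemma bootstrap {g : ℝ → ℝ} (hg : Continuous g) {t0 : ℝ} (h0 : 0 ≤ g t0)
    (H : ∀ t, t0 ≤ t → (∀ τ ∈ Set.Icc t0 t, 0 ≤ g τ) → 0 < g t) : ∀ t, t0 ≤ t → 0 < g t := by
  have h00 : 0 < g t0 := H t0 le_rfl (fun τ hτ => by
    have : τ = t0 := le_antisymm hτ.2 hτ.1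
    rw [this]; exact h0)
  intro t1 ht1
  by_contra hcon
  push Not at hcon
  have hT : IsCompact (Set.Icc t0 t1 ∩ {t | g t ≤ 0}) :=
    isCompact_Icc.inter_right (isClosed_le hg continuous_const)
  obtain ⟨α, hα⟩ := hT.exists_isLeast ⟨t1, ⟨ht1, le_refl _⟩, hcon⟩
  have hα0 : g α = 0 := by
    by_contra hne
    have hlt : g α < 0 := lt_of_le_of_ne hα.1.2 hne
    obtain ⟨t, ht, htu⟩ := intermediate_value_Icc' hα.1.1.1 (hg.continuousOn)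
      (show (0 : ℝ) ∈ Set.Icc (g α) (g t0) from ⟨hlt.le, h0⟩)
    have h1 : α ≤ t := hα.2 ⟨⟨ht.1, ht.2.trans hα.1.1.2⟩, le_of_eq htu⟩
    have h2 : t = α := le_antisymm ht.2 h1
    rw [h2] at htu
    exact hne htu
  have := H α hα.1.1.1 (fun τ hτ => by
    by_contra hc
    push Not at hc
    have h1 : α ≤ τ := hα.2 ⟨⟨hτ.1, hτ.2.trans hα.1.1.2⟩, hc.le⟩
    have h2 : τ = α := le_antisymm hτ.2 h1
    rw [h2, hα0] at hc
    exact lt_irrefl _ hc)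
  linarith

namespace Traj

variable {m₁ m₂ m₃ : ℝ} (S : Traj m₁ m₂ m₃)

/-- relative position in the pair -/
noncomputable def x (t : ℝ) : ℂ := S.q₂ t - S.q₁ t
noncomputable def xd (t : ℝ) : ℂ := S.v₂ t - S.v₁ t
/-- Jacobi vector from the pair to the third body -/
noncomputable def y (t : ℝ) : ℂ := ((m₁ + m₂ + m₃) / (m₁ + m₂)) • S.q₃ t
noncomputable def yd (t : ℝ) : ℂ := ((m₁ + m₂ + m₃) / (m₁ + m₂)) • S.v₃ t
noncomputable def ydd (t : ℝ) : ℂ := ((m₁ + m₂ + m₃) / (m₁ + m₂)) • S.a₃ t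

lemma hasx (t : ℝ) : HasDerivAt S.x (S.xd t) t := (S.sol.dq2 t).sub (S.sol.dq1 t)
lemma hasxd (t : ℝ) : HasDerivAt S.xd (S.a₂ t - S.a₁ t) t := (S.sol.dv2 t).sub (S.sol.dv1 t)
lemma hasy (t : ℝ) : HasDerivAt S.y (S.yd t) t :=
  (S.sol.dq3 t).const_smul ((m₁ + m₂ + m₃) / (m₁ + m₂))
lemma hasyd (t : ℝ) : HasDerivAt S.yd (S.ydd t) t :=
  (S.sol.dv3 t).const_smul ((m₁ + m₂ + m₃) / (m₁ + m₂))

lemma comv (t : ℝ) : m₁ • S.v₁ t + m₂ • S.v₂ t + m₃ • S.v₃ t = 0 := by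
  have h := (((S.sol.dq1 t).const_smul m₁).add ((S.sol.dq2 t).const_smul m₂)).add
    ((S.sol.dq3 t).const_smul m₃)
  have e : (m₁ • S.q₁ + m₂ • S.q₂ + m₃ • S.q₃) = fun _ => (0 : ℂ) := by
    funext t
    exact S.sol.com t
  rw [e] at h
  exact h.unique (hasDerivAt_const t 0)

include S in
lemma Mpos : 0 < m₁ + m₂ + m₃ := by
  have := S.p1
  have := S.p2
  have := S.p3
  positivity

include S in
lemma kpos : 0 < m₁ + m₂ := by
  have := S.p1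
  have := S.p2
  positivity

lemma q31 (t : ℝ) : S.q₃ t - S.q₁ t = S.y t + (m₂ / (m₁ + m₂)) • S.x t := by
  have h := S.sol.com t
  have hk := S.kpos.ne'
  have h1 := congrArg Complex.re h
  have h2 := congrArg Complex.im h
  simp only [Complex.add_re, Complex.add_im, Complex.real_smul, Complex.mul_re, Complex.mul_im,
    Complex.ofReal_re, Complex.ofReal_im, Complex.zero_re, Complex.zero_im] at h1 h2
  unfold y x
  apply Complex.ext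
  · simp only [Complex.add_re, Complex.sub_re, Complex.real_smul, Complex.mul_re,
      Complex.ofReal_re, Complex.ofReal_im, Complex.sub_im]
    field_simp
    linear_combination -h1
  · simp only [Complex.add_im, Complex.sub_re, Complex.real_smul, Complex.mul_im,
      Complex.ofReal_re, Complex.ofReal_im, Complex.sub_im]
    field_simp
    linear_combination -h2

lemma q32 (t : ℝ) : S.q₃ t - S.q₂ t = S.y t - (m₁ / (m₁ + m₂)) • S.x t := by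
  have h := S.q31 t
  have hk := S.kpos.ne'
  have e : S.q₃ t - S.q₂ t = (S.q₃ t - S.q₁ t) - S.x t := by unfold x; abel
  rw [e, h]
  have e2 : S.x t = (m₁ / (m₁ + m₂)) • S.x t + (m₂ / (m₁ + m₂)) • S.x t := by
    rw [← add_smul, ← add_div, div_self hk, one_smul]
  nth_rewrite 2 [e2]
  abel

lemma I_jac (t : ℝ) : S.I t = m₁ * m₂ / (m₁ + m₂) * ‖S.x t‖ ^ 2 +
    m₃ * (m₁ + m₂) / (m₁ + m₂ + m₃) * ‖S.y t‖ ^ 2 := by
  have h := S.sol.com t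
  have hk := S.kpos.ne'
  have hM := S.Mpos.ne'
  have h1 := congrArg Complex.re h
  have h2 := congrArg Complex.im h
  simp only [Complex.add_re, Complex.add_im, Complex.real_smul, Complex.mul_re, Complex.mul_im,
    Complex.ofReal_re, Complex.ofReal_im, Complex.zero_re, Complex.zero_im] at h1 h2
  rw [← dot_self, ← dot_self]
  unfold I y x dot
  simp only [Complex.sub_re, Complex.sub_im, Complex.real_smul, Complex.mul_re, Complex.mul_im,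
      Complex.ofReal_re, Complex.ofReal_im]
  field_simp
  linear_combination (m₁ + m₂ + m₃) * (m₁ * (S.q₁ t).re + m₂ * (S.q₂ t).re - m₃ * (S.q₃ t).re) *
    h1 + (m₁ + m₂ + m₃) * (m₁ * (S.q₁ t).im + m₂ * (S.q₂ t).im - m₃ * (S.q₃ t).im) * h2

lemma T_jac (t : ℝ) : S.T t = m₁ * m₂ / (m₁ + m₂) * ‖S.xd t‖ ^ 2 +
    m₃ * (m₁ + m₂) / (m₁ + m₂ + m₃) * ‖S.yd t‖ ^ 2 := by
  have h := S.comv t
  have hk := S.kpos.ne'
  have hM := S.Mpos.ne'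
  have h1 := congrArg Complex.re h
  have h2 := congrArg Complex.im h
  simp only [Complex.add_re, Complex.add_im, Complex.real_smul, Complex.mul_re, Complex.mul_im,
    Complex.ofReal_re, Complex.ofReal_im, Complex.zero_re, Complex.zero_im] at h1 h2
  rw [← dot_self, ← dot_self]
  unfold T yd xd dot
  simp only [Complex.sub_re, Complex.sub_im, Complex.real_smul, Complex.mul_re, Complex.mul_im,
      Complex.ofReal_re, Complex.ofReal_im]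
  field_simp
  linear_combination (m₁ + m₂ + m₃) * (m₁ * (S.v₁ t).re + m₂ * (S.v₂ t).re - m₃ * (S.v₃ t).re) *
    h1 + (m₁ + m₂ + m₃) * (m₁ * (S.v₁ t).im + m₂ * (S.v₂ t).im - m₃ * (S.v₃ t).im) * h2

/-- binding energy of the pair, per reduced mass -/
noncomputable def Eb (t : ℝ) : ℝ := 1 / 2 * ‖S.xd t‖ ^ 2 - (m₁ + m₂) / ‖S.x t‖

noncomputable def V3 (t : ℝ) : ℝ :=
  m₂ * m₃ * (1 / ‖S.q₃ t - S.q₂ t‖) + m₃ * m₁ * (1 / ‖S.q₁ t - S.q₃ t‖)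

lemma Eb_eq (t : ℝ) : m₁ * m₂ / (m₁ + m₂) * S.Eb t =
    S.E + S.V3 t - 1 / 2 * (m₃ * (m₁ + m₂) / (m₁ + m₂ + m₃)) * ‖S.yd t‖ ^ 2 := by
  have h1 := S.energy t
  have h2 := S.T_jac t
  have hk := S.kpos.ne'
  have hx : ‖S.x t‖ ≠ 0 := norm_ne_zero_iff.2 (S.d21_ne t)
  have h3 : S.U t = m₁ * m₂ * (1 / ‖S.x t‖) + S.V3 t := by
    unfold U V3 x; ring
  rw [h3, h2] at h1
  unfold Eb
  have e : m₁ * m₂ / (m₁ + m₂) * (1 / 2 * ‖S.xd t‖ ^ 2 - (m₁ + m₂) / ‖S.x t‖) =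
    1 / 2 * (m₁ * m₂ / (m₁ + m₂) * ‖S.xd t‖ ^ 2) - m₁ * m₂ * (1 / ‖S.x t‖) := by
    field_simp
  rw [e]
  linarith

lemma near_bounds {t : ℝ} (h : ‖S.x t‖ ≤ 1 / 4 * ‖S.y t‖) :
    3 / 4 * ‖S.y t‖ ≤ ‖S.q₃ t - S.q₂ t‖ ∧ 3 / 4 * ‖S.y t‖ ≤ ‖S.q₁ t - S.q₃ t‖ := by
  have h1 := S.p1
  have h2 := S.p2
  have hk := S.kpos
  have key : ∀ m : ℝ, 0 < m → m ≤ m₁ + m₂ → ‖(m / (m₁ + m₂)) • S.x t‖ ≤ ‖S.x t‖ := by
    intro m hm hmk
    rw [norm_smul, Real.norm_of_nonneg (by positivity)]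
    have : m / (m₁ + m₂) ≤ 1 := by rw [div_le_one hk]; exact hmk
    exact mul_le_of_le_one_left (norm_nonneg _) this
  constructor
  · rw [q32]
    have := norm_sub_norm_le (S.y t) ((m₁ / (m₁ + m₂)) • S.x t)
    have := key m₁ h1 (by linarith)
    linarith
  · rw [norm_sub_rev, q31]
    have e : S.y t + (m₂ / (m₁ + m₂)) • S.x t = S.y t - (-((m₂ / (m₁ + m₂)) • S.x t)) := by abel
    rw [e]
    have := norm_sub_norm_le (S.y t) (-((m₂ / (m₁ + m₂)) • S.x t))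
    have := key m₂ h2 (by linarith)
    rw [norm_neg] at *
    linarith

lemma ydd_le {t : ℝ} (h : ‖S.x t‖ ≤ 1 / 4 * ‖S.y t‖) :
    ‖S.ydd t‖ ≤ 2 * (m₁ + m₂ + m₃) / ‖S.y t‖ ^ 2 := by
  have h1 := S.p1
  have h2 := S.p2
  have hk := S.kpos
  have hM := S.Mpos
  obtain ⟨n1, n2⟩ := S.near_bounds h
  have hx : 0 < ‖S.x t‖ := norm_pos_iff.2 (S.d21_ne t)
  have hy : 0 < ‖S.y t‖ := by linarith
  have key : ∀ (m : ℝ) (d : ℂ), 0 < m → 3 / 4 * ‖S.y t‖ ≤ ‖d‖ →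
      ‖(m / ‖d‖ ^ 3) • d‖ ≤ m * (16 / 9 / ‖S.y t‖ ^ 2) := by
    intro m d hm hd
    have hd0 : 0 < ‖d‖ := by linarith
    rw [norm_smul, Real.norm_of_nonneg (by positivity)]
    have e1 : m / ‖d‖ ^ 3 * ‖d‖ = m * (1 / ‖d‖ ^ 2) := by field_simp
    rw [e1]
    apply mul_le_mul_of_nonneg_left _ hm.le
    have e2 : (16 : ℝ) / 9 / ‖S.y t‖ ^ 2 = 1 / (3 / 4 * ‖S.y t‖) ^ 2 := by
      field_simp
      norm_num
    rw [e2]
    apply one_div_le_one_div_of_le (by positivity)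
    gcongr
  have e3 : ‖S.a₃ t‖ ≤ (m₁ + m₂) * (16 / 9 / ‖S.y t‖ ^ 2) := by
    unfold a₃
    refine (norm_add_le _ _).trans ?_
    have := key m₁ (S.q₁ t - S.q₃ t) h1 n2
    have := key m₂ (S.q₂ t - S.q₃ t) h2 (by rw [norm_sub_rev]; exact n1)
    linarith
  unfold ydd
  rw [norm_smul, Real.norm_of_nonneg (by positivity)]
  calc (m₁ + m₂ + m₃) / (m₁ + m₂) * ‖S.a₃ t‖ ≤
      (m₁ + m₂ + m₃) / (m₁ + m₂) * ((m₁ + m₂) * (16 / 9 / ‖S.y t‖ ^ 2)) := by gcongr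
    _ = (16 / 9) * (m₁ + m₂ + m₃) / ‖S.y t‖ ^ 2 := by field_simp
    _ ≤ _ := by gcongr; norm_num

lemma V3_le {t : ℝ} (h : ‖S.x t‖ ≤ 1 / 4 * ‖S.y t‖) :
    S.V3 t ≤ 2 * m₃ * (m₁ + m₂) / ‖S.y t‖ := by
  have h1 := S.p1
  have h2 := S.p2
  have h3 := S.p3
  obtain ⟨n1, n2⟩ := S.near_bounds h
  have hx : 0 < ‖S.x t‖ := norm_pos_iff.2 (S.d21_ne t)
  have hy : 0 < ‖S.y t‖ := by linarith
  have e1 : 1 / ‖S.q₃ t - S.q₂ t‖ ≤ 1 / (3 / 4 * ‖S.y t‖) :=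
    one_div_le_one_div_of_le (by positivity) n1
  have e2 : 1 / ‖S.q₁ t - S.q₃ t‖ ≤ 1 / (3 / 4 * ‖S.y t‖) :=
    one_div_le_one_div_of_le (by positivity) n2
  unfold V3
  calc m₂ * m₃ * (1 / ‖S.q₃ t - S.q₂ t‖) + m₃ * m₁ * (1 / ‖S.q₁ t - S.q₃ t‖) ≤
      m₂ * m₃ * (1 / (3 / 4 * ‖S.y t‖)) + m₃ * m₁ * (1 / (3 / 4 * ‖S.y t‖)) := by gcongr
    _ = (4 / 3) * m₃ * (m₁ + m₂) / ‖S.y t‖ := by field_simp; ring
    _ ≤ _ := by gcongr; norm_num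

lemma V3_nonneg (t : ℝ) : 0 ≤ S.V3 t := by
  have h1 := S.p1
  have h2 := S.p2
  have h3 := S.p3
  unfold V3
  positivity

lemma V3_rev (t : ℝ) : S.rev.V3 t = S.V3 (-t) := rfl

lemma Eb_rev (t : ℝ) : S.rev.Eb t = S.Eb (-t) := by
  have e : S.rev.xd t = -S.xd (-t) := by unfold xd rev; simp only; ring
  have e2 : S.rev.x t = S.x (-t) := rfl
  unfold Eb
  rw [e, e2, norm_neg]

end Traj

end Pool.Agent.Work.MP_877ce7_an
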