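import Mathlib
import Pool.Agent.Work.MP_877ce7_an.B11

set_option autoImplicit false

open Filter Topology

namespace Pool.Agent.Work.MP_877ce7_an

namespace Traj

variable {m₁ m₂ m₃ : ℝ} (S : Traj m₁ m₂ m₃)

/-- threshold for the binding energy -/
noncomputable def Kst (m₁ m₂ m₃ : ℝ) : ℝ := 16 * (m₁ + m₂) + 18 * (m₃ * (m₁ + m₂) ^ 2 / (m₁ * m₂))

lemma cont_x : Continuous S.x := continuous_iff_continuousAt.2 fun t => (S.hasx t).continuousAt
lemma cont_y : Continuous S.y := continuous_iff_continuousAt.2 fun t => (S.hasy t).continuousAt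
lemma cont_xd : Continuous S.xd := continuous_iff_continuousAt.2 fun t => (S.hasxd t).continuousAt
lemma cont_yd : Continuous S.yd := continuous_iff_continuousAt.2 fun t => (S.hasyd t).continuousAt

lemma escape {K : ℝ} (hK : Kst m₁ m₂ m₃ ≤ K) (hE : 0 < S.E) {t0 : ℝ} (hR0 : 0 < ‖S.y t0‖)
    (hEb : S.Eb t0 ≤ -(K / ‖S.y t0‖)) (hB : 0 ≤ dot (S.y t0) (S.yd t0)) :
    ∃ y0 : ℝ, 0 < y0 ∧ ∀ t, t0 ≤ t → ‖S.x t‖ ≤ ‖S.y t0‖ / 8 ∧
      ‖S.y t0‖ ^ 2 + 1 / 4 * y0 ^ 2 * (t - t0) ^ 2 ≤ ‖S.y t‖ ^ 2 := by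
  have h1 := S.p1
  have h2 := S.p2
  have h3 := S.p3
  have hk := S.kpos
  have hM := S.Mpos
  set R0 := ‖S.y t0‖ with hR0def
  set MM := m₁ + m₂ + m₃ with hMM
  set κ := m₁ + m₂ with hκ
  set μ := m₁ * m₂ / κ with hμ
  set μy := m₃ * κ / MM with hμy
  have hμ0 : 0 < μ := by positivity
  have hμy0 : 0 < μy := by positivity
  have hK1 : 16 * κ ≤ K := by
    have : 0 ≤ 18 * (m₃ * κ ^ 2 / (m₁ * m₂)) := by positivity
    unfold Kst at hK
    linarith
  have hK0 : 0 < K := by linarith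
  have hK2 : 18 * (m₃ * κ) ≤ μ * K := by
    have e1 : 18 * (m₃ * κ ^ 2 / (m₁ * m₂)) ≤ K := by
      unfold Kst at hK
      linarith
    calc 18 * (m₃ * κ) = μ * (18 * (m₃ * κ ^ 2 / (m₁ * m₂))) := by rw [hμ]; field_simp
      _ ≤ μ * K := by gcongr
  have hμM : μy * MM = m₃ * κ := by rw [hμy]; field_simp
  -- radius from energy
  have rb : ∀ t, S.Eb t ≤ -(K / (2 * R0)) → ‖S.x t‖ ≤ R0 / 8 := by
    intro t ht
    have hx : 0 < ‖S.x t‖ := norm_pos_iff.2 (S.d21_ne t)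
    have e1 : K / (2 * R0) ≤ κ / ‖S.x t‖ := by
      unfold Eb at ht
      have : 0 ≤ 1 / 2 * ‖S.xd t‖ ^ 2 := by positivity
      linarith
    rw [div_le_div_iff₀ (by positivity) hx] at e1
    have e2 : 16 * κ * ‖S.x t‖ ≤ κ * (2 * R0) :=
      (mul_le_mul_of_nonneg_right hK1 hx.le).trans e1
    have e3 : κ * (16 * ‖S.x t‖) ≤ κ * (2 * R0) := by linarith
    have e4 := le_of_mul_le_mul_left e3 hk
    linarith
  have hEb0 : S.Eb t0 ≤ -(K / (2 * R0)) := by
    refine hEb.trans (neg_le_neg ?_)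
    apply div_le_div_of_nonneg_left hK0.le hR0
    linarith
  have hx0 := rb t0 hEb0
  set y0 := ‖S.yd t0‖ with hy0
  have hy00 : 0 ≤ y0 := norm_nonneg _
  have hy1 : 32 * MM / R0 ≤ y0 ^ 2 := by
    have e1 := S.Eb_eq t0
    have e2 := S.V3_nonneg t0
    have e3 : μ * S.Eb t0 ≤ μ * (-(K / R0)) := mul_le_mul_of_nonneg_left hEb hμ0.le
    have e4 : μ * K / R0 ≤ 1 / 2 * μy * y0 ^ 2 := by
      have : μ * (-(K / R0)) = -(μ * K / R0) := by ring
      linarith
    have e5 : 16 * (m₃ * κ) / R0 ≤ μ * K / R0 := by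
      apply div_le_div_of_nonneg_right _ hR0.le
      have : 0 < m₃ * κ := by positivity
      linarith
    have e6 : μy * (32 * MM / R0) ≤ μy * y0 ^ 2 := by
      calc μy * (32 * MM / R0) = 2 * (16 * (μy * MM) / R0) := by ring
        _ = 2 * (16 * (m₃ * κ) / R0) := by rw [hμM]
        _ ≤ 2 * (1 / 2 * μy * y0 ^ 2) := by linarith
        _ = _ := by ring
    exact le_of_mul_le_mul_left e6 hμy0
  have hMR : 0 < MM / R0 := by positivity
  have hy2 : 32 * (MM / R0) ≤ y0 ^ 2 := by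
    have : 32 * MM / R0 = 32 * (MM / R0) := by ring
    linarith
  have hy0pos : 0 < y0 := by
    rcases hy00.lt_or_eq with h | h
    · exact h
    · rw [← h] at hy2
      norm_num at hy2
      linarith
  -- consequences of the bootstrap assumptions
  have core : ∀ t, t0 ≤ t → (∀ τ ∈ Set.Icc t0 t, ‖S.x τ‖ ≤ 1 / 4 * ‖S.y τ‖ ∧
      1 / 2 * R0 ≤ ‖S.y τ‖ ∧ 1 / 2 * y0 ^ 2 ≤ ‖S.yd τ‖ ^ 2) →
      (R0 ^ 2 + 1 / 4 * y0 ^ 2 * (t - t0) ^ 2 ≤ ‖S.y t‖ ^ 2 ∧ 1 / 2 * y0 ^ 2 < ‖S.yd t‖ ^ 2 ∧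
        ‖S.x t‖ ≤ R0 / 8) := by
    intro t ht hτ
    have s1 : ∀ τ ∈ Set.Icc t0 t, 1 / 4 * y0 ^ 2 * (τ - t0) ≤ dot (S.y τ) (S.yd τ) := by
      intro τ hτ'
      have := le_of_deriv hτ'.1 (f := fun s => dot (S.y s) (S.yd s) - 1 / 4 * y0 ^ 2 * (s - t0))
        (f' := fun s => dot (S.yd s) (S.yd s) + dot (S.y s) (S.ydd s) - 1 / 4 * y0 ^ 2 * 1)
        (fun s _ => (hasDerivAt_dot (S.hasy s) (S.hasyd s)).sub
          (((hasDerivAt_id s).sub_const t0).const_mul (1 / 4 * y0 ^ 2)))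
        (fun s hs => by
          obtain ⟨g1, g2, g3⟩ := hτ s ⟨hs.1, hs.2.trans hτ'.2⟩
          have hys : 0 < ‖S.y s‖ := by linarith
          have g4 := S.ydd_le g1
          have g5 := (abs_le.1 (abs_dot_le (S.y s) (S.ydd s))).1
          have g6 : ‖S.y s‖ * ‖S.ydd s‖ ≤ 4 * (MM / R0) := by
            calc ‖S.y s‖ * ‖S.ydd s‖ ≤ ‖S.y s‖ * (2 * MM / ‖S.y s‖ ^ 2) := by gcongr
              _ = 2 * MM / ‖S.y s‖ := by field_simp
              _ ≤ 2 * MM / (1 / 2 * R0) := by gcongr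
              _ = _ := by field_simp; norm_num
          rw [dot_self]
          linarith)
      rw [sub_self] at this
      linarith
    have s2 : ∀ τ ∈ Set.Icc t0 t, R0 ^ 2 + 1 / 4 * y0 ^ 2 * (τ - t0) ^ 2 ≤ ‖S.y τ‖ ^ 2 := by
      intro τ hτ'
      have := le_of_deriv hτ'.1 (f := fun s => dot (S.y s) (S.y s) -
          1 / 4 * y0 ^ 2 * (s - t0) ^ 2)
        (f' := fun s => dot (S.yd s) (S.y s) + dot (S.y s) (S.yd s) -
          1 / 4 * y0 ^ 2 * (2 * (s - t0)))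
        (fun s _ => (hasDerivAt_dot (S.hasy s) (S.hasy s)).sub
          ((((hasDerivAt_id s).sub_const t0).pow 2).const_mul (1 / 4 * y0 ^ 2) |>.congr_deriv
            (by simp)))
        (fun s hs => by
          have := s1 s ⟨hs.1, hs.2.trans hτ'.2⟩
          rw [dot_comm (S.yd s) (S.y s)]
          linarith)
      rw [sub_self, dot_self, dot_self] at this
      linarith
    have s3 : y0 ^ 2 - 7 * (MM / R0) ≤ dot (S.yd t) (S.yd t0) := by
      have := le_of_deriv ht (f := fun s => dot (S.yd s) (S.yd t0) +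
          4 * (MM / R0) * Real.arctan (y0 / (2 * R0) * (s - t0)))
        (f' := fun s => dot (S.ydd s) (S.yd t0) + 4 * (MM / R0) *
          (1 / (1 + (y0 / (2 * R0) * (s - t0)) ^ 2) * (y0 / (2 * R0))))
        (fun s _ => by
          have d1 := hasDerivAt_dot (S.hasyd s) (hasDerivAt_const s (S.yd t0))
          have d2 := (((hasDerivAt_id s).sub_const t0).const_mul (y0 / (2 * R0))).arctan
          have d3 := d1.add (d2.const_mul (4 * (MM / R0)))
          refine d3.congr_deriv ?_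
          have : dot (S.yd s) 0 = 0 := by simp [dot]
          rw [this]
          simp)
        (fun s hs => by
          obtain ⟨g1, g2, g3⟩ := hτ s ⟨hs.1, hs.2⟩
          have hys : 0 < ‖S.y s‖ := by linarith
          have g4 := S.ydd_le g1
          have g5 := (abs_le.1 (abs_dot_le (S.ydd s) (S.yd t0))).1
          have g6 := s2 s ⟨hs.1, hs.2⟩
          have g7 : ‖S.ydd s‖ * ‖S.yd t0‖ ≤ 2 * MM / ‖S.y s‖ ^ 2 * y0 := by gcongr
          have g8 : 4 * (MM / R0) * (1 / (1 + (y0 / (2 * R0) * (s - t0)) ^ 2) *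
              (y0 / (2 * R0))) = 2 * MM / (R0 ^ 2 + 1 / 4 * y0 ^ 2 * (s - t0) ^ 2) * y0 := by
            have : 1 + (y0 / (2 * R0) * (s - t0)) ^ 2 ≠ 0 := by positivity
            have : R0 ^ 2 + 1 / 4 * y0 ^ 2 * (s - t0) ^ 2 ≠ 0 := by positivity
            field_simp
            ring
          have g9 : 2 * MM / ‖S.y s‖ ^ 2 * y0 ≤
              2 * MM / (R0 ^ 2 + 1 / 4 * y0 ^ 2 * (s - t0) ^ 2) * y0 := by gcongr
          rw [g8]
          linarith)
      rw [sub_self, mul_zero, Real.arctan_zero, mul_zero, dot_self] at this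
      have a1 := Real.arctan_lt_pi_div_two (y0 / (2 * R0) * (t - t0))
      have a2 := Real.pi_lt_d2
      have a3 : 4 * (MM / R0) * Real.arctan (y0 / (2 * R0) * (t - t0)) ≤
          4 * (MM / R0) * (7 / 4) := by
        apply mul_le_mul_of_nonneg_left _ (by positivity)
        linarith
      linarith
    have s4 : y0 ^ 2 - 14 * (MM / R0) ≤ ‖S.yd t‖ ^ 2 := by
      have g1 := dot_self_nonneg (S.yd t - S.yd t0)
      rw [dot_sub_left, dot_sub_right, dot_sub_right, dot_self, dot_self,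
        dot_comm (S.yd t0) (S.yd t)] at g1
      linarith
    have s5 := s2 t ⟨ht, le_rfl⟩
    have s6 : R0 ≤ ‖S.y t‖ := by
      have : R0 ^ 2 ≤ ‖S.y t‖ ^ 2 := by
        have : 0 ≤ 1 / 4 * y0 ^ 2 * (t - t0) ^ 2 := by positivity
        linarith
      exact (abs_le_of_sq_le_sq' this (norm_nonneg _)).2
    refine ⟨s5, by linarith, ?_⟩
    apply rb
    have g1 := S.Eb_eq t
    have g2 := S.Eb_eq t0
    have g3 := S.V3_nonneg t0
    have g4 : S.V3 t ≤ 2 * (m₃ * κ / R0) := by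
      refine (S.V3_le (hτ t ⟨ht, le_rfl⟩).1).trans ?_
      have : 2 * (m₃ * κ / R0) = 2 * m₃ * κ / R0 := by ring
      rw [this]
      gcongr
    have g5 : 1 / 2 * μy * (y0 ^ 2 - 14 * (MM / R0)) ≤ 1 / 2 * μy * ‖S.yd t‖ ^ 2 := by gcongr
    have g6 : 1 / 2 * μy * (y0 ^ 2 - 14 * (MM / R0)) =
        1 / 2 * μy * y0 ^ 2 - 7 * (m₃ * κ / R0) := by
      rw [← hμM]; ring
    have g7 : μ * S.Eb t0 ≤ μ * (-(K / R0)) := mul_le_mul_of_nonneg_left hEb hμ0.le
    have g8 : μ * S.Eb t ≤ μ * (-(K / R0)) + 9 * (m₃ * κ / R0) := by linarith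
    have g9 : 9 * (m₃ * κ / R0) ≤ μ * (K / (2 * R0)) := by
      calc 9 * (m₃ * κ / R0) = 18 * (m₃ * κ) / (2 * R0) := by field_simp; norm_num
        _ ≤ μ * K / (2 * R0) := by gcongr
        _ = _ := by ring
    have g10 : K / R0 = K / (2 * R0) + K / (2 * R0) := by field_simp; norm_num
    have g11 : μ * S.Eb t ≤ μ * (-(K / (2 * R0))) := by
      rw [g10] at g8
      linarith
    exact le_of_mul_le_mul_left g11 hμ0
  have hcont : Continuous fun t => min (1 / 4 * ‖S.y t‖ - ‖S.x t‖)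
      (min (‖S.y t‖ - 1 / 2 * R0) (‖S.yd t‖ ^ 2 - 1 / 2 * y0 ^ 2)) := by
    have c1 := S.cont_x
    have c2 := S.cont_y
    have c3 := S.cont_yd
    fun_prop
  have boot := bootstrap hcont (t0 := t0) (by
      refine le_min ?_ (le_min ?_ ?_)
      · have : ‖S.y t0‖ = R0 := rfl
        rw [this]; linarith
      · have : ‖S.y t0‖ = R0 := rfl
        rw [this]; linarith
      · have : ‖S.yd t0‖ = y0 := rfl
        rw [this]
        have : 0 < y0 ^ 2 := by positivity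
        linarith) (fun t ht hτ => by
      obtain ⟨c1, c2, c3⟩ := core t ht (fun τ hτ' => by
        have := hτ τ hτ'
        obtain ⟨w1, w2⟩ := le_min_iff.1 this
        obtain ⟨w3, w4⟩ := le_min_iff.1 w2
        exact ⟨by linarith, by linarith, by linarith⟩)
      have s6 : R0 ≤ ‖S.y t‖ := by
        have : R0 ^ 2 ≤ ‖S.y t‖ ^ 2 := by
          have : 0 ≤ 1 / 4 * y0 ^ 2 * (t - t0) ^ 2 := by positivity
          linarith
        exact (abs_le_of_sq_le_sq' this (norm_nonneg _)).2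
      refine lt_min ?_ (lt_min ?_ ?_)
      · linarith
      · linarith
      · linarith)
  refine ⟨y0, hy0pos, ?_⟩
  intro t ht
  obtain ⟨c1, c2, c3⟩ := core t ht (fun τ hτ' => by
    have := boot τ hτ'.1
    obtain ⟨w1, w2⟩ := lt_min_iff.1 this
    obtain ⟨w3, w4⟩ := lt_min_iff.1 w2
    exact ⟨by linarith, by linarith, by linarith⟩)
  exact ⟨c3, c1⟩

/-- both ends are collision-free -/
def Ends : Prop := ∃ c > 0, (∀ᶠ t in atTop, S.Sep c t) ∧ (∀ᶠ t in atBot, S.Sep c t)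

lemma Ends.rev (h : S.Ends) : S.rev.Ends := by
  obtain ⟨c, hc, h1, h2⟩ := h
  refine ⟨c, hc, ?_, ?_⟩
  · have := tendsto_neg_atTop_atBot.eventually h2
    filter_upwards [this] with t ht
    exact ⟨ht.s21, ht.s32, ht.s13⟩
  · have := tendsto_neg_atBot_atTop.eventually h1
    filter_upwards [this] with t ht
    exact ⟨ht.s21, ht.s32, ht.s13⟩

lemma Ends.rot (h : S.Ends) : S.rot.Ends := by
  obtain ⟨c, hc, h1, h2⟩ := h
  refine ⟨c, hc, ?_, ?_⟩
  · filter_upwards [h1] with t ht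
    refine ⟨?_, ?_, ?_⟩
    · rw [rot_s]; exact ht.s32
    · rw [rot_s]; exact ht.s13
    · rw [rot_s]; exact ht.s21
  · filter_upwards [h2] with t ht
    refine ⟨?_, ?_, ?_⟩
    · rw [rot_s]; exact ht.s32
    · rw [rot_s]; exact ht.s13
    · rw [rot_s]; exact ht.s21

lemma s_ge (t : ℝ) : m₃ * (m₁ + m₂) / (m₁ + m₂ + m₃) * ‖S.y t‖ ^ 2 ≤ S.s t ^ 4 := by
  have h1 := S.p1
  have h2 := S.p2
  rw [s_pow, I_jac]
  have : 0 ≤ m₁ * m₂ / (m₁ + m₂) * ‖S.x t‖ ^ 2 := by positivity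
  linarith

/-- no strongly bound pair with receding third body -/
lemma no_escape {K : ℝ} (hK : Kst m₁ m₂ m₃ ≤ K) (hE : 0 < S.E) (hends : S.Ends) {t0 : ℝ}
    (hR0 : 0 < ‖S.y t0‖) (hB : 0 ≤ dot (S.y t0) (S.yd t0)) :
    -(K / ‖S.y t0‖) < S.Eb t0 := by
  by_contra hcon
  push Not at hcon
  have h1 := S.p1
  have h2 := S.p2
  have h3 := S.p3
  obtain ⟨y0, hy0, H⟩ := S.escape hK hE hR0 hcon hB
  obtain ⟨c, hc, hT, -⟩ := hends
  set μy := m₃ * (m₁ + m₂) / (m₁ + m₂ + m₃) with hμy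
  have hμy0 : 0 < μy := by positivity
  set R0 := ‖S.y t0‖
  -- a large time
  set A := c ^ 2 * μy * (1 / 4 * y0 ^ 2) with hA
  have hA0 : 0 < A := by positivity
  have hlarge : ∀ᶠ t in atTop, t0 + (R0 + 1) / Real.sqrt A ≤ t := eventually_ge_atTop _
  obtain ⟨t, ht1, ht2⟩ := (hT.and hlarge).exists
  have hsA : 0 < Real.sqrt A := Real.sqrt_pos.2 hA0
  have ht3 : t0 ≤ t := by
    have : 0 ≤ (R0 + 1) / Real.sqrt A := by positivity
    linarith
  obtain ⟨e1, e2⟩ := H t ht3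
  have e3 := ht1.s21
  have e4 := S.s_ge t
  have hs := S.s_pos t
  have e5 : c * S.s t ^ 2 ≤ R0 / 8 := e3.trans e1
  have e6 : c ^ 2 * S.s t ^ 4 ≤ (R0 / 8) ^ 2 := by
    calc c ^ 2 * S.s t ^ 4 = (c * S.s t ^ 2) ^ 2 := by ring
      _ ≤ _ := by gcongr
  have e7 : A * (t - t0) ^ 2 ≤ (R0 / 8) ^ 2 := by
    have g1 : c ^ 2 * (μy * ‖S.y t‖ ^ 2) ≤ c ^ 2 * S.s t ^ 4 := by gcongr
    have g2 : c ^ 2 * (μy * (1 / 4 * y0 ^ 2 * (t - t0) ^ 2)) ≤ c ^ 2 * (μy * ‖S.y t‖ ^ 2) := by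
      gcongr
      have : 0 ≤ R0 ^ 2 := by positivity
      linarith
    have g3 : A * (t - t0) ^ 2 = c ^ 2 * (μy * (1 / 4 * y0 ^ 2 * (t - t0) ^ 2)) := by
      rw [hA]; ring
    linarith
  have e8 : (R0 + 1) ^ 2 ≤ A * (t - t0) ^ 2 := by
    have g1 : (R0 + 1) / Real.sqrt A ≤ t - t0 := by linarith
    rw [div_le_iff₀ hsA] at g1
    have g2 : (R0 + 1) ^ 2 ≤ ((t - t0) * Real.sqrt A) ^ 2 := by gcongr
    rw [mul_pow, Real.sq_sqrt hA0.le] at g2
    linarith
  nlinarith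

/-- the pair is at most weakly bound relative to the third body -/
lemma Eb_ge {K : ℝ} (hK : Kst m₁ m₂ m₃ ≤ K) (hE : 0 < S.E) (hends : S.Ends) {t : ℝ}
    (hR0 : 0 < ‖S.y t‖) : -(K / ‖S.y t‖) < S.Eb t := by
  rcases le_total 0 (dot (S.y t) (S.yd t)) with h | h
  · exact S.no_escape hK hE hends hR0 h
  · have hE' : 0 < S.rev.E := by rw [rev_E]; exact hE
    have e1 : S.rev.y (-t) = S.y t := by
      unfold y rev; simp only [neg_neg]
    have e2 : S.rev.yd (-t) = -S.yd t := by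
      unfold yd rev; simp only [neg_neg, smul_neg]
    have := S.rev.no_escape hK hE' (Ends.rev S hends) (t0 := -t) (by rw [e1]; exact hR0)
      (by rw [e1, e2]
          have : dot (S.y t) (-S.yd t) = -dot (S.y t) (S.yd t) := by
            simp [dot]; ring
          rw [this]; linarith)
    rw [e1, Eb_rev, neg_neg] at this
    exact this

end Traj

end Pool.Agent.Work.MP_877ce7_an
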