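import Mathlib
import Pool.Agent.Work.MP_877ce7_an.B12

set_option autoImplicit false

open Filter Topology

namespace Pool.Agent.Work.MP_877ce7_an

/-- algebraic core for the inner (Kepler) angle -/
lemma kepler_ineq (c p r u h κ al be Fn : ℝ) (hr : 0 < r) (hu : 0 < u) (hh : 0 < h)
    (hc : c ^ 2 + p ^ 2 = r ^ 2 * u ^ 2) (hh1 : c ^ 2 ≤ h ^ 2)
    (hh2 : h ^ 2 ≤ c ^ 2 + r ^ 2 * u ^ 2) (hκ : 15 / 8 * (κ / r) ≤ u ^ 2)
    (hF : al ^ 2 + be ^ 2 ≤ (r * Fn) ^ 2) (hFn : 0 ≤ Fn) :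
    |c| / r ^ 2 ≤ 5 * (((u ^ 2 - κ / r + al) * h - p * (c * be / h)) / (h ^ 2 + p ^ 2)) +
      5 * (Fn / u) := by
  have hch : |c| ≤ h := by
    have : c ^ 2 ≤ h ^ 2 := hh1
    exact abs_le_of_sq_le_sq this hh.le
  have hQ : 0 < h ^ 2 + p ^ 2 := by positivity
  set Q := h ^ 2 + p ^ 2 with hQdef
  set w := Real.sqrt Q with hw
  have hw0 : 0 < w := Real.sqrt_pos.2 hQ
  have hw2 : w ^ 2 = Q := Real.sq_sqrt hQ.le
  have hruw : r * u ≤ w := by
    have : (r * u) ^ 2 ≤ w ^ 2 := by rw [hw2, hQdef]; nlinarith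
    exact (abs_le_of_sq_le_sq' this hw0.le).2
  have hQ2 : Q ≤ 2 * (r ^ 2 * u ^ 2) := by rw [hQdef]; linarith
  have E1 : |al * h - p * (c * be / h)| ≤ r * Fn * w := by
    apply abs_le_of_sq_le_sq _ (by positivity)
    have e1 : (al * h - p * (c * be / h)) ^ 2 + (al * (p * c / h) + be * h) ^ 2 =
        (al ^ 2 + be ^ 2) * (h ^ 2 + (p * c / h) ^ 2) := by
      field_simp
      ring
    have e2 : (p * c / h) ^ 2 ≤ p ^ 2 := by
      rw [div_pow, div_le_iff₀ (by positivity), mul_pow]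
      gcongr
    have e3 : (al ^ 2 + be ^ 2) * (h ^ 2 + (p * c / h) ^ 2) ≤ (r * Fn) ^ 2 * (h ^ 2 + p ^ 2) := by
      gcongr
    have e4 : (r * Fn * w) ^ 2 = (r * Fn) ^ 2 * (h ^ 2 + p ^ 2) := by
      rw [mul_pow, hw2]
    rw [e4]
    nlinarith [sq_nonneg (al * (p * c / h) + be * h)]
  have E1' := (abs_le.1 E1).1
  have E2 : 7 / 15 * u ^ 2 * h ≤ (u ^ 2 - κ / r) * h := by
    apply mul_le_mul_of_nonneg_right _ hh.le
    linarith
  have E3 : 7 / 30 * (|c| / r ^ 2) ≤ 7 / 15 * u ^ 2 * h / Q := by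
    rw [le_div_iff₀ hQ]
    have : |c| * Q ≤ h * (2 * (r ^ 2 * u ^ 2)) := by gcongr
    calc 7 / 30 * (|c| / r ^ 2) * Q = 7 / 30 * (|c| * Q) / r ^ 2 := by ring
      _ ≤ 7 / 30 * (h * (2 * (r ^ 2 * u ^ 2))) / r ^ 2 := by gcongr
      _ = 7 / 15 * u ^ 2 * h := by field_simp; norm_num
  have E4 : r * Fn * w / Q ≤ Fn / u := by
    rw [← hw2, div_le_div_iff₀ (by positivity) hu]
    calc r * Fn * w * u = Fn * w * (r * u) := by ring
      _ ≤ Fn * w * w := by gcongr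
      _ = Fn * w ^ 2 := by ring
  have E5 : 7 / 15 * u ^ 2 * h / Q - r * Fn * w / Q ≤
      ((u ^ 2 - κ / r + al) * h - p * (c * be / h)) / Q := by
    rw [← sub_div]
    apply div_le_div_of_nonneg_right _ hQ.le
    linarith
  have E6 : 0 ≤ |c| / r ^ 2 := by positivity
  linarith

/-- algebraic core for the outer angle -/
lemma jacobi_ineq (c p R u k h j al be : ℝ) (hR : 0 < R) (hk : 0 < k) (hh : 0 < h) (hj : 0 < j)
    (hj2 : j ^ 2 = k * R)
    (hc : c ^ 2 + p ^ 2 = R ^ 2 * u ^ 2) (hh1 : h ^ 2 = c ^ 2 + k * R)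
    (hF : al ^ 2 + be ^ 2 ≤ (k / R) ^ 2) :
    |c| / R ^ 2 ≤ 2 * (((u ^ 2 + al) * h - p * ((2 * c * be + k * (p / R)) / (2 * h))) /
      (h ^ 2 + p ^ 2)) + 3 * (j / R ^ 2) := by
  have hch : |c| ≤ h := by
    apply abs_le_of_sq_le_sq _ hh.le
    have : 0 < k * R := by positivity
    linarith
  have hjh : j ≤ h := by
    have : j ^ 2 ≤ h ^ 2 := by rw [hj2, hh1]; nlinarith [sq_nonneg c]
    exact (abs_le_of_sq_le_sq' this hh.le).2
  have hQ : 0 < h ^ 2 + p ^ 2 := by positivity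
  set Q := h ^ 2 + p ^ 2 with hQdef
  set w := Real.sqrt Q with hw
  have hw0 : 0 < w := Real.sqrt_pos.2 hQ
  have hw2 : w ^ 2 = Q := Real.sq_sqrt hQ.le
  have hhw : h ≤ w := by
    have : h ^ 2 ≤ w ^ 2 := by rw [hw2, hQdef]; nlinarith [sq_nonneg p]
    exact (abs_le_of_sq_le_sq' this hw0.le).2
  have E1 : |al * h - p * (c * be / h)| ≤ k / R * w := by
    apply abs_le_of_sq_le_sq _ (by positivity)
    have e1 : (al * h - p * (c * be / h)) ^ 2 + (al * (p * c / h) + be * h) ^ 2 =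
        (al ^ 2 + be ^ 2) * (h ^ 2 + (p * c / h) ^ 2) := by
      field_simp
      ring
    have e2 : (p * c / h) ^ 2 ≤ p ^ 2 := by
      rw [div_pow, div_le_iff₀ (by positivity), mul_pow]
      have : c ^ 2 ≤ h ^ 2 := by
        have : 0 < k * R := by positivity
        linarith
      gcongr
    have e3 : (al ^ 2 + be ^ 2) * (h ^ 2 + (p * c / h) ^ 2) ≤ (k / R) ^ 2 * (h ^ 2 + p ^ 2) := by
      gcongr
    have e4 : (k / R * w) ^ 2 = (k / R) ^ 2 * (h ^ 2 + p ^ 2) := by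
      rw [mul_pow, hw2]
    rw [e4]
    nlinarith [sq_nonneg (al * (p * c / h) + be * h)]
  have E1' := (abs_le.1 E1).1
  -- main term
  have hp2 : p ^ 2 = R ^ 2 * u ^ 2 - c ^ 2 := by linarith
  have hQ3 : Q = R ^ 2 * u ^ 2 + k * R := by rw [hQdef]; linarith
  have E2 : 1 / 2 * Q * h / R ^ 2 - 1 / 2 * k ^ 2 / h ≤ u ^ 2 * h - k * p ^ 2 / (2 * R * h) := by
    have e1 : u ^ 2 * h - k * p ^ 2 / (2 * R * h) - (1 / 2 * Q * h / R ^ 2 - 1 / 2 * k ^ 2 / h) =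
        1 / 2 * u ^ 2 * c ^ 2 / h := by
      rw [hQ3, hp2]
      have : c ^ 2 = h ^ 2 - k * R := by linarith
      rw [this]
      field_simp
      ring
    have e2 : 0 ≤ 1 / 2 * u ^ 2 * c ^ 2 / h := by positivity
    linarith
  have E3 : (u ^ 2 + al) * h - p * ((2 * c * be + k * (p / R)) / (2 * h)) =
      (u ^ 2 * h - k * p ^ 2 / (2 * R * h)) + (al * h - p * (c * be / h)) := by
    field_simp
    ring
  rw [E3]
  have E4 : 1 / 2 * (h / R ^ 2) - 1 / 2 * k ^ 2 / h / Q - k / R * w / Q ≤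
      ((u ^ 2 * h - k * p ^ 2 / (2 * R * h)) + (al * h - p * (c * be / h))) / Q := by
    have e1 : 1 / 2 * (h / R ^ 2) = (1 / 2 * Q * h / R ^ 2) / Q := by field_simp
    rw [e1, ← sub_div, ← sub_div]
    apply div_le_div_of_nonneg_right _ hQ.le
    linarith
  have E5 : k / R * w / Q ≤ j / R ^ 2 := by
    rw [← hw2]
    have e1 : k / R * w / w ^ 2 = k / R / w := by field_simp
    have e2 : j / R ^ 2 = k / R / j := by
      field_simp
      linarith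
    rw [e1, e2]
    apply div_le_div_of_nonneg_left (by positivity) hj
    linarith
  have E6 : 1 / 2 * k ^ 2 / h / Q ≤ 1 / 2 * (j / R ^ 2) := by
    have e1 : 1 / 2 * (j / R ^ 2) = 1 / 2 * k ^ 2 / j / (k * R) := by
      field_simp
      rw [hj2]
      ring
    rw [e1]
    have e2 : k * R ≤ Q := by rw [hQ3]; nlinarith [sq_nonneg (R * u)]
    gcongr
  have E7 : |c| / R ^ 2 ≤ h / R ^ 2 := by gcongr
  linarith

end Pool.Agent.Work.MP_877ce7_an
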