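import Mathlib
import Pool.Agent.Work.MP_877ce7_an.B13

set_option autoImplicit false

open Filter Topology

namespace Pool.Agent.Work.MP_877ce7_an

/-- conditions on the closeness parameter -/
structure Theta (m₁ m₂ m₃ θ : ℝ) : Prop where
  pos : 0 < θ
  le : θ ≤ 1 / 4
  c2 : Traj.Kst m₁ m₂ m₃ * θ ≤ (m₁ + m₂) / 16
  c3 : 32 * (m₃ * (m₁ + m₂)) * θ ≤ m₁ * m₂
  c4 : 22 * (m₁ * m₂ / (m₁ + m₂)) * θ ≤ 3 / 8 * (m₃ * (m₁ + m₂) / (m₁ + m₂ + m₃))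

lemma Theta.exists (m₁ m₂ m₃ : ℝ) (h1 : 0 < m₁) (h2 : 0 < m₂) (h3 : 0 < m₃) :
    ∃ θ, Theta m₁ m₂ m₃ θ := by
  have hK : 0 < Traj.Kst m₁ m₂ m₃ := by unfold Traj.Kst; positivity
  refine ⟨min (1 / 4) (min ((m₁ + m₂) / 16 / Traj.Kst m₁ m₂ m₃)
    (min (m₁ * m₂ / (32 * (m₃ * (m₁ + m₂))))
      (3 / 8 * (m₃ * (m₁ + m₂) / (m₁ + m₂ + m₃)) / (22 * (m₁ * m₂ / (m₁ + m₂)))))), ?_⟩
  constructor
  · positivity
  · exact min_le_left _ _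
  · rw [mul_comm, ← le_div_iff₀ hK]
    exact (min_le_right _ _).trans (min_le_left _ _)
  · rw [mul_comm, ← le_div_iff₀ (by positivity)]
    exact (min_le_right _ _).trans ((min_le_right _ _).trans (min_le_left _ _))
  · rw [mul_comm, ← le_div_iff₀ (by positivity)]
    exact (min_le_right _ _).trans ((min_le_right _ _).trans (min_le_right _ _))

namespace Traj

variable {m₁ m₂ m₃ : ℝ} (S : Traj m₁ m₂ m₃)

noncomputable def cx (t : ℝ) : ℝ := crs (S.x t) (S.xd t)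
noncomputable def px (t : ℝ) : ℝ := dot (S.x t) (S.xd t)
noncomputable def cy (t : ℝ) : ℝ := crs (S.y t) (S.yd t)
noncomputable def py (t : ℝ) : ℝ := dot (S.y t) (S.yd t)

/-- perturbing force in the pair -/
noncomputable def Fp (t : ℝ) : ℂ :=
  S.a₂ t - S.a₁ t + ((m₁ + m₂) / ‖S.x t‖ ^ 3) • S.x t

lemma Fp_eq (t : ℝ) : S.Fp t = (m₃ / ‖S.q₃ t - S.q₂ t‖ ^ 3) • (S.q₃ t - S.q₂ t) -
    (m₃ / ‖S.q₃ t - S.q₁ t‖ ^ 3) • (S.q₃ t - S.q₁ t) := by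
  unfold Fp a₁ a₂ x
  rw [norm_sub_rev (S.q₁ t) (S.q₂ t)]
  have e : S.q₁ t - S.q₂ t = -(S.q₂ t - S.q₁ t) := by abel
  rw [e, add_div, add_smul, smul_neg]
  abel

lemma Fp_le {t : ℝ} (h : ‖S.x t‖ ≤ 1 / 4 * ‖S.y t‖) : ‖S.Fp t‖ ≤ 4 * m₃ / ‖S.y t‖ ^ 2 := by
  have h3 := S.p3
  obtain ⟨n1, n2⟩ := S.near_bounds h
  have hx : 0 < ‖S.x t‖ := norm_pos_iff.2 (S.d21_ne t)
  have hy : 0 < ‖S.y t‖ := by linarith
  have key : ∀ (m : ℝ) (d : ℂ), 0 < m → 3 / 4 * ‖S.y t‖ ≤ ‖d‖ →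
      ‖(m / ‖d‖ ^ 3) • d‖ ≤ m * (16 / 9 / ‖S.y t‖ ^ 2) := by
    intro m d hm hd
    have hd0 : 0 < ‖d‖ := by linarith
    rw [norm_smul, Real.norm_of_nonneg (by positivity)]
    have e1 : m / ‖d‖ ^ 3 * ‖d‖ = m * (1 / ‖d‖ ^ 2) := by field_simp
    rw [e1]
    apply mul_le_mul_of_nonneg_left _ hm.le
    have e2 : (16 : ℝ) / 9 / ‖S.y t‖ ^ 2 = 1 / (3 / 4 * ‖S.y t‖) ^ 2 := by
      field_simp
      norm_num
    rw [e2]
    apply one_div_le_one_div_of_le (by positivity)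
    gcongr
  rw [Fp_eq]
  refine (norm_sub_le _ _).trans ?_
  have g1 := key m₃ _ h3 n1
  have g2 := key m₃ (S.q₃ t - S.q₁ t) h3 (by rw [norm_sub_rev]; exact n2)
  have e3 : m₃ * (16 / 9 / ‖S.y t‖ ^ 2) + m₃ * (16 / 9 / ‖S.y t‖ ^ 2) =
    (32 / 9) * m₃ / ‖S.y t‖ ^ 2 := by ring
  refine (add_le_add g1 g2).trans (e3.le.trans ?_)
  gcongr
  norm_num

lemma x_pos (t : ℝ) : 0 < ‖S.x t‖ := norm_pos_iff.2 (S.d21_ne t)

lemma acc_eq (t : ℝ) : S.a₂ t - S.a₁ t = S.Fp t - ((m₁ + m₂) / ‖S.x t‖ ^ 3) • S.x t := by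
  unfold Fp; abel

lemma haspx (t : ℝ) : HasDerivAt S.px
    (‖S.xd t‖ ^ 2 - (m₁ + m₂) / ‖S.x t‖ + dot (S.x t) (S.Fp t)) t := by
  refine (hasDerivAt_dot (S.hasx t) (S.hasxd t)).congr_deriv ?_
  have hx := (S.x_pos t).ne'
  rw [acc_eq, dot_sub_right, dot_smul_right, dot_self, dot_self]
  field_simp
  ring

lemma hascx (t : ℝ) : HasDerivAt S.cx (crs (S.x t) (S.Fp t)) t := by
  refine (hasDerivAt_crs (S.hasx t) (S.hasxd t)).congr_deriv ?_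
  rw [acc_eq, crs_self]
  unfold crs
  simp only [Complex.sub_re, Complex.sub_im, Complex.real_smul, Complex.mul_re, Complex.mul_im,
    Complex.ofReal_re, Complex.ofReal_im]
  ring

noncomputable def Tx (ε t : ℝ) : ℝ := Real.arctan (S.px t / Real.sqrt (S.cx t ^ 2 + ε ^ 2))

noncomputable def Txd (ε t : ℝ) : ℝ :=
  ((‖S.xd t‖ ^ 2 - (m₁ + m₂) / ‖S.x t‖ + dot (S.x t) (S.Fp t)) *
    Real.sqrt (S.cx t ^ 2 + ε ^ 2) - S.px t * (S.cx t * crs (S.x t) (S.Fp t) /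
      Real.sqrt (S.cx t ^ 2 + ε ^ 2))) / (Real.sqrt (S.cx t ^ 2 + ε ^ 2) ^ 2 + S.px t ^ 2)

lemma hasTx {ε : ℝ} (hε : 0 < ε) (t : ℝ) : HasDerivAt (S.Tx ε) (S.Txd ε t) t := by
  have h0 : 0 < S.cx t ^ 2 + ε ^ 2 := by positivity
  have h1 := (((S.hascx t).pow 2).add_const (ε ^ 2)).sqrt h0.ne'
  have h2 := ((S.haspx t).div h1 (Real.sqrt_pos.2 h0).ne').arctan
  refine h2.congr_deriv ?_
  unfold Txd
  simp only [Pi.div_apply, Pi.pow_apply, Nat.cast_ofNat, Nat.add_one_sub_one, pow_one]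
  set h := Real.sqrt (S.cx t ^ 2 + ε ^ 2) with hh
  have hpos : 0 < h := Real.sqrt_pos.2 h0
  have g1 : 1 + (S.px t / h) ^ 2 ≠ 0 := by positivity
  have g2 : h ^ 2 + S.px t ^ 2 ≠ 0 := by positivity
  field_simp

noncomputable def Ty (k t : ℝ) : ℝ := Real.arctan (S.py t / Real.sqrt (S.cy t ^ 2 + k * ‖S.y t‖))

noncomputable def Tyd (k t : ℝ) : ℝ :=
  ((‖S.yd t‖ ^ 2 + dot (S.y t) (S.ydd t)) * Real.sqrt (S.cy t ^ 2 + k * ‖S.y t‖) -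
    S.py t * ((2 * S.cy t * crs (S.y t) (S.ydd t) + k * (S.py t / ‖S.y t‖)) /
      (2 * Real.sqrt (S.cy t ^ 2 + k * ‖S.y t‖)))) /
        (Real.sqrt (S.cy t ^ 2 + k * ‖S.y t‖) ^ 2 + S.py t ^ 2)

lemma hasTy {k : ℝ} (hk : 0 < k) (t : ℝ) (hy : 0 < ‖S.y t‖) :
    HasDerivAt (S.Ty k) (S.Tyd k t) t := by
  have h0 : 0 < S.cy t ^ 2 + k * ‖S.y t‖ := by positivity
  have d1 : HasDerivAt S.cy (crs (S.y t) (S.ydd t)) t := by
    refine (hasDerivAt_crs (S.hasy t) (S.hasyd t)).congr_deriv ?_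
    rw [crs_self, zero_add]
  have d2 : HasDerivAt S.py (‖S.yd t‖ ^ 2 + dot (S.y t) (S.ydd t)) t := by
    refine (hasDerivAt_dot (S.hasy t) (S.hasyd t)).congr_deriv ?_
    rw [dot_self]
  have d3 := (hasDerivAt_norm (S.hasy t) (norm_pos_iff.1 hy)).const_mul k
  have h1 := ((d1.pow 2).add d3).sqrt h0.ne'
  have h2 := (d2.div h1 (Real.sqrt_pos.2 h0).ne').arctan
  refine h2.congr_deriv ?_
  unfold Tyd
  simp only [Pi.div_apply, Pi.pow_apply, Pi.add_apply, Nat.cast_ofNat, Nat.add_one_sub_one, pow_one]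
  have e : dot (S.y t) (S.yd t) = S.py t := rfl
  rw [e]
  set h := Real.sqrt (S.cy t ^ 2 + k * ‖S.y t‖) with hh
  have hpos : 0 < h := Real.sqrt_pos.2 h0
  have g1 : 1 + (S.py t / h) ^ 2 ≠ 0 := by positivity
  have g2 : h ^ 2 + S.py t ^ 2 ≠ 0 := by positivity
  field_simp

lemma J_jac (t : ℝ) : S.J t = m₁ * m₂ / (m₁ + m₂) * dot (S.x t) (S.xd t) +
    m₃ * (m₁ + m₂) / (m₁ + m₂ + m₃) * dot (S.y t) (S.yd t) := by
  have h := S.comv t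
  have h' := S.sol.com t
  have hk := S.kpos.ne'
  have hM := S.Mpos.ne'
  have h1 := congrArg Complex.re h
  have h2 := congrArg Complex.im h
  have h3 := congrArg Complex.re h'
  have h4 := congrArg Complex.im h'
  simp only [Complex.add_re, Complex.add_im, Complex.real_smul, Complex.mul_re, Complex.mul_im,
    Complex.ofReal_re, Complex.ofReal_im, Complex.zero_re, Complex.zero_im] at h1 h2 h3 h4
  unfold J y yd x xd dot
  simp only [Complex.sub_re, Complex.sub_im, Complex.real_smul, Complex.mul_re, Complex.mul_im,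
      Complex.ofReal_re, Complex.ofReal_im]
  field_simp
  linear_combination (m₁ + m₂ + m₃) * (m₁ * (S.q₁ t).re + m₂ * (S.q₂ t).re) *
    h1 + (m₁ + m₂ + m₃) * (m₁ * (S.q₁ t).im + m₂ * (S.q₂ t).im) * h2 -
    (m₁ + m₂ + m₃) * (m₃ * (S.v₃ t).re) * h3 - (m₁ + m₂ + m₃) * (m₃ * (S.v₃ t).im) * h4

lemma A_ge (t : ℝ) : m₁ * m₂ / (m₁ + m₂) * ‖S.xd t - S.lam t • S.x t‖ ^ 2 ≤ S.A t := by
  have h1 := S.p1
  have h2 := S.p2
  have h3 := S.p3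
  have hI := (S.I_pos t).ne'
  have h : S.A t = m₁ * m₂ / (m₁ + m₂) * ‖S.xd t - S.lam t • S.x t‖ ^ 2 +
    m₃ * (m₁ + m₂) / (m₁ + m₂ + m₃) * ‖S.yd t - S.lam t • S.y t‖ ^ 2 := by
    have e : S.A t = S.T t - 2 * S.lam t * S.J t + S.lam t ^ 2 * S.I t := by
      unfold A lam; field_simp; ring
    rw [e, T_jac, J_jac, I_jac, ← dot_self, ← dot_self, ← dot_self, ← dot_self, ← dot_self,
      ← dot_self]
    generalize S.lam t = l
    simp only [dot_sub_left, dot_sub_right, dot_smul_left, dot_smul_right]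
    rw [dot_comm (S.xd t) (S.x t), dot_comm (S.yd t) (S.y t)]
    ring
  rw [h]
  have : 0 ≤ m₃ * (m₁ + m₂) / (m₁ + m₂ + m₃) * ‖S.yd t - S.lam t • S.y t‖ ^ 2 := by positivity
  linarith

end Traj

end Pool.Agent.Work.MP_877ce7_an
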