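import Mathlib
import Pool.Agent.Work.MP_877ce7_an.B14

set_option autoImplicit false

open Filter Topology

namespace Pool.Agent.Work.MP_877ce7_an

namespace Traj

variable {m₁ m₂ m₃ : ℝ} (S : Traj m₁ m₂ m₃)

/-- pair `(1,2)` close compared with the distance of the third body -/
def Near (θ t : ℝ) : Prop := ‖S.x t‖ ≤ θ * ‖S.y t‖

lemma Near.y_pos {S : Traj m₁ m₂ m₃} {θ t : ℝ} (hθ : 0 < θ) (h : S.Near θ t) : 0 < ‖S.y t‖ := by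
  have hx := S.x_pos t
  by_contra hcon
  push Not at hcon
  have h1 : ‖S.x t‖ ≤ θ * ‖S.y t‖ := h
  nlinarith

lemma Near.quarter {S : Traj m₁ m₂ m₃} {θ t : ℝ} (hθ : θ ≤ 1 / 4) (h : S.Near θ t) :
    ‖S.x t‖ ≤ 1 / 4 * ‖S.y t‖ :=
  h.trans (mul_le_mul_of_nonneg_right hθ (norm_nonneg _))

lemma xd_ge {θ t : ℝ} (hθ : Theta m₁ m₂ m₃ θ) (hE : 0 < S.E) (hends : S.Ends) (h : S.Near θ t) :
    15 / 8 * ((m₁ + m₂) / ‖S.x t‖) ≤ ‖S.xd t‖ ^ 2 := by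
  have h1 := S.p1
  have h2 := S.p2
  have h3 := S.p3
  have hx := S.x_pos t
  have hy := h.y_pos hθ.pos
  have hK : 0 < Kst m₁ m₂ m₃ := by unfold Kst; positivity
  have e1 := S.Eb_ge (le_refl (Kst m₁ m₂ m₃)) hE hends hy
  have e2 : Kst m₁ m₂ m₃ / ‖S.y t‖ ≤ (m₁ + m₂) / 16 / ‖S.x t‖ := by
    rw [div_le_div_iff₀ hy hx]
    calc Kst m₁ m₂ m₃ * ‖S.x t‖ ≤ Kst m₁ m₂ m₃ * (θ * ‖S.y t‖) := by
          have : ‖S.x t‖ ≤ θ * ‖S.y t‖ := h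
          gcongr
      _ = (Kst m₁ m₂ m₃ * θ) * ‖S.y t‖ := by ring
      _ ≤ (m₁ + m₂) / 16 * ‖S.y t‖ := by
          have := hθ.c2
          gcongr
  unfold Eb at e1
  have e3 : (m₁ + m₂) / 16 / ‖S.x t‖ = 1 / 16 * ((m₁ + m₂) / ‖S.x t‖) := by ring
  rw [e3] at e2
  linarith

lemma s4_le {θ t : ℝ} (hθ : Theta m₁ m₂ m₃ θ) (h : S.Near θ t) :
    S.s t ^ 4 ≤ 2 * (m₃ * (m₁ + m₂) / (m₁ + m₂ + m₃)) * ‖S.y t‖ ^ 2 := by
  have h1 := S.p1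
  have h2 := S.p2
  have h3 := S.p3
  have hx := S.x_pos t
  rw [s_pow, I_jac]
  have e1 : ‖S.x t‖ ^ 2 ≤ θ * ‖S.y t‖ ^ 2 := by
    have e2 : ‖S.x t‖ ^ 2 ≤ (θ * ‖S.y t‖) ^ 2 := pow_le_pow_left₀ hx.le h 2
    have e3 : θ ^ 2 ≤ θ := by
      have := hθ.pos
      have := hθ.le
      nlinarith
    calc ‖S.x t‖ ^ 2 ≤ θ ^ 2 * ‖S.y t‖ ^ 2 := by rw [← mul_pow]; exact e2
      _ ≤ θ * ‖S.y t‖ ^ 2 := by gcongr
  have e4 := hθ.c4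
  set μ := m₁ * m₂ / (m₁ + m₂) with hμ
  set μy := m₃ * (m₁ + m₂) / (m₁ + m₂ + m₃) with hμy
  have hμ0 : 0 < μ := by positivity
  have hμy0 : 0 < μy := by positivity
  have e5 : μ * ‖S.x t‖ ^ 2 ≤ μ * (θ * ‖S.y t‖ ^ 2) := by gcongr
  have e6 : μ * θ ≤ μy := by
    have : 0 < μ * θ := mul_pos hμ0 hθ.pos
    nlinarith
  have e7 : μ * θ * ‖S.y t‖ ^ 2 ≤ μy * ‖S.y t‖ ^ 2 := by gcongr
  linarith

/-- in the near region the shape velocity is large unless the total energy dominates -/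
lemma A_or_E {θ t : ℝ} (hθ : Theta m₁ m₂ m₃ θ) (hE : 0 < S.E) (hends : S.Ends)
    (h : S.Near θ t) : 1 / 2 * S.U t ≤ S.A t ∨ 10 * S.U t ≤ S.E := by
  by_cases hc : 10 * S.U t ≤ S.E
  · exact Or.inr hc
  left
  push Not at hc
  have h1 := S.p1
  have h2 := S.p2
  have h3 := S.p3
  have hx := S.x_pos t
  have hy := h.y_pos hθ.pos
  have hI := S.I_pos t
  set μ := m₁ * m₂ / (m₁ + m₂) with hμ
  set μy := m₃ * (m₁ + m₂) / (m₁ + m₂ + m₃) with hμy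
  have hμ0 : 0 < μ := by positivity
  have hμy0 : 0 < μy := by positivity
  have hU0 := S.U_nonneg t
  have e1 := S.xd_ge hθ hE hends h
  -- U is essentially the pair potential
  have e2 : S.U t ≤ 17 / 16 * (m₁ * m₂ / ‖S.x t‖) := by
    have g1 := S.V3_le (h.quarter hθ.le)
    have g2 : S.U t = m₁ * m₂ * (1 / ‖S.x t‖) + S.V3 t := by
      unfold U V3 x; ring
    have g3 : 2 * m₃ * (m₁ + m₂) / ‖S.y t‖ ≤ 1 / 16 * (m₁ * m₂ / ‖S.x t‖) := by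
      have g4 : 1 / 16 * (m₁ * m₂ / ‖S.x t‖) = (1 / 16 * (m₁ * m₂)) / ‖S.x t‖ := by ring
      rw [g4, div_le_div_iff₀ hy hx]
      calc 2 * m₃ * (m₁ + m₂) * ‖S.x t‖ ≤ 2 * m₃ * (m₁ + m₂) * (θ * ‖S.y t‖) := by
            have : ‖S.x t‖ ≤ θ * ‖S.y t‖ := h
            gcongr
        _ = 1 / 16 * (32 * (m₃ * (m₁ + m₂)) * θ) * ‖S.y t‖ := by ring
        _ ≤ 1 / 16 * (m₁ * m₂) * ‖S.y t‖ := by
            have := hθ.c3
            gcongr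
    have g5 : m₁ * m₂ * (1 / ‖S.x t‖) = m₁ * m₂ / ‖S.x t‖ := by ring
    rw [g2, g5]
    linarith
  have e3 : 30 / 17 * S.U t ≤ μ * ‖S.xd t‖ ^ 2 := by
    have g1 : μ * (15 / 8 * ((m₁ + m₂) / ‖S.x t‖)) = 15 / 8 * (m₁ * m₂ / ‖S.x t‖) := by
      rw [hμ]; field_simp
    have g2 : μ * (15 / 8 * ((m₁ + m₂) / ‖S.x t‖)) ≤ μ * ‖S.xd t‖ ^ 2 := by gcongr
    rw [g1] at g2
    linarith
  -- the radial part of the velocity
  have e4 : S.lam t ^ 2 * S.I t ≤ S.T t := by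
    have g1 := S.A_nonneg t
    have g2 : S.A t = S.T t - S.lam t ^ 2 * S.I t := by
      unfold A lam; field_simp
    linarith
  have e5 : S.T t ≤ 22 * S.U t := by
    have := S.energy t
    linarith
  have e6 : μ * (S.lam t ^ 2 * ‖S.x t‖ ^ 2) ≤ 3 / 8 * S.U t := by
    have g1 : ‖S.x t‖ ^ 2 ≤ θ * ‖S.y t‖ ^ 2 := by
      have e2 : ‖S.x t‖ ^ 2 ≤ (θ * ‖S.y t‖) ^ 2 := pow_le_pow_left₀ hx.le h 2
      have e3 : θ ^ 2 ≤ θ := by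
        have := hθ.pos
        have := hθ.le
        nlinarith
      calc ‖S.x t‖ ^ 2 ≤ θ ^ 2 * ‖S.y t‖ ^ 2 := by rw [← mul_pow]; exact e2
        _ ≤ θ * ‖S.y t‖ ^ 2 := by gcongr
    have g2 : μy * ‖S.y t‖ ^ 2 ≤ S.I t := by
      rw [I_jac]
      have : 0 ≤ μ * ‖S.x t‖ ^ 2 := by positivity
      linarith
    have g3 : μy * (μ * (S.lam t ^ 2 * ‖S.x t‖ ^ 2)) ≤ μy * (3 / 8 * S.U t) := by
      have hθ0 := hθ.pos
      calc μy * (μ * (S.lam t ^ 2 * ‖S.x t‖ ^ 2)) ≤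
            μy * (μ * (S.lam t ^ 2 * (θ * ‖S.y t‖ ^ 2))) := by gcongr
        _ = μ * θ * (S.lam t ^ 2 * (μy * ‖S.y t‖ ^ 2)) := by ring
        _ ≤ μ * θ * (S.lam t ^ 2 * S.I t) := by gcongr
        _ ≤ μ * θ * (22 * S.U t) := by
            have := e4.trans e5
            gcongr
        _ = (22 * μ * θ) * S.U t := by ring
        _ ≤ (3 / 8 * μy) * S.U t := by
            have := hθ.c4
            gcongr
        _ = _ := by ring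
    exact le_of_mul_le_mul_left g3 hμy0
  have e7 := S.A_ge t
  have e8 : ‖S.xd t‖ ^ 2 ≤ 2 * ‖S.xd t - S.lam t • S.x t‖ ^ 2 + 2 * (S.lam t ^ 2 * ‖S.x t‖ ^ 2) := by
    have g1 : ‖S.xd t‖ ≤ ‖S.xd t - S.lam t • S.x t‖ + ‖S.lam t • S.x t‖ := by
      have := norm_add_le (S.xd t - S.lam t • S.x t) (S.lam t • S.x t)
      rwa [sub_add_cancel] at this
    have g2 : ‖S.lam t • S.x t‖ ^ 2 = S.lam t ^ 2 * ‖S.x t‖ ^ 2 := by
      rw [norm_smul, mul_pow, Real.norm_eq_abs, sq_abs]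
    rw [← g2]
    have g3 : ‖S.xd t‖ ^ 2 ≤ (‖S.xd t - S.lam t • S.x t‖ + ‖S.lam t • S.x t‖) ^ 2 := by gcongr
    nlinarith [sq_nonneg (‖S.xd t - S.lam t • S.x t‖ - ‖S.lam t • S.x t‖)]
  have e9 : μ * ‖S.xd t‖ ^ 2 ≤ 2 * (μ * ‖S.xd t - S.lam t • S.x t‖ ^ 2) +
      2 * (μ * (S.lam t ^ 2 * ‖S.x t‖ ^ 2)) := by
    calc μ * ‖S.xd t‖ ^ 2 ≤ μ * (2 * ‖S.xd t - S.lam t • S.x t‖ ^ 2 +
          2 * (S.lam t ^ 2 * ‖S.x t‖ ^ 2)) := by gcongr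
      _ = _ := by ring
  linarith

/-- lower bound for `f` in the near region -/
noncomputable def fmin (m₁ m₂ m₃ : ℝ) : ℝ :=
  Real.sqrt (m₃ * (m₁ + m₂) / (m₁ + m₂ + m₃)) * (m₁ * m₂)

lemma f_ge {θ t : ℝ} (hθ : Theta m₁ m₂ m₃ θ) (h : S.Near θ t) : fmin m₁ m₂ m₃ ≤ S.f t := by
  have h1 := S.p1
  have h2 := S.p2
  have h3 := S.p3
  have hx := S.x_pos t
  have hy := h.y_pos hθ.pos
  have hs := S.s_pos t
  set μy := m₃ * (m₁ + m₂) / (m₁ + m₂ + m₃) with hμy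
  have hμy0 : 0 < μy := by positivity
  have e1 : Real.sqrt μy * ‖S.y t‖ ≤ S.s t ^ 2 := by
    have g1 := S.s_ge t
    have g2 : (Real.sqrt μy * ‖S.y t‖) ^ 2 ≤ (S.s t ^ 2) ^ 2 := by
      rw [mul_pow, Real.sq_sqrt hμy0.le]
      calc μy * ‖S.y t‖ ^ 2 ≤ S.s t ^ 4 := g1
        _ = _ := by ring
    exact (abs_le_of_sq_le_sq' g2 (by positivity)).2
  have e2 : ‖S.x t‖ ≤ ‖S.y t‖ := by
    have := h.quarter hθ.le
    linarith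
  have e3 : m₁ * m₂ * (1 / ‖S.x t‖) ≤ S.U t := by
    have g2 : S.U t = m₁ * m₂ * (1 / ‖S.x t‖) + S.V3 t := by
      unfold U V3 x; ring
    have := S.V3_nonneg t
    linarith
  unfold f fmin
  calc Real.sqrt μy * (m₁ * m₂) = Real.sqrt μy * ‖S.x t‖ * (m₁ * m₂ * (1 / ‖S.x t‖)) := by
        field_simp
    _ ≤ Real.sqrt μy * ‖S.y t‖ * (m₁ * m₂ * (1 / ‖S.x t‖)) := by gcongr
    _ ≤ S.s t ^ 2 * S.U t := by gcongr

/-- clock for the near region -/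
noncomputable def P (a t : ℝ) : ℝ := Real.arctan (S.V t / a) / a

noncomputable def Pd (a t : ℝ) : ℝ := ((S.E + 1 / 2 * S.A t) / S.s t) / (a ^ 2 + S.V t ^ 2)

lemma hasP {a : ℝ} (ha : 0 < a) (t : ℝ) : HasDerivAt (S.P a) (S.Pd a t) t := by
  have h := (((S.hasV t).div_const a).arctan).div_const a
  refine h.congr_deriv ?_
  unfold Pd
  have hs := (S.s_pos t).ne'
  have g1 : 1 + (S.V t / a) ^ 2 ≠ 0 := by positivity
  have g2 : a ^ 2 + S.V t ^ 2 ≠ 0 := by positivity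
  field_simp

lemma inv_s3 {θ t a : ℝ} (hθ : Theta m₁ m₂ m₃ θ) (hE : 0 < S.E) (hends : S.Ends)
    (h : S.Near θ t) (ha : 0 < a) (ha2 : a ^ 2 = 2 * fmin m₁ m₂ m₃) :
    1 / S.s t ^ 3 ≤ 16 * S.Pd a t := by
  have hs := S.s_pos t
  have hA := S.A_nonneg t
  have e1 := S.f_ge hθ h
  have e2 := S.sum_eq t
  have e3 : 1 / 4 * (S.E * S.s t ^ 2 + S.f t) ≤ S.E * S.s t ^ 2 + 1 / 2 * (S.s t ^ 2 * S.A t) := by
    have g0 : 0 < S.E * S.s t ^ 2 := by positivity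
    have g4 : 0 ≤ S.s t ^ 2 * S.A t := by positivity
    rcases S.A_or_E hθ hE hends h with hc | hc
    · have g1 : 1 / 2 * S.f t ≤ S.s t ^ 2 * S.A t := by
        unfold f
        calc 1 / 2 * (S.s t ^ 2 * S.U t) = S.s t ^ 2 * (1 / 2 * S.U t) := by ring
          _ ≤ _ := by gcongr
      linarith
    · have g1 : 10 * S.f t ≤ S.E * S.s t ^ 2 := by
        unfold f
        calc 10 * (S.s t ^ 2 * S.U t) = S.s t ^ 2 * (10 * S.U t) := by ring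
          _ ≤ S.s t ^ 2 * S.E := by gcongr
          _ = _ := by ring
      linarith
  have e4 : S.V t ^ 2 ≤ 2 * (S.E * S.s t ^ 2 + S.f t) := by
    have : 0 ≤ (S.s t * Real.sqrt (S.A t)) ^ 2 := by positivity
    linarith
  have e5 : 1 / 16 * (a ^ 2 + S.V t ^ 2) ≤ S.E * S.s t ^ 2 + 1 / 2 * (S.s t ^ 2 * S.A t) := by
    have g0 : 0 < S.E * S.s t ^ 2 := by positivity
    rw [ha2]
    linarith
  have e6 : S.Pd a t = (S.E * S.s t ^ 2 + 1 / 2 * (S.s t ^ 2 * S.A t)) / (a ^ 2 + S.V t ^ 2) *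
      (1 / S.s t ^ 3) := by
    unfold Pd
    have g2 : a ^ 2 + S.V t ^ 2 ≠ 0 := by positivity
    field_simp
  rw [e6]
  have e7 : 1 / 16 ≤ (S.E * S.s t ^ 2 + 1 / 2 * (S.s t ^ 2 * S.A t)) / (a ^ 2 + S.V t ^ 2) := by
    rw [le_div_iff₀ (by positivity)]
    exact e5
  have e8 : 0 < 1 / S.s t ^ 3 := by positivity
  nlinarith

/-- conversion constant -/
noncomputable def Q0 (m₁ m₂ m₃ k : ℝ) : ℝ :=
  Real.sqrt (Real.sqrt ((2 * (m₃ * (m₁ + m₂) / (m₁ + m₂ + m₃))) ^ 3 * k ^ 2))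

lemma conv {θ t k : ℝ} (hθ : Theta m₁ m₂ m₃ θ) (h : S.Near θ t) (hk : 0 < k) :
    Real.sqrt (k * ‖S.y t‖) / ‖S.y t‖ ^ 2 ≤ Q0 m₁ m₂ m₃ k * (1 / S.s t ^ 3) := by
  have h1 := S.p1
  have h2 := S.p2
  have h3 := S.p3
  have hs := S.s_pos t
  have hy := h.y_pos hθ.pos
  have e1 := S.s4_le hθ h
  set μy := m₃ * (m₁ + m₂) / (m₁ + m₂ + m₃) with hμy
  have hμy0 : 0 < μy := by positivity
  have hQ : 0 ≤ Q0 m₁ m₂ m₃ k := Real.sqrt_nonneg _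
  have hQ4 : Q0 m₁ m₂ m₃ k ^ 4 = (2 * μy) ^ 3 * k ^ 2 := by
    have : Q0 m₁ m₂ m₃ k ^ 4 = (Q0 m₁ m₂ m₃ k ^ 2) ^ 2 := by ring
    rw [this]
    unfold Q0
    rw [Real.sq_sqrt (Real.sqrt_nonneg _), Real.sq_sqrt (by positivity)]
  set j := Real.sqrt (k * ‖S.y t‖) with hj
  have hj2 : j ^ 2 = k * ‖S.y t‖ := Real.sq_sqrt (by positivity)
  have hj0 : 0 ≤ j := Real.sqrt_nonneg _
  rw [mul_one_div, div_le_div_iff₀ (by positivity) (by positivity)]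
  have e2 : (j * S.s t ^ 3) ^ 4 ≤ (Q0 m₁ m₂ m₃ k * ‖S.y t‖ ^ 2) ^ 4 := by
    calc (j * S.s t ^ 3) ^ 4 = (j ^ 2) ^ 2 * (S.s t ^ 4) ^ 3 := by ring
      _ ≤ (j ^ 2) ^ 2 * (2 * μy * ‖S.y t‖ ^ 2) ^ 3 := by gcongr
      _ = (k * ‖S.y t‖) ^ 2 * (2 * μy * ‖S.y t‖ ^ 2) ^ 3 := by rw [hj2]
      _ = ((2 * μy) ^ 3 * k ^ 2) * (‖S.y t‖ ^ 2) ^ 4 := by ring
      _ = _ := by rw [← hQ4]; ring
  exact (pow_le_pow_iff_left₀ (by positivity) (by positivity) (by norm_num)).1 e2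

/-- total constant -/
noncomputable def Qc (m₁ m₂ m₃ : ℝ) : ℝ :=
  16 * (20 * m₃ * Q0 m₁ m₂ m₃ (1 / (m₁ + m₂)) + 3 * Q0 m₁ m₂ m₃ (2 * (m₁ + m₂ + m₃)))

noncomputable def G (ε a t : ℝ) : ℝ :=
  5 * S.Tx ε t + 2 * S.Ty (2 * (m₁ + m₂ + m₃)) t + Qc m₁ m₂ m₃ * S.P a t

noncomputable def Gd (ε a t : ℝ) : ℝ :=
  5 * S.Txd ε t + 2 * S.Tyd (2 * (m₁ + m₂ + m₃)) t + Qc m₁ m₂ m₃ * S.Pd a t

lemma hasG {ε a t : ℝ} (hε : 0 < ε) (ha : 0 < a) (hy : 0 < ‖S.y t‖) :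
    HasDerivAt (S.G ε a) (S.Gd ε a t) t := by
  have hM := S.Mpos
  exact (((S.hasTx hε t).const_mul 5).add ((S.hasTy (by positivity) t hy).const_mul 2)).add
    ((S.hasP ha t).const_mul _)

lemma Gd_ge {θ t ε a : ℝ} (hθ : Theta m₁ m₂ m₃ θ) (hE : 0 < S.E) (hends : S.Ends)
    (h : S.Near θ t) (hε : 0 < ε) (hε2 : ε ^ 2 ≤ ‖S.x t‖ ^ 2 * ‖S.xd t‖ ^ 2)
    (ha : 0 < a) (ha2 : a ^ 2 = 2 * fmin m₁ m₂ m₃) :
    |S.cx t| / ‖S.x t‖ ^ 2 + |S.cy t| / ‖S.y t‖ ^ 2 ≤ S.Gd ε a t := by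
  have h1 := S.p1
  have h2 := S.p2
  have h3 := S.p3
  have hk := S.kpos
  have hM := S.Mpos
  have hs := S.s_pos t
  have hx := S.x_pos t
  have hy := h.y_pos hθ.pos
  have hxd := S.xd_ge hθ hE hends h
  have hu : 0 < ‖S.xd t‖ := by
    by_contra hcon
    push Not at hcon
    have : ‖S.xd t‖ = 0 := le_antisymm hcon (norm_nonneg _)
    rw [this] at hxd
    have : 0 < (m₁ + m₂) / ‖S.x t‖ := by positivity
    norm_num at hxd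
    linarith
  -- inner
  have E1 := kepler_ineq (S.cx t) (S.px t) ‖S.x t‖ ‖S.xd t‖ (Real.sqrt (S.cx t ^ 2 + ε ^ 2))
    (m₁ + m₂) (dot (S.x t) (S.Fp t)) (crs (S.x t) (S.Fp t)) ‖S.Fp t‖ hx hu
    (Real.sqrt_pos.2 (by positivity)) (by
      have := dot_sq_add_crs_sq (S.x t) (S.xd t)
      rw [dot_self, dot_self] at this
      unfold cx px
      linarith) (by
      rw [Real.sq_sqrt (by positivity)]
      nlinarith) (by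
      rw [Real.sq_sqrt (by positivity)]
      linarith) hxd (by
      have := dot_sq_add_crs_sq (S.x t) (S.Fp t)
      rw [dot_self, dot_self] at this
      rw [mul_pow]
      exact this.le) (norm_nonneg _)
  have E2 := jacobi_ineq (S.cy t) (S.py t) ‖S.y t‖ ‖S.yd t‖ (2 * (m₁ + m₂ + m₃))
    (Real.sqrt (S.cy t ^ 2 + (2 * (m₁ + m₂ + m₃)) * ‖S.y t‖))
    (Real.sqrt ((2 * (m₁ + m₂ + m₃)) * ‖S.y t‖)) (dot (S.y t) (S.ydd t)) (crs (S.y t) (S.ydd t))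
    hy (by positivity) (Real.sqrt_pos.2 (by positivity)) (Real.sqrt_pos.2 (by positivity))
    (Real.sq_sqrt (by positivity)) (by
      have := dot_sq_add_crs_sq (S.y t) (S.yd t)
      rw [dot_self, dot_self] at this
      unfold cy py
      linarith) (Real.sq_sqrt (by positivity)) (by
      have := dot_sq_add_crs_sq (S.y t) (S.ydd t)
      rw [dot_self, dot_self] at this
      rw [this, ← mul_pow]
      have g1 := S.ydd_le (h.quarter hθ.le)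
      have g2 : ‖S.y t‖ * ‖S.ydd t‖ ≤ 2 * (m₁ + m₂ + m₃) / ‖S.y t‖ := by
        calc ‖S.y t‖ * ‖S.ydd t‖ ≤ ‖S.y t‖ * (2 * (m₁ + m₂ + m₃) / ‖S.y t‖ ^ 2) := by gcongr
          _ = _ := by field_simp
      gcongr)
  -- forcing
  have E3 : ‖S.Fp t‖ / ‖S.xd t‖ ≤ 4 * m₃ * (Real.sqrt (1 / (m₁ + m₂) * ‖S.y t‖) / ‖S.y t‖ ^ 2) := by
    set j := Real.sqrt (1 / (m₁ + m₂) * ‖S.y t‖) with hj
    have hj0 : 0 < j := Real.sqrt_pos.2 (by positivity)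
    have hj2 : j ^ 2 = 1 / (m₁ + m₂) * ‖S.y t‖ := Real.sq_sqrt (by positivity)
    have g1 : 1 ≤ ‖S.xd t‖ * j := by
      have g2 : (1 : ℝ) ^ 2 ≤ (‖S.xd t‖ * j) ^ 2 := by
        rw [mul_pow, hj2]
        have g3 : (m₁ + m₂) / ‖S.y t‖ ≤ ‖S.xd t‖ ^ 2 := by
          have g4 : (m₁ + m₂) / ‖S.y t‖ ≤ (m₁ + m₂) / ‖S.x t‖ := by
            apply div_le_div_of_nonneg_left hk.le hx
            have := h.quarter hθ.le
            linarith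
          have g5 : 0 < (m₁ + m₂) / ‖S.x t‖ := by positivity
          linarith
        calc (1 : ℝ) ^ 2 = (m₁ + m₂) / ‖S.y t‖ * (1 / (m₁ + m₂) * ‖S.y t‖) := by field_simp
          _ ≤ _ := by gcongr
      exact (abs_le_of_sq_le_sq' g2 (by positivity)).2
    rw [div_le_iff₀ hu]
    have g2 := S.Fp_le (h.quarter hθ.le)
    calc ‖S.Fp t‖ ≤ 4 * m₃ / ‖S.y t‖ ^ 2 * 1 := by rw [mul_one]; exact g2
      _ ≤ 4 * m₃ / ‖S.y t‖ ^ 2 * (‖S.xd t‖ * j) := by gcongr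
      _ = _ := by ring
  have E4 := S.conv hθ h (show 0 < 1 / (m₁ + m₂) by positivity)
  have E5 := S.conv hθ h (show 0 < 2 * (m₁ + m₂ + m₃) by positivity)
  have E6 := S.inv_s3 hθ hE hends h ha ha2
  have E7 : (20 * m₃ * Q0 m₁ m₂ m₃ (1 / (m₁ + m₂)) + 3 * Q0 m₁ m₂ m₃ (2 * (m₁ + m₂ + m₃))) *
      (1 / S.s t ^ 3) ≤ Qc m₁ m₂ m₃ * S.Pd a t := by
    have q1 : 0 ≤ Q0 m₁ m₂ m₃ (1 / (m₁ + m₂)) := Real.sqrt_nonneg _
    have q2 : 0 ≤ Q0 m₁ m₂ m₃ (2 * (m₁ + m₂ + m₃)) := Real.sqrt_nonneg _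
    calc _ ≤ (20 * m₃ * Q0 m₁ m₂ m₃ (1 / (m₁ + m₂)) + 3 * Q0 m₁ m₂ m₃ (2 * (m₁ + m₂ + m₃))) *
          (16 * S.Pd a t) := by gcongr
      _ = _ := by unfold Qc; ring
  have E8 : 5 * (‖S.Fp t‖ / ‖S.xd t‖) ≤
      20 * m₃ * (Q0 m₁ m₂ m₃ (1 / (m₁ + m₂)) * (1 / S.s t ^ 3)) := by
    calc 5 * (‖S.Fp t‖ / ‖S.xd t‖) ≤ 5 * (4 * m₃ * (Q0 m₁ m₂ m₃ (1 / (m₁ + m₂)) *
          (1 / S.s t ^ 3))) := by
          apply mul_le_mul_of_nonneg_left _ (by norm_num)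
          refine E3.trans ?_
          gcongr
      _ = _ := by ring
  unfold Gd Txd Tyd
  linarith

end Traj

end Pool.Agent.Work.MP_877ce7_an
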