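import Mathlib
import Pool.Agent.Work.MP_877ce7_an.B15

set_option autoImplicit false

open Filter Topology

namespace Pool.Agent.Work.MP_877ce7_an

/-- `n` successive disjoint intervals with property `P` inside `[a, b]` -/
def Tr (P : ℝ → ℝ → Prop) : ℕ → ℝ → ℝ → Prop
  | 0, a, b => a ≤ b
  | n + 1, a, b => ∃ e e', a ≤ e ∧ e ≤ e' ∧ P e e' ∧ Tr P n e' b

lemma Tr.le {P : ℝ → ℝ → Prop} : ∀ {n : ℕ} {a b : ℝ}, Tr P n a b → a ≤ b
  | 0, _, _, h => h
  | _ + 1, _, _, ⟨_, _, h1, h2, _, h4⟩ => h1.trans (h2.trans h4.le)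

lemma Tr.mono {P P' : ℝ → ℝ → Prop} : ∀ {n : ℕ} {a b : ℝ},
    (∀ e e', a ≤ e → e ≤ e' → e' ≤ b → P e e' → P' e e') → Tr P n a b → Tr P' n a b
  | 0, _, _, _, h => h
  | n + 1, a, b, H, ⟨e, e', h1, h2, h3, h4⟩ => by
    refine ⟨e, e', h1, h2, H e e' h1 h2 h4.le h3, ?_⟩
    exact Tr.mono (fun x x' hx hxx hx' hp => H x x' (h1.trans (h2.trans hx)) hxx hx' hp) h4

lemma Tr.left {P : ℝ → ℝ → Prop} : ∀ {n : ℕ} {a a' b : ℝ}, a' ≤ a → Tr P n a b → Tr P n a' b
  | 0, _, _, _, h, h' => h.trans h'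
  | _ + 1, _, _, _, h, ⟨e, e', h1, h2, h3, h4⟩ => ⟨e, e', h.trans h1, h2, h3, h4⟩

lemma Tr.right {P : ℝ → ℝ → Prop} : ∀ {n : ℕ} {a b b' : ℝ}, b ≤ b' → Tr P n a b → Tr P n a b'
  | 0, _, _, _, h, h' => le_trans (α := ℝ) h' h
  | _ + 1, _, _, _, h, ⟨e, e', h1, h2, h3, h4⟩ => ⟨e, e', h1, h2, h3, h4.right h⟩

lemma Tr.split {P : ℝ → ℝ → Prop} : ∀ {m n : ℕ} {a b : ℝ}, Tr P (m + n) a b →
    ∃ c, Tr P m a c ∧ Tr P n c b
  | 0, n, a, b, h => ⟨a, le_refl a, by rwa [Nat.zero_add] at h⟩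
  | m + 1, n, a, b, h => by
    rw [Nat.succ_add_eq_add_succ m n, Nat.add_succ] at h
    obtain ⟨e, e', h1, h2, h3, h4⟩ := h
    obtain ⟨c, c1, c2⟩ := Tr.split h4
    exact ⟨c, ⟨e, e', h1, h2, h3, c1⟩, c2⟩

lemma Tr.block {P : ℝ → ℝ → Prop} (B : ℕ) : ∀ {n : ℕ} {a b : ℝ}, Tr P (B * n) a b →
    Tr (Tr P B) n a b
  | 0, a, b, h => by
    rw [Nat.mul_zero] at h
    exact h
  | n + 1, a, b, h => by
    have e : B * (n + 1) = B + B * n := by ring
    rw [e] at h
    obtain ⟨c, c1, c2⟩ := Tr.split h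
    exact ⟨a, c, le_refl a, c1.le, c1, Tr.block B c2⟩

lemma Tr.sum {P : ℝ → ℝ → Prop} {G : ℝ → ℝ} {d : ℝ} : ∀ {n : ℕ} {a b : ℝ},
    (∀ e e', a ≤ e → e ≤ e' → e' ≤ b → G e ≤ G e') →
    (∀ e e', a ≤ e → e ≤ e' → e' ≤ b → P e e' → d ≤ G e' - G e) →
    Tr P n a b → n * d ≤ G b - G a
  | 0, a, b, H1, _, h => by
    have := H1 a b le_rfl h le_rfl
    simp only [Nat.cast_zero, zero_mul]
    linarith
  | n + 1, a, b, H1, H2, ⟨e, e', h1, h2, h3, h4⟩ => by
    have g1 := H1 a e le_rfl h1 (h2.trans h4.le)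
    have g2 := H2 e e' h1 h2 h4.le h3
    have g3 := Tr.sum (G := G) (d := d) (fun x x' hx hxx hx' => H1 x x' (h1.trans (h2.trans hx)) hxx hx')
      (fun x x' hx hxx hx' hp => H2 x x' (h1.trans (h2.trans hx)) hxx hx' hp) h4
    push_cast
    linarith

lemma div_im_eq (z w : ℂ) : (w / z).im = crs z w / ‖z‖ ^ 2 := by
  rw [Complex.div_im, ← Complex.normSq_eq_norm_sq]
  unfold crs
  ring

lemma div_re_eq (z w : ℂ) : (w / z).re = dot z w / ‖z‖ ^ 2 := by
  rw [Complex.div_re, ← Complex.normSq_eq_norm_sq]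
  unfold dot
  ring

/-- A half turn costs `π`. -/
lemma winding {x xd y yd : ℝ → ℂ} {G Gd : ℝ → ℝ} {e e' : ℝ} (hee : e ≤ e')
    (hx : ∀ t, HasDerivAt x (xd t) t) (hy : ∀ t, HasDerivAt y (yd t) t)
    (hxd : Continuous xd) (hyd : Continuous yd)
    (hx0 : ∀ t ∈ Set.Icc e e', x t ≠ 0) (hy0 : ∀ t ∈ Set.Icc e e', y t ≠ 0)
    (hG : ∀ t ∈ Set.Icc e e', HasDerivAt G (Gd t) t)
    (hb : ∀ t ∈ Set.Icc e e',
      |crs (x t) (xd t)| / ‖x t‖ ^ 2 + |crs (y t) (yd t)| / ‖y t‖ ^ 2 ≤ Gd t)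
    (h1 : crs (x e) (y e) = 0) (h2 : crs (x e') (y e') = 0)
    (h3 : dot (x e) (y e) * dot (x e') (y e') < 0) : Real.pi ≤ G e' - G e := by
  set g : ℝ → ℂ := fun t => xd t / x t - yd t / y t with hg
  have hxc : Continuous x := continuous_iff_continuousAt.2 fun t => (hx t).continuousAt
  have hyc : Continuous y := continuous_iff_continuousAt.2 fun t => (hy t).continuousAt
  have hgc : ContinuousOn g (Set.Icc e e') :=
    (hxd.continuousOn.div hxc.continuousOn hx0).sub (hyd.continuousOn.div hyc.continuousOn hy0)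
  set g2 : ℝ → ℂ := fun t => g (Set.projIcc e e' hee t) with hg2
  have hg2c : Continuous g2 :=
    hgc.comp_continuous (continuous_subtype_val.comp continuous_projIcc)
      (fun t => (Set.projIcc e e' hee t).2)
  have hg2e : ∀ t ∈ Set.Icc e e', g2 t = g t := by
    intro t ht
    rw [hg2]
    simp only
    rw [Set.projIcc_of_mem hee ht]
  set h : ℝ → ℂ := fun t => ∫ s in e..t, g2 s with hh
  have hhd : ∀ t, HasDerivAt h (g2 t) t := fun t =>
    (hg2c.integral_hasStrictDerivAt e t).hasDerivAt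
  have hhe : h e = 0 := by rw [hh]; simp
  -- constancy
  have hw : ∀ t ∈ Set.Icc e e', HasDerivAt (fun t => x t / y t * Complex.exp (-h t)) 0 t := by
    intro t ht
    have d1 := ((hx t).div (hy t) (hy0 t ht)).mul (hhd t).neg.cexp
    refine d1.congr_deriv ?_
    rw [hg2e t ht]
    have a1 := hx0 t ht
    have a2 := hy0 t ht
    rw [hg]
    simp only [Pi.div_apply]
    field_simp
    ring
  have hconst := constant_of_has_deriv_right_zero
    (f := fun t => x t / y t * Complex.exp (-h t)) (a := e) (b := e')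
    (fun t ht => (hw t ht).continuousAt.continuousWithinAt)
    (fun t ht => (hw t ⟨ht.1, ht.2.le⟩).hasDerivWithinAt) e' ⟨hee, le_rfl⟩
  rw [hhe, neg_zero, Complex.exp_zero, mul_one] at hconst
  -- imaginary part
  have hHd : ∀ t ∈ Set.Icc e e', HasDerivAt (fun t => (h t).im) ((g t).im) t := by
    intro t ht
    rw [← hg2e t ht]
    exact hasDerivAt_im (hhd t)
  have hgim : ∀ t ∈ Set.Icc e e', |(g t).im| ≤ Gd t := by
    intro t ht
    refine le_trans ?_ (hb t ht)
    rw [hg]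
    simp only [Complex.sub_im]
    rw [div_im_eq, div_im_eq]
    refine (abs_sub _ _).trans ?_
    rw [abs_div, abs_div, abs_of_nonneg (sq_nonneg ‖x t‖), abs_of_nonneg (sq_nonneg ‖y t‖)]
  have up := le_of_deriv hee (f := fun t => G t - (h t).im) (f' := fun t => Gd t - (g t).im)
    (fun t ht => (hG t ht).sub (hHd t ht))
    (fun t ht => by have := (abs_le.1 (hgim t ht)).2; linarith)
  have lo := le_of_deriv hee (f := fun t => G t + (h t).im) (f' := fun t => Gd t + (g t).im)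
    (fun t ht => (hG t ht).add (hHd t ht))
    (fun t ht => by have := (abs_le.1 (hgim t ht)).1; linarith)
  rw [hhe] at up lo
  simp only [Complex.zero_im] at up lo
  by_contra hcon
  push Not at hcon
  -- real numbers
  have he : e ∈ Set.Icc e e' := ⟨le_rfl, hee⟩
  have he' : e' ∈ Set.Icc e e' := ⟨hee, le_rfl⟩
  have z0 : x e / y e = ((dot (x e) (y e) / ‖y e‖ ^ 2 : ℝ) : ℂ) := by
    apply Complex.ext
    · rw [div_re_eq, Complex.ofReal_re, dot_comm]
    · rw [div_im_eq, Complex.ofReal_im]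
      have : crs (y e) (x e) = - crs (x e) (y e) := by unfold crs; ring
      rw [this, h1]; simp
  have z1 : x e' / y e' = ((dot (x e') (y e') / ‖y e'‖ ^ 2 : ℝ) : ℂ) := by
    apply Complex.ext
    · rw [div_re_eq, Complex.ofReal_re, dot_comm]
    · rw [div_im_eq, Complex.ofReal_im]
      have : crs (y e') (x e') = - crs (x e') (y e') := by unfold crs; ring
      rw [this, h2]; simp
  set A := dot (x e) (y e) / ‖y e‖ ^ 2 with hA
  set B := dot (x e') (y e') / ‖y e'‖ ^ 2 with hB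
  have ny : 0 < ‖y e‖ := norm_pos_iff.2 (hy0 e he)
  have ny' : 0 < ‖y e'‖ := norm_pos_iff.2 (hy0 e' he')
  have hAB : A * B < 0 := by
    rw [hA, hB, div_mul_div_comm]
    exact div_neg_of_neg_of_pos h3 (by positivity)
  rw [z0, z1] at hconst
  have hexp : (B : ℂ) = A * Complex.exp (h e') := by
    rw [← hconst, mul_assoc, ← Complex.exp_add, neg_add_cancel, Complex.exp_zero, mul_one]
  have hre := congrArg Complex.re hexp
  have him := congrArg Complex.im hexp
  rw [Complex.ofReal_re, Complex.re_ofReal_mul, Complex.exp_re] at hre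
  rw [Complex.ofReal_im, Complex.im_ofReal_mul, Complex.exp_im] at him
  have hA0 : A ≠ 0 := by
    intro h0
    rw [h0, zero_mul] at hAB
    exact lt_irrefl _ hAB
  have hsin : Real.sin (h e').im = 0 := by
    have he0 := Real.exp_pos (h e').re
    rcases mul_eq_zero.1 him.symm with h' | h'
    · exact absurd h' hA0
    · rcases mul_eq_zero.1 h' with h'' | h''
      · exact absurd h'' he0.ne'
      · exact h''
  have him0 : (h e').im = 0 :=
    (Real.sin_eq_zero_iff_of_lt_of_lt (by linarith) (by linarith)).1 hsin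
  rw [him0, Real.cos_zero, mul_one] at hre
  have he0 := Real.exp_pos (h e').re
  rw [hre] at hAB
  have : 0 ≤ A * (A * Real.exp (h e').re) := by
    have : A * (A * Real.exp (h e').re) = A ^ 2 * Real.exp (h e').re := by ring
    rw [this]
    positivity
  linarith

end Pool.Agent.Work.MP_877ce7_an
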