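import Mathlib
import Pool.Agent.Work.MP_877ce7_an.B16

set_option autoImplicit false

open Filter Topology

namespace Pool.Agent.Work.MP_877ce7_an

namespace Traj

variable {m₁ m₂ m₃ : ℝ} (S : Traj m₁ m₂ m₃)

/-- change from label 1 to another label -/
def Ch (e e' : ℝ) : Prop := S.X e = 0 ∧ S.X e' = 0 ∧ S.D e < 0 ∧ 0 < S.D e'

/-- change of label -/
def PP (e e' : ℝ) : Prop := S.Ch e e' ∨ S.rot.Ch e e' ∨ S.rot.rot.Ch e e'

lemma PP_rot (e e' : ℝ) : S.rot.PP e e' ↔ S.PP e e' := by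
  unfold PP
  rw [rot_rot_rot]
  tauto

lemma X_eq (t : ℝ) : S.X t = crs (S.x t) (S.y t) := by
  unfold X
  rw [q31]
  unfold x crs
  simp only [Complex.add_re, Complex.add_im, Complex.real_smul, Complex.mul_re, Complex.mul_im,
    Complex.ofReal_re, Complex.ofReal_im]
  ring

lemma D_eq (t : ℝ) : S.D t = dot (S.x t) (S.y t) + m₂ / (m₁ + m₂) * ‖S.x t‖ ^ 2 := by
  unfold D
  rw [q31, dot_add_right, dot_smul_right, ← dot_self]
  rfl

lemma D_rot_eq (t : ℝ) : S.rot.D t = -dot (S.x t) (S.y t) + m₁ / (m₁ + m₂) * ‖S.x t‖ ^ 2 := by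
  have e : S.rot.D t = dot (S.q₃ t - S.q₂ t) (S.q₁ t - S.q₂ t) := rfl
  have e2 : S.q₁ t - S.q₂ t = (-1 : ℝ) • S.x t := by unfold x; simp
  rw [e, q32, e2, dot_smul_right, dot_sub_left, dot_smul_left, ← dot_self, dot_comm (S.y t)]
  ring

lemma D_rot_rot_eq (t : ℝ) : S.rot.rot.D t = ‖S.y t‖ ^ 2 +
    (m₂ / (m₁ + m₂) - m₁ / (m₁ + m₂)) * dot (S.x t) (S.y t) -
      m₂ / (m₁ + m₂) * (m₁ / (m₁ + m₂)) * ‖S.x t‖ ^ 2 := by
  have e : S.rot.rot.D t = dot (S.q₁ t - S.q₃ t) (S.q₂ t - S.q₃ t) := rfl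
  have e1 : S.q₁ t - S.q₃ t = (-1 : ℝ) • (S.q₃ t - S.q₁ t) := by simp
  have e2 : S.q₂ t - S.q₃ t = (-1 : ℝ) • (S.q₃ t - S.q₂ t) := by simp
  rw [e, e1, e2, dot_smul_right, dot_smul_left, q31, q32]
  simp only [dot_add_left, dot_sub_right, dot_smul_left, dot_smul_right]
  rw [← dot_self, ← dot_self, dot_comm (S.y t) (S.x t)]
  ring

lemma label_near {θ e e' : ℝ} (hθ : Theta m₁ m₂ m₃ θ) (h : S.Near θ e) (h' : S.Near θ e')
    (hP : S.PP e e') : S.X e = 0 ∧ S.X e' = 0 ∧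
      dot (S.x e) (S.y e) * dot (S.x e') (S.y e') < 0 := by
  have h1 := S.p1
  have h2 := S.p2
  have hk := S.kpos
  have a1 : 0 < m₁ / (m₁ + m₂) := by positivity
  have a2 : 0 < m₂ / (m₁ + m₂) := by positivity
  have a3 : m₁ / (m₁ + m₂) + m₂ / (m₁ + m₂) = 1 := by rw [← add_div, div_self hk.ne']
  set p := m₁ / (m₁ + m₂) with hp
  set q := m₂ / (m₁ + m₂) with hq
  -- size of the inner product at a collinear configuration
  have size : ∀ t, S.Near θ t → S.X t = 0 → 4 * ‖S.x t‖ ^ 2 ≤ |dot (S.x t) (S.y t)| := by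
    intro t hN hX
    have hx := S.x_pos t
    have g1 := dot_sq_add_crs_sq (S.x t) (S.y t)
    rw [← X_eq, hX, dot_self, dot_self] at g1
    have g2 : |dot (S.x t) (S.y t)| = ‖S.x t‖ * ‖S.y t‖ := by
      have : dot (S.x t) (S.y t) ^ 2 = (‖S.x t‖ * ‖S.y t‖) ^ 2 := by rw [mul_pow]; linarith
      rw [← Real.sqrt_sq_eq_abs, this, Real.sqrt_sq (by positivity)]
    rw [g2]
    have g3 := hN.quarter hθ.le
    nlinarith
  have neg_of : ∀ t u, S.Near θ t → S.X t = 0 → 0 ≤ u → u ≤ 1 →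
      dot (S.x t) (S.y t) < u * ‖S.x t‖ ^ 2 → dot (S.x t) (S.y t) < 0 := by
    intro t u hN hX hu hu1 hlt
    by_contra hcon
    push Not at hcon
    have g1 := size t hN hX
    rw [abs_of_nonneg hcon] at g1
    have hx := S.x_pos t
    have : 0 < ‖S.x t‖ ^ 2 := by positivity
    nlinarith
  have pos_of : ∀ t u, S.Near θ t → S.X t = 0 → 0 ≤ u → u ≤ 1 →
      -(u * ‖S.x t‖ ^ 2) < dot (S.x t) (S.y t) → 0 < dot (S.x t) (S.y t) := by
    intro t u hN hX hu hu1 hlt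
    by_contra hcon
    push Not at hcon
    have g1 := size t hN hX
    rw [abs_of_nonpos hcon] at g1
    have hx := S.x_pos t
    have : 0 < ‖S.x t‖ ^ 2 := by positivity
    nlinarith
  rcases hP with hP | hP | hP
  · obtain ⟨x1, x2, d1, d2⟩ := hP
    rw [D_eq] at d1 d2
    refine ⟨x1, x2, ?_⟩
    have g1 : dot (S.x e) (S.y e) < 0 := by
      have : 0 ≤ q * ‖S.x e‖ ^ 2 := by positivity
      linarith
    have g2 := pos_of e' q h' x2 a2.le (by linarith) (by linarith)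
    exact mul_neg_of_neg_of_pos g1 g2
  · obtain ⟨x1, x2, d1, d2⟩ := hP
    rw [D_rot_eq] at d1 d2
    rw [rot_X] at x1 x2
    refine ⟨x1, x2, ?_⟩
    have g1 : 0 < dot (S.x e) (S.y e) := by
      have : 0 ≤ p * ‖S.x e‖ ^ 2 := by positivity
      linarith
    have g2 := neg_of e' p h' x2 a1.le (by linarith) (by linarith)
    exact mul_neg_of_pos_of_neg g1 g2
  · exfalso
    obtain ⟨x1, x2, d1, d2⟩ := hP
    rw [D_rot_rot_eq] at d1
    have g1 := abs_dot_le (S.x e) (S.y e)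
    have g2 := h.quarter hθ.le
    have hx := S.x_pos e
    have hy := h.y_pos hθ.pos
    have g3 : |(q - p) * dot (S.x e) (S.y e)| ≤ ‖S.x e‖ * ‖S.y e‖ := by
      rw [abs_mul]
      have : |q - p| ≤ 1 := by rw [abs_le]; constructor <;> linarith
      calc |q - p| * |dot (S.x e) (S.y e)| ≤ 1 * (‖S.x e‖ * ‖S.y e‖) := by gcongr
        _ = _ := one_mul _
    have g4 := (abs_le.1 g3).1
    have g5 : q * p * ‖S.x e‖ ^ 2 ≤ ‖S.x e‖ ^ 2 := by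
      have : q * p ≤ 1 := by nlinarith
      have : 0 ≤ ‖S.x e‖ ^ 2 := by positivity
      nlinarith
    have g6 : ‖S.x e‖ * ‖S.y e‖ ≤ 1 / 4 * ‖S.y e‖ ^ 2 := by nlinarith
    have g7 : ‖S.x e‖ ^ 2 ≤ 1 / 16 * ‖S.y e‖ ^ 2 := by nlinarith
    have g8 : 0 < ‖S.y e‖ ^ 2 := by positivity
    linarith

/-- bound for the number of label changes in the near region -/
theorem inside {θ : ℝ} (hθ : Theta m₁ m₂ m₃ θ) (hE : 0 < S.E) (hends : S.Ends) {a b : ℝ}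
    (hN : ∀ t ∈ Set.Icc a b, S.Near θ t) {n : ℕ} (hn : Tr S.PP n a b) :
    (n : ℝ) ≤ 7 + Qc m₁ m₂ m₃ / Real.sqrt (2 * fmin m₁ m₂ m₃) := by
  have h1 := S.p1
  have h2 := S.p2
  have h3 := S.p3
  have hab : a ≤ b := hn.le
  have hk := S.kpos
  have hM := S.Mpos
  have hfm : 0 < fmin m₁ m₂ m₃ := by unfold fmin; positivity
  set al := Real.sqrt (2 * fmin m₁ m₂ m₃) with hal
  have hal0 : 0 < al := Real.sqrt_pos.2 (by positivity)
  have hal2 : al ^ 2 = 2 * fmin m₁ m₂ m₃ := Real.sq_sqrt (by positivity)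
  -- choice of ε
  have hcont : Continuous fun t => ‖S.x t‖ ^ 2 * ‖S.xd t‖ ^ 2 := by
    have c1 := S.cont_x
    have c2 := S.cont_xd
    fun_prop
  obtain ⟨t0, ht0, hmin⟩ := isCompact_Icc.exists_isMinOn (Set.nonempty_Icc.2 hab)
    hcont.continuousOn
  have hpos : 0 < ‖S.x t0‖ ^ 2 * ‖S.xd t0‖ ^ 2 := by
    have g1 := S.xd_ge hθ hE hends (hN t0 ht0)
    have hx := S.x_pos t0
    have : 0 < 15 / 8 * ((m₁ + m₂) / ‖S.x t0‖) := by positivity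
    have : 0 < ‖S.xd t0‖ ^ 2 := by linarith
    positivity
  set ε := Real.sqrt (‖S.x t0‖ ^ 2 * ‖S.xd t0‖ ^ 2) with hε
  have hε0 : 0 < ε := Real.sqrt_pos.2 hpos
  have hε2 : ε ^ 2 = ‖S.x t0‖ ^ 2 * ‖S.xd t0‖ ^ 2 := Real.sq_sqrt hpos.le
  have hle : ∀ t ∈ Set.Icc a b, ε ^ 2 ≤ ‖S.x t‖ ^ 2 * ‖S.xd t‖ ^ 2 := by
    intro t ht
    rw [hε2]
    exact hmin ht
  have hGd : ∀ t ∈ Set.Icc a b, HasDerivAt (S.G ε al) (S.Gd ε al t) t := fun t ht =>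
    S.hasG hε0 hal0 ((hN t ht).y_pos hθ.pos)
  have hGe : ∀ t ∈ Set.Icc a b,
      |S.cx t| / ‖S.x t‖ ^ 2 + |S.cy t| / ‖S.y t‖ ^ 2 ≤ S.Gd ε al t := fun t ht =>
    S.Gd_ge hθ hE hends (hN t ht) hε0 (hle t ht) hal0 hal2
  have key := Tr.sum (P := S.PP) (G := S.G ε al) (d := Real.pi) (n := n) (a := a) (b := b)
    (fun e e' he hee he' => le_of_deriv hee
      (fun t ht => hGd t ⟨he.trans ht.1, ht.2.trans he'⟩)
      (fun t ht => le_trans (by positivity) (hGe t ⟨he.trans ht.1, ht.2.trans he'⟩)))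
    (fun e e' he hee he' hP => by
      have hin : ∀ t ∈ Set.Icc e e', t ∈ Set.Icc a b := fun t ht =>
        ⟨he.trans ht.1, ht.2.trans he'⟩
      obtain ⟨x1, x2, d⟩ := S.label_near hθ (hN e (hin e ⟨le_rfl, hee⟩))
        (hN e' (hin e' ⟨hee, le_rfl⟩)) hP
      rw [X_eq] at x1 x2
      exact winding hee S.hasx S.hasy S.cont_xd S.cont_yd
        (fun t _ => norm_pos_iff.1 (S.x_pos t))
        (fun t ht => norm_pos_iff.1 ((hN t (hin t ht)).y_pos hθ.pos))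
        (fun t ht => hGd t (hin t ht)) (fun t ht => hGe t (hin t ht)) x1 x2 d) hn
  -- variation of G
  have hQc : 0 ≤ Qc m₁ m₂ m₃ := by
    have q1 : 0 ≤ Q0 m₁ m₂ m₃ (1 / (m₁ + m₂)) := Real.sqrt_nonneg _
    have q2 : 0 ≤ Q0 m₁ m₂ m₃ (2 * (m₁ + m₂ + m₃)) := Real.sqrt_nonneg _
    unfold Qc
    positivity
  have v1 : ∀ u v : ℝ, Real.arctan u - Real.arctan v ≤ Real.pi := by
    intro u v
    linarith [Real.arctan_lt_pi_div_two u, Real.neg_pi_div_two_lt_arctan v]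
  have hvar : S.G ε al b - S.G ε al a ≤ 7 * Real.pi + Qc m₁ m₂ m₃ * (Real.pi / al) := by
    unfold G
    have w1 : S.Tx ε b - S.Tx ε a ≤ Real.pi := v1 _ _
    have w2 : S.Ty (2 * (m₁ + m₂ + m₃)) b - S.Ty (2 * (m₁ + m₂ + m₃)) a ≤ Real.pi := v1 _ _
    have w3 : S.P al b - S.P al a ≤ Real.pi / al := by
      unfold P
      rw [← sub_div]
      exact div_le_div_of_nonneg_right (v1 _ _) hal0.le
    have w4 : Qc m₁ m₂ m₃ * (S.P al b - S.P al a) ≤ Qc m₁ m₂ m₃ * (Real.pi / al) :=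
      mul_le_mul_of_nonneg_left w3 hQc
    linarith
  have hpi := Real.pi_pos
  have fin : (n : ℝ) * Real.pi ≤ (7 + Qc m₁ m₂ m₃ / al) * Real.pi := by
    have : (7 + Qc m₁ m₂ m₃ / al) * Real.pi = 7 * Real.pi + Qc m₁ m₂ m₃ * (Real.pi / al) := by ring
    linarith
  exact le_of_mul_le_mul_right fin hpi

/-- tight pairs are near -/
lemma near_of_tight (m₁ m₂ m₃ θ : ℝ) (h1 : 0 < m₁) (h2 : 0 < m₂) (h3 : 0 < m₃)
    (hθ : 0 < θ) : ∃ δ : ℝ, 0 < δ ∧ ∀ (S : Traj m₁ m₂ m₃) (t : ℝ), S.Tight δ t → S.Near θ t := by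
  set μ := m₁ * m₂ / (m₁ + m₂) with hμ
  set μy := m₃ * (m₁ + m₂) / (m₁ + m₂ + m₃) with hμy
  have hμ0 : 0 < μ := by positivity
  have hμy0 : 0 < μy := by positivity
  refine ⟨min 1 (min (1 / (2 * μ)) (θ ^ 2 / (2 * μy))), by positivity, ?_⟩
  set δ := min 1 (min (1 / (2 * μ)) (θ ^ 2 / (2 * μy))) with hδ
  have hδ0 : 0 < δ := by positivity
  have d1 : δ ≤ 1 := min_le_left _ _
  have d2 : δ * (2 * μ) ≤ 1 := by
    rw [← le_div_iff₀ (by positivity)]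
    exact (min_le_right _ _).trans (min_le_left _ _)
  have d3 : δ * (2 * μy) ≤ θ ^ 2 := by
    rw [← le_div_iff₀ (by positivity)]
    exact (min_le_right _ _).trans (min_le_right _ _)
  intro S t hT
  have hs := S.s_pos t
  have hx := S.x_pos t
  have e1 : ‖S.x t‖ ^ 2 ≤ δ * S.s t ^ 4 := by
    have g1 : ‖S.x t‖ ^ 2 ≤ (δ * S.s t ^ 2) ^ 2 := pow_le_pow_left₀ hx.le hT 2
    have g2 : δ ^ 2 ≤ δ := by nlinarith
    calc ‖S.x t‖ ^ 2 ≤ δ ^ 2 * S.s t ^ 4 := by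
          refine g1.trans (le_of_eq ?_); ring
      _ ≤ δ * S.s t ^ 4 := by gcongr
  have e2 : S.s t ^ 4 = μ * ‖S.x t‖ ^ 2 + μy * ‖S.y t‖ ^ 2 := by rw [s_pow, I_jac]
  rw [e2] at e1
  have e3 : ‖S.x t‖ ^ 2 ≤ (θ * ‖S.y t‖) ^ 2 := by
    have g1 : 0 ≤ ‖S.x t‖ ^ 2 := by positivity
    have g2 : 0 ≤ ‖S.y t‖ ^ 2 := by positivity
    have g3 : δ * (2 * μ) * ‖S.x t‖ ^ 2 ≤ 1 * ‖S.x t‖ ^ 2 := by gcongr
    have g4 : δ * (2 * μy) * ‖S.y t‖ ^ 2 ≤ θ ^ 2 * ‖S.y t‖ ^ 2 := by gcongr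
    rw [mul_pow]
    linarith
  exact (abs_le_of_sq_le_sq' e3 (by positivity)).2

end Traj

end Pool.Agent.Work.MP_877ce7_an
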