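import Mathlib
import Pool.Agent.Work.MP_877ce7_an.B17

set_option autoImplicit false

open Filter Topology

namespace Pool.Agent.Work.MP_877ce7_an

lemma Tr.of_le {P : ℝ → ℝ → Prop} {m n : ℕ} {a b : ℝ} (hmn : m ≤ n) (h : Tr P n a b) :
    Tr P m a b := by
  obtain ⟨k, rfl⟩ := Nat.exists_eq_add_of_le hmn
  obtain ⟨c, c1, c2⟩ := Tr.split h
  exact c1.right c2.le

namespace Traj

variable {m₁ m₂ m₃ : ℝ} (S : Traj m₁ m₂ m₃)

lemma persist {δ a b : ℝ} (hδc : δ < csep m₁ m₂ m₃)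
    (hT : ∀ t ∈ Set.Icc a b, S.Tight δ t ∨ S.rot.Tight δ t ∨ S.rot.rot.Tight δ t)
    (h0 : S.Tight δ a) : ∀ t ∈ Set.Icc a b, S.Tight δ t := by
  intro t1 ht1
  by_contra hcon
  have hc1 : csep m₂ m₃ m₁ = csep m₁ m₂ m₃ := csep_rot m₁ m₂ m₃
  have hc2 : csep m₃ m₁ m₂ = csep m₁ m₂ m₃ := (csep_rot m₂ m₃ m₁).trans hc1
  have far : ∀ t ∈ Set.Icc a b, S.Tight δ t ∨ csep m₁ m₂ m₃ * S.s t ^ 2 ≤ ‖S.q₂ t - S.q₁ t‖ := by
    intro t ht
    rcases hT t ht with h | h | h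
    · exact Or.inl h
    · right
      have := (S.rot.tight_far h (by rw [hc1]; exact hδc.le)).2
      rw [rot_s, hc1] at this
      exact this
    · right
      have := (S.rot.rot.tight_far h (by rw [hc2]; exact hδc.le)).1
      rw [rot_s, rot_s, hc2] at this
      exact this
  have hcont : Continuous fun t => ‖S.q₂ t - S.q₁ t‖ / S.s t ^ 2 := by
    have c1 : Continuous S.s := continuous_iff_continuousAt.2 fun t => (S.hasS t).continuousAt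
    have c2 : Continuous fun t => ‖S.q₂ t - S.q₁ t‖ := S.cont_x.norm
    exact c2.div (c1.pow 2) (fun t => pow_ne_zero 2 (S.s_pos t).ne')
  have hsa := S.s_pos a
  have hst := S.s_pos t1
  have r0 : ‖S.q₂ a - S.q₁ a‖ / S.s a ^ 2 ≤ δ := by
    rw [div_le_iff₀ (by positivity)]
    exact h0
  have r1 : csep m₁ m₂ m₃ ≤ ‖S.q₂ t1 - S.q₁ t1‖ / S.s t1 ^ 2 := by
    rw [le_div_iff₀ (by positivity)]
    rcases far t1 ht1 with h | h
    · exact absurd h hcon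
    · exact h
  obtain ⟨t, ht, hval⟩ := intermediate_value_Icc ht1.1 hcont.continuousOn
    (show (δ + csep m₁ m₂ m₃) / 2 ∈ Set.Icc _ _ from ⟨by linarith, by linarith⟩)
  have hs := S.s_pos t
  rcases far t ⟨ht.1, ht.2.trans ht1.2⟩ with h | h
  · have : ‖S.q₂ t - S.q₁ t‖ / S.s t ^ 2 ≤ δ := by
      rw [div_le_iff₀ (by positivity)]
      exact h
    simp only at hval
    linarith
  · have : csep m₁ m₂ m₃ ≤ ‖S.q₂ t - S.q₁ t‖ / S.s t ^ 2 := by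
      rw [le_div_iff₀ (by positivity)]
      exact h
    simp only at hval
    linarith

lemma accumulate {C ε : ℝ} {Q : ℝ → ℝ → Prop} (hE : 0 < S.E)
    (H : ∀ x y, Q x y → ∃ α β, x ≤ α ∧ α ≤ β ∧ β ≤ y ∧ S.f α < C ∧ S.f β < C ∧
      ε ≤ S.phi C β - S.phi C α) : ∀ (n : ℕ) (a b : ℝ), Tr Q (n + 1) a b →
      ∃ α β, a ≤ α ∧ α ≤ β ∧ β ≤ b ∧ S.f α < C ∧ S.f β < C ∧
        (n + 1 : ℝ) * ε ≤ S.phi C β - S.phi C α
  | 0, a, b, ⟨e, e', h1, h2, h3, h4⟩ => by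
    obtain ⟨α, β, g1, g2, g3, g4, g5, g6⟩ := H e e' h3
    refine ⟨α, β, h1.trans g1, g2, g3.trans h4, g4, g5, ?_⟩
    push_cast
    linarith
  | n + 1, a, b, ⟨e, e', h1, h2, h3, h4⟩ => by
    obtain ⟨α, β, g1, g2, g3, g4, g5, g6⟩ := H e e' h3
    obtain ⟨α', β', k1, k2, k3, k4, k5, k6⟩ := accumulate hE H n e' b h4
    have hmono := S.phi_mono C hE g5 k4 (g3.trans k1)
    refine ⟨α, β', h1.trans g1, g2.trans (g3.trans (k1.trans k2)), k3, g4, k5, ?_⟩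
    push_cast
    linarith

end Traj

/-- A block of sufficiently many label changes has a uniform cost. -/
theorem block_cost (m₁ m₂ m₃ : ℝ) (h1 : 0 < m₁) (h2 : 0 < m₂) (h3 : 0 < m₃) :
    ∃ (B : ℕ) (C ε : ℝ), 0 < ε ∧ ∀ (S : Traj m₁ m₂ m₃), 0 < S.E → S.Ends → ∀ x y,
      Tr S.PP B x y → ∃ α β, x ≤ α ∧ α ≤ β ∧ β ≤ y ∧ S.f α < C ∧ S.f β < C ∧
        ε ≤ S.phi C β - S.phi C α := by
  obtain ⟨θ1, t1⟩ := Theta.exists m₁ m₂ m₃ h1 h2 h3
  obtain ⟨θ2, t2⟩ := Theta.exists m₂ m₃ m₁ h2 h3 h1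
  obtain ⟨θ3, t3⟩ := Theta.exists m₃ m₁ m₂ h3 h1 h2
  obtain ⟨δ1, p1, N1⟩ := Traj.near_of_tight m₁ m₂ m₃ θ1 h1 h2 h3 t1.pos
  obtain ⟨δ2, p2, N2⟩ := Traj.near_of_tight m₂ m₃ m₁ θ2 h2 h3 h1 t2.pos
  obtain ⟨δ3, p3, N3⟩ := Traj.near_of_tight m₃ m₁ m₂ θ3 h3 h1 h2 t3.pos
  have hcs : 0 < Traj.csep m₁ m₂ m₃ := by unfold Traj.csep; positivity
  set δ := min (min δ1 δ2) (min δ3 (Traj.csep m₁ m₂ m₃ / 2)) with hδ
  have hδ0 : 0 < δ := by positivity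
  have hδ1 : δ ≤ δ1 := (min_le_left _ _).trans (min_le_left _ _)
  have hδ2 : δ ≤ δ2 := (min_le_left _ _).trans (min_le_right _ _)
  have hδ3 : δ ≤ δ3 := (min_le_right _ _).trans (min_le_left _ _)
  have hδc : δ < Traj.csep m₁ m₂ m₃ := by
    have : δ ≤ Traj.csep m₁ m₂ m₃ / 2 := (min_le_right _ _).trans (min_le_right _ _)
    linarith
  obtain ⟨C0, hC0, HZ⟩ := zone_cost m₁ m₂ m₃ h1 h2 h3
  set C1 := max C0 ((m₁ * m₂ + m₂ * m₃ + m₃ * m₁) / δ) with hC1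
  have hC1a : C0 ≤ C1 := le_max_left _ _
  have hC1b : (m₁ * m₂ + m₂ * m₃ + m₃ * m₁) / δ ≤ C1 := le_max_right _ _
  have hC1c : 0 < C1 := lt_of_lt_of_le hC0 hC1a
  obtain ⟨ε0, e0, HZ'⟩ := HZ C1 (C1 + 1) (C1 + 2) hC1a (by linarith) (by linarith)
  obtain ⟨ε1, e1, HO1⟩ := outside_cost m₁ m₂ m₃ (C1 + 1) (C1 + 2) h1 h2 h3 (by linarith)
    (by linarith)
  obtain ⟨ε2, e2, HO2⟩ := outside_cost m₂ m₃ m₁ (C1 + 1) (C1 + 2) h2 h3 h1 (by linarith)
    (by linarith)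
  obtain ⟨ε3, e3, HO3⟩ := outside_cost m₃ m₁ m₂ (C1 + 1) (C1 + 2) h3 h1 h2 (by linarith)
    (by linarith)
  set w1 := 7 + Traj.Qc m₁ m₂ m₃ / Real.sqrt (2 * Traj.fmin m₁ m₂ m₃) with hw1
  set w2 := 7 + Traj.Qc m₂ m₃ m₁ / Real.sqrt (2 * Traj.fmin m₂ m₃ m₁) with hw2
  set w3 := 7 + Traj.Qc m₃ m₁ m₂ / Real.sqrt (2 * Traj.fmin m₃ m₁ m₂) with hw3
  obtain ⟨W, hW⟩ := exists_nat_ge (max w1 (max w2 w3))
  have hW1 : w1 ≤ W := (le_max_left _ _).trans hW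
  have hW2 : w2 ≤ W := ((le_max_left _ _).trans (le_max_right _ _)).trans hW
  have hW3 : w3 ≤ W := ((le_max_right _ _).trans (le_max_right _ _)).trans hW
  refine ⟨1 + ((W + 1) + 1), C1 + 2, min (min ε0 ε1) (min ε2 ε3), by positivity, ?_⟩
  set ε := min (min ε0 ε1) (min ε2 ε3) with hε
  have k0 : ε ≤ ε0 := (min_le_left _ _).trans (min_le_left _ _)
  have k1 : ε ≤ ε1 := (min_le_left _ _).trans (min_le_right _ _)
  have k2 : ε ≤ ε2 := (min_le_right _ _).trans (min_le_left _ _)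
  have k3 : ε ≤ ε3 := (min_le_right _ _).trans (min_le_right _ _)
  intro S hE hends x y hTr
  by_cases hcase : ∃ e e', x ≤ e ∧ e ≤ e' ∧ e' ≤ y ∧ S.PP e e' ∧
      ∀ t ∈ Set.Icc e e', S.f t ≤ C1 + 1
  · obtain ⟨e, e', g1, g2, g3, g4, g5⟩ := hcase
    have fin : ∀ α β, e ≤ α → α ≤ β → β ≤ e' → ε ≤ S.phi (C1 + 2) β - S.phi (C1 + 2) α →
        ∃ α β, x ≤ α ∧ α ≤ β ∧ β ≤ y ∧ S.f α < C1 + 2 ∧ S.f β < C1 + 2 ∧
          ε ≤ S.phi (C1 + 2) β - S.phi (C1 + 2) α := by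
      intro α β u1 u2 u3 u4
      have v1 := g5 α ⟨u1, u2.trans u3⟩
      have v2 := g5 β ⟨u1.trans u2, u3⟩
      exact ⟨α, β, g1.trans u1, u2, u3.trans g3, by linarith, by linarith, u4⟩
    rcases g4 with hP | hP | hP
    · obtain ⟨α, β, u1, u2, u3, u4⟩ := HO1 S hE e e' g2 hP.1 hP.2.1 hP.2.2.1 hP.2.2.2 g5
      exact fin α β u1 u2 u3 (k1.trans u4)
    · obtain ⟨α, β, u1, u2, u3, u4⟩ := HO2 S.rot (by rw [Traj.rot_E]; exact hE) e e' g2 hP.1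
        hP.2.1 hP.2.2.1 hP.2.2.2 (by rw [Traj.rot_f]; exact g5)
      rw [Traj.rot_phi] at u4
      exact fin α β u1 u2 u3 (k2.trans u4)
    · obtain ⟨α, β, u1, u2, u3, u4⟩ := HO3 S.rot.rot (by rw [Traj.rot_E, Traj.rot_E]; exact hE)
        e e' g2 hP.1 hP.2.1 hP.2.2.1 hP.2.2.2 (by rw [Traj.rot_f, Traj.rot_f]; exact g5)
      rw [Traj.rot_phi, Traj.rot_phi] at u4
      exact fin α β u1 u2 u3 (k3.trans u4)
  · have hTr' : Tr (fun e e' => S.PP e e' ∧ ∃ d ∈ Set.Icc e e', C1 + 1 < S.f d)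
        (1 + ((W + 1) + 1)) x y := by
      refine Tr.mono ?_ hTr
      intro e e' u1 u2 u3 u4
      refine ⟨u4, ?_⟩
      by_contra hcon
      push Not at hcon
      exact hcase ⟨e, e', u1, u2, u3, u4, hcon⟩
    obtain ⟨c1, s1, s2⟩ := Tr.split hTr'
    obtain ⟨c2, s3, s4⟩ := Tr.split s2
    obtain ⟨e, e', g1, g2, ⟨-, d1, hd1, hf1⟩, g4⟩ := s1
    obtain ⟨a, a', b1, b2, ⟨-, d2, hd2, hf2⟩, b4⟩ := s4
    have hg4 : e' ≤ c1 := g4
    have hb4 : a' ≤ y := b4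
    have hTr2 : Tr S.PP (W + 1) d1 d2 := by
      have := Tr.mono (P' := S.PP) (fun _ _ _ _ _ h => h.1) s3
      exact (this.left (hd1.2.trans hg4)).right (b1.trans hd2.1)
    have hd12 := hTr2.le
    have hxd1 : x ≤ d1 := g1.trans hd1.1
    have hd2y : d2 ≤ y := hd2.2.trans hb4
    by_cases hz : ∀ t ∈ Set.Icc d1 d2, C1 ≤ S.f t
    · exfalso
      have hT : ∀ t ∈ Set.Icc d1 d2, S.Tight δ t ∨ S.rot.Tight δ t ∨ S.rot.rot.Tight δ t :=
        fun t ht => S.tight_of_f hδ0 hC1b (hz t ht)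
      have hc1 : Traj.csep m₂ m₃ m₁ = Traj.csep m₁ m₂ m₃ := Traj.csep_rot m₁ m₂ m₃
      have hc2 : Traj.csep m₃ m₁ m₂ = Traj.csep m₁ m₂ m₃ := (Traj.csep_rot m₂ m₃ m₁).trans hc1
      rcases hT d1 ⟨le_rfl, hd12⟩ with h | h | h
      · have hp := S.persist hδc hT h
        have := S.inside t1 hE hends (fun t ht => N1 S t ((hp t ht).trans (by
          have := S.s_pos t
          gcongr))) hTr2
        push_cast at this
        linarith
      · have hp := S.rot.persist (by rw [hc1]; exact hδc) (fun t ht => by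
          rcases hT t ht with h | h | h
          · exact Or.inr (Or.inr h)
          · exact Or.inl h
          · exact Or.inr (Or.inl h)) h
        have := S.rot.inside t2 (by rw [Traj.rot_E]; exact hE) (Traj.Ends.rot S hends)
          (fun t ht => N2 S.rot t ((hp t ht).trans (by
            have := S.rot.s_pos t
            gcongr))) (hTr2.mono (fun u v _ _ _ h => (S.PP_rot u v).2 h))
        push_cast at this
        linarith
      · have hp := S.rot.rot.persist (by rw [hc2]; exact hδc) (fun t ht => by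
          rcases hT t ht with h | h | h
          · exact Or.inr (Or.inl h)
          · exact Or.inr (Or.inr h)
          · exact Or.inl h) h
        have := S.rot.rot.inside t3 (by rw [Traj.rot_E, Traj.rot_E]; exact hE)
          (Traj.Ends.rot S.rot (Traj.Ends.rot S hends))
          (fun t ht => N3 S.rot.rot t ((hp t ht).trans (by
            have := S.rot.rot.s_pos t
            gcongr))) (hTr2.mono (fun u v _ _ _ h => (S.rot.PP_rot u v).2 ((S.PP_rot u v).2 h)))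
        push_cast at this
        linarith
    · push Not at hz
      obtain ⟨m, hm, hfm⟩ := hz
      obtain ⟨α, β, u1, u2, u3, u4, u5, u6⟩ := HZ' S hE d1 m hm.1 ⟨hf1.le, hfm.le⟩
      exact ⟨α, β, hxd1.trans u1, u2, u3.trans (hm.2.trans hd2y), by linarith, by linarith,
        k0.trans u6⟩

/-- Uniform bound for the number of label changes. -/
theorem main_traj (m₁ m₂ m₃ : ℝ) (h1 : 0 < m₁) (h2 : 0 < m₂) (h3 : 0 < m₃) :
    ∃ N : ℕ, ∀ (S : Traj m₁ m₂ m₃), 0 < S.E → S.Ends → ∀ (n : ℕ) (a b : ℝ),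
      Tr S.PP n a b → n < N := by
  obtain ⟨B, C, ε, hε, H⟩ := block_cost m₁ m₂ m₃ h1 h2 h3
  obtain ⟨k, hk⟩ := exists_nat_ge (Real.pi / ε)
  refine ⟨B * (k + 1), ?_⟩
  intro S hE hends n a b hTr
  by_contra hcon
  push Not at hcon
  have t1 := hTr.of_le hcon
  have t2 := Tr.block B t1
  obtain ⟨α, β, g1, g2, g3, g4, g5, g6⟩ := S.accumulate hE (H S hE hends) k a b t2
  have g7 := S.phi_lt C α β
  rw [div_le_iff₀ hε] at hk
  linarith

end Pool.Agent.Work.MP_877ce7_an
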